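import Pool.Agent.Lib.MP_ae0f86_nt.F.Stm

/-!
# MP_ae0f86_nt, project FEYNMAN: chains and smooth complete intersections (piece ci)
-/

open CategoryTheory CategoryTheory.Limits MvPolynomial Opposite MonoidalCategory

universe v u

namespace Pool.Agent.Lib.MP_ae0f86_nt.F

noncomputable section

private theorem ci_snoc {α V k : Type} [Field k] [AddCommGroup V] [Module k V] (G : α → V)
    (l : List α) (t : α) :
    LinearIndependent k (fun a : Fin (l ++ [t]).length => G ((l ++ [t]).get a)) ↔
      LinearIndependent k (fun a : Fin l.length => G (l.get a)) ∧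
        G t ∉ Submodule.span k {v | ∃ f ∈ l, v = G f} := by
  have hl : l.length + 1 = (l ++ [t]).length := by simp
  have hr : Set.range (fun a : Fin l.length => G (l.get a)) = {v | ∃ f ∈ l, v = G f} := by
    ext v
    constructor
    · rintro ⟨a, rfl⟩
      exact ⟨l.get a, List.get_mem l a, rfl⟩
    · rintro ⟨f, hf, rfl⟩
      obtain ⟨a, ha⟩ := List.get_of_mem hf
      exact ⟨a, by simp only [ha]⟩
  have h1 : (fun a : Fin (l ++ [t]).length => G ((l ++ [t]).get a)) ∘ (finCongr hl) =
      (Fin.snoc (fun a : Fin l.length => G (l.get a)) (G t) : Fin (l.length + 1) → V) := by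
    funext a
    refine Fin.lastCases ?_ (fun b => ?_) a
    · rw [Fin.snoc_last]
      simp
    · rw [Fin.snoc_castSucc]
      simp
  rw [← linearIndependent_equiv' (finCongr hl) h1, linearIndependent_finSnoc, hr]

private theorem ci_last {α : Type} {l acc rest : List α} {t s : α}
    (h : l ++ [t] = acc ++ s :: rest) :
    (rest = [] ∧ acc = l ∧ s = t) ∨ ∃ r, rest = r ++ [t] ∧ l = acc ++ s :: r := by
  rcases List.eq_nil_or_concat rest with rfl | ⟨r, b, rfl⟩
  · left
    have h' : l ++ [t] = acc ++ [s] := h
    obtain ⟨h1, h2⟩ := List.append_inj' h' rfl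
    refine ⟨rfl, h1.symm, ?_⟩
    simpa using h2.symm
  · right
    have h' : l ++ [t] = (acc ++ s :: r) ++ [b] := by
      rw [h]; simp
    obtain ⟨h1, h2⟩ := List.append_inj' h' rfl
    have h3 : t = b := by simpa using h2
    subst h3
    exact ⟨r, by simp, h1⟩

private theorem ci_prefix {k : Type} [Field k] {ι : Type} (l m : List (MvPolynomial ι k))
    (h : Chain (l ++ m)) : Chain l := by
  intro acc t rest e x hx ht
  exact h acc t (rest ++ m) (by rw [e]; simp) x hx ht

theorem p_ci : S_ci := by
  intro k _ ι
  refine ⟨?_, ?_, ci_prefix, ?_, ?_⟩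
  · intro l
    induction l using List.reverseRecOn with
    | nil =>
      intro _ x _
      exact linearIndependent_empty_type (ι := Fin 0)
    | append_singleton l t ih =>
      intro h x hx
      have hx1 : x ∈ zs l := fun f hf => hx f (List.mem_append_left _ hf)
      have hx2 : eval x t = 0 := hx t (by simp)
      exact (ci_snoc (grad x) l t).2 ⟨ih (ci_prefix l [t] h) x hx1, h l t [] rfl x hx1 hx2⟩
  · intro l t h1 h2 acc s rest e x hx hs
    rcases ci_last e with ⟨_, rfl, rfl⟩ | ⟨r, _, e2⟩
    · have hx' : x ∈ zs (acc ++ [s]) := by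
        intro f hf
        rcases List.mem_append.1 hf with hf | hf
        · exact hx f hf
        · rw [List.mem_singleton] at hf
          rw [hf]; exact hs
      exact ((ci_snoc (grad x) acc s).1 (h2 x hx')).2
    · exact h1 acc s r e2 x hx hs
  · intro acc t rest e
    have := congrArg List.length e
    simp at this
  · intro f hf acc t rest e x _ ht
    have hl := congrArg List.length e
    simp only [List.length_cons, List.length_nil, List.length_append] at hl
    have ha : acc = [] := List.length_eq_zero_iff.1 (by omega)
    subst ha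
    have hft : f = t := by
      have := congrArg List.head? e
      simpa using this
    subst hft
    have hs : {v : ι → k | ∃ g ∈ ([] : List (MvPolynomial ι k)), v = grad x g} = ∅ := by
      ext v; simp
    rw [hs, Submodule.span_empty, Submodule.mem_bot]
    exact hf x ht

end

end Pool.Agent.Lib.MP_ae0f86_nt.F
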