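import Mathlib
import Pool.Agent.Lib.MP_ae0f86_nt.F.Stm

/-!
# MP_ae0f86_nt, project FEYNMAN: denominators of the walls (piece coneq)
-/

open CategoryTheory CategoryTheory.Limits MvPolynomial Opposite MonoidalCategory

universe v u

namespace Pool.Agent.Lib.MP_ae0f86_nt.F

noncomputable section

private lemma coneq_gen {k : Type} [Field k] [CharZero k] {σ : Type} (G : Feynman)
    (f : G.E × Fin 4 → MvPolynomial σ k) (e : G.E) :
    bind₁ f (G.den k e) =
      (f (e, 0) + C (G.a e 0 : k)) * (f (e, 1) + C (G.a e 1 : k)) +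
      (f (e, 2) + C (G.a e 2 : k)) * (f (e, 3) + C (G.a e 3 : k)) := by
  unfold Feynman.den sq
  simp only [map_add, map_mul, bind₁_X_right, bind₁_C_right]

private lemma coneq_wden {k : Type} [Field k] [CharZero k] {Λ : Type} [Fintype Λ] {M : ℕ}
    (f : Bool) (c : Fin M → Wall Λ) (e : Edge Λ M) :
    wden k f c e =
      (flowPoly k c (e, 0) + C (shift f c e 0 : k)) *
        (flowPoly k c (e, 1) + C (shift f c e 1 : k)) +
      (flowPoly k c (e, 2) + C (shift f c e 2 : k)) *
        (flowPoly k c (e, 3) + C (shift f c e 3 : k)) :=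
  coneq_gen (graph f c) (flowPoly k c) e

private lemma coneq_kind {Λ : Type} {M : ℕ} (c : Fin M → Wall Λ) (τ : Fin M) (i : Fin 3) :
    kind c (pos τ i) = if i = 2 then 2 else if i = 1 ∧ (c τ).mul = true then 1 else 0 := by
  have h1 : slotOf (pos τ i) = i := by
    unfold slotOf pos
    rw [Equiv.symm_apply_apply]
  have h2 : wallOf (pos τ i) = τ := by
    unfold wallOf pos
    rw [Equiv.symm_apply_apply]
  unfold kind
  rw [h1, h2]

private lemma coneq_line {k : Type} [Field k] [CharZero k] {Λ : Type} {M : ℕ}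
    (c : Fin M → Wall Λ) (τ : Fin M) (i : Fin 3) (j : Fin 4) :
    linePoly k c (cw (vr c (pos τ i), pos τ i), j) =
      C (((if i = 2 then ![0, 0, 1, 0] else
        if i = 1 ∧ (c τ).mul = true then ![0, 1, 0, 0] else ![1, 0, 0, 0] : Fin 4 → ℤ) j : ℤ) : k) *
        X (cw (vr c (pos τ i), pos τ i)) := by
  have h : dir c (cw (vr c (pos τ i), pos τ i)) =
      if kind c (pos τ i) = 0 then ![1, 0, 0, 0] else if kind c (pos τ i) = 1 then ![0, 1, 0, 0]
        else ![0, 0, 1, 0] := rfl
  unfold linePoly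
  rw [h, coneq_kind]
  by_cases h2 : i = 2
  · simp [h2]
  · by_cases h1 : i = 1 ∧ (c τ).mul = true
    · simp [h1]
    · simp [h2, h1]

theorem p_coneq : S_coneq := by
  intro k _ _ Λ _ M f c τ
  have hX : ∀ j : Fin 4, flowPoly k c (et τ, j) =
      ∑ i : Fin 3, X (cw (vr c (pos τ i), pos τ i), j) := fun j => rfl
  have ha : ∀ j : Fin 4, shift f c (et τ) j =
      (if (c τ).mul then ![0, 0, if (c τ).d then 1 else 0, -1]
        else ![0, 1, if (c τ).d then 1 else 0, -1] : Fin 4 → ℤ) j := fun j => rfl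
  rw [coneq_wden]
  unfold conPoly Wall.poly
  simp only [map_add, map_mul, bind₁_X_right, bind₁_C_right, hX, ha,
    Fin.sum_univ_three, coneq_line]
  cases (c τ).mul <;> cases (c τ).d <;> simp <;> ring

end

end Pool.Agent.Lib.MP_ae0f86_nt.F
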