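import Mathlib
import Pool.Agent.Lib.MP_ae0f86_nt.F.Stm

/-!
# [FY ct] Chains and parametrisations
-/

open CategoryTheory CategoryTheory.Limits MvPolynomial Opposite MonoidalCategory

universe v u

namespace Pool.Agent.Lib.MP_ae0f86_nt.F

noncomputable section

section Ct

variable {k : Type} [Field k] {ι τ : Type}

private theorem ct_eval (Φ : ι → MvPolynomial τ k) (y : τ → k) (f : MvPolynomial ι k) :
    eval y (bind₁ Φ f) = eval (fun i => eval y (Φ i)) f := by
  induction f using MvPolynomial.induction_on with
  | C a => simp
  | add p q hp hq => rw [map_add, map_add, map_add, hp, hq]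
  | mul_X p n hp => rw [map_mul, map_mul, map_mul, hp, bind₁_X_right, eval_X]

/-- the differential of `Φ` -/
private def ctD [Fintype ι] (Φ : ι → MvPolynomial τ k) (y : τ → k) : (ι → k) →ₗ[k] (τ → k) :=
  LinearMap.pi fun j => ∑ i, (eval y (pderiv j (Φ i))) • LinearMap.proj i

private theorem ctD_apply [Fintype ι] (Φ : ι → MvPolynomial τ k) (y : τ → k) (w : ι → k)
    (j : τ) : ctD Φ y w j = ∑ i, eval y (pderiv j (Φ i)) * w i := by
  rw [ctD, LinearMap.pi_apply, LinearMap.sum_apply]
  exact Finset.sum_congr rfl fun i _ => rfl

private theorem ct_chain [Fintype ι] (Φ : ι → MvPolynomial τ k) (y : τ → k)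
    (f : MvPolynomial ι k) :
    grad y (bind₁ Φ f) = ctD Φ y (grad (fun i => eval y (Φ i)) f) := by
  funext j
  rw [ctD_apply]
  show eval y (pderiv j (bind₁ Φ f)) =
    ∑ i, eval y (pderiv j (Φ i)) * eval (fun i => eval y (Φ i)) (pderiv i f)
  induction f using MvPolynomial.induction_on with
  | C a => simp
  | add p q hp hq =>
    rw [map_add, map_add, map_add, hp, hq, ← Finset.sum_add_distrib]
    refine Finset.sum_congr rfl fun i _ => ?_
    rw [map_add, map_add, mul_add]
  | mul_X p n hp =>
    classical
    rw [map_mul, bind₁_X_right, Derivation.leibniz, smul_eq_mul, smul_eq_mul, map_add, map_mul,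
      map_mul, hp, ct_eval]
    have h1 : ∀ i, eval y (pderiv j (Φ i)) *
        eval (fun i => eval y (Φ i)) (pderiv i (p * MvPolynomial.X n)) =
        eval (fun i => eval y (Φ i)) p * (if i = n then eval y (pderiv j (Φ i)) else 0) +
          eval y (Φ n) * (eval y (pderiv j (Φ i)) *
            eval (fun i => eval y (Φ i)) (pderiv i p)) := fun i => by
      rw [Derivation.leibniz, smul_eq_mul, smul_eq_mul, map_add, map_mul, map_mul, eval_X,
        pderiv_X]
      by_cases h : i = n
      · subst h
        rw [if_pos rfl, Pi.single_eq_same, map_one]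
        ring
      · rw [if_neg h, Pi.single_eq_of_ne (fun h' => h h'.symm), map_zero]
        ring
    rw [Finset.sum_congr rfl fun i _ => h1 i, Finset.sum_add_distrib, ← Finset.mul_sum,
      ← Finset.mul_sum, Finset.sum_ite_eq' Finset.univ n, if_pos (Finset.mem_univ n)]

end Ct

theorem p_ct : S_ct := by
  intro k _ _ ι τ _ l m Φ hl hΦ hm acc t rest heq x hx ht hmem
  have := Fintype.ofFinite ι
  rcases List.append_eq_append_iff.1 heq with ⟨m1, h1, h2⟩ | ⟨c, h1, h2⟩
  · -- `acc = l ++ m1`
    have hxl : x ∈ zs l := zs_anti (by rw [h1]; exact List.subset_append_left l m1) hx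
    obtain ⟨y, rfl⟩ := (hΦ x).1 hxl
    have hD : ∀ v ∈ Submodule.span k {v | ∃ f ∈ acc, v = grad (fun i => eval y (Φ i)) f},
        ctD Φ y v ∈ Submodule.span k {v | ∃ f ∈ m1.map (bind₁ Φ), v = grad y f} := by
      intro v hv
      induction hv using Submodule.span_induction with
      | mem v hv =>
        obtain ⟨f, hf, rfl⟩ := hv
        rw [← ct_chain]
        rw [h1, List.mem_append] at hf
        rcases hf with hf | hf
        · have h0 : bind₁ Φ f = 0 := by
            apply MvPolynomial.funext
            intro y'
            rw [ct_eval, map_zero]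
            exact (hΦ _).2 ⟨y', rfl⟩ f hf
          have h3 : grad y (0 : MvPolynomial τ k) = 0 := by
            funext j
            show eval y (pderiv j (0 : MvPolynomial τ k)) = 0
            rw [map_zero, map_zero]
          rw [h0, h3]
          exact Submodule.zero_mem _
        · exact Submodule.subset_span ⟨_, List.mem_map.2 ⟨f, hf, rfl⟩, rfl⟩
      | zero => rw [map_zero]; exact Submodule.zero_mem _
      | add v w _ _ hv hw => rw [map_add]; exact Submodule.add_mem _ hv hw
      | smul a v _ hv => rw [map_smul]; exact Submodule.smul_mem _ a hv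
    have h4 := hD _ hmem
    rw [← ct_chain] at h4
    refine hm (m1.map (bind₁ Φ)) (bind₁ Φ t) (rest.map (bind₁ Φ)) ?_ y ?_ ?_ h4
    · rw [h2, List.map_append, List.map_cons]
    · intro f hf
      obtain ⟨f0, hf0, rfl⟩ := List.mem_map.1 hf
      rw [ct_eval]
      exact hx f0 (by rw [h1]; exact List.mem_append_right l hf0)
    · rw [ct_eval]
      exact ht
  · -- `l = acc ++ c`
    cases c with
    | nil =>
      -- `acc = l`
      rw [List.append_nil] at h1
      rw [List.nil_append] at h2
      subst h1
      obtain ⟨y, rfl⟩ := (hΦ x).1 hx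
      have hD : ∀ v ∈ Submodule.span k {v | ∃ f ∈ l, v = grad (fun i => eval y (Φ i)) f},
          ctD Φ y v = 0 := by
        intro v hv
        induction hv using Submodule.span_induction with
        | mem v hv =>
          obtain ⟨f, hf, rfl⟩ := hv
          rw [← ct_chain]
          have h0 : bind₁ Φ f = 0 := by
            apply MvPolynomial.funext
            intro y'
            rw [ct_eval, map_zero]
            exact (hΦ _).2 ⟨y', rfl⟩ f hf
          rw [h0]
          funext j
          show eval y (pderiv j (0 : MvPolynomial τ k)) = 0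
          rw [map_zero, map_zero]
        | zero => rw [map_zero]
        | add v w _ _ hv hw => rw [map_add, hv, hw, add_zero]
        | smul a v _ hv => rw [map_smul, hv, smul_zero]
      have h4 := hD _ hmem
      rw [← ct_chain] at h4
      refine hm [] (bind₁ Φ t) (rest.map (bind₁ Φ)) ?_ y ?_ ?_ ?_
      · rw [← h2, List.map_cons, List.nil_append]
      · intro f hf
        exact absurd hf List.not_mem_nil
      · rw [ct_eval]
        exact ht
      · rw [h4]
        exact Submodule.zero_mem _
    | cons s c =>
      rw [List.cons_append] at h2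
      obtain ⟨rfl, h3⟩ := List.cons.inj h2
      exact hl acc t c h1 x hx ht hmem

end

end Pool.Agent.Lib.MP_ae0f86_nt.F
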