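import Pool.Agent.Lib.MP_ae0f86_nt.F.Stm
import Mathlib

/-!
# [FY elist] lists of edges
-/

open CategoryTheory CategoryTheory.Limits MvPolynomial Opposite MonoidalCategory

universe v u

namespace Pool.Agent.Lib.MP_ae0f86_nt.F

noncomputable section

private lemma elist_wire {Λ : Type} [Fintype Λ] {M : ℕ} :
    (wireEdges : List (Edge Λ M)).Nodup := by
  rw [wireEdges, List.nodup_flatMap]
  refine ⟨fun w _ => ?_, ?_⟩
  · simp
  · refine (Finset.nodup_toList _).imp ?_
    intro a b hab
    simp only [Function.onFun, List.disjoint_left, List.mem_cons, List.not_mem_nil, or_false]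
    rintro x (rfl | rfl | rfl) <;> simp [hab]

private lemma elist_gate {Λ : Type} [Fintype Λ] {M : ℕ} :
    (gateEdges : List (Edge Λ M)).Nodup := by
  rw [gateEdges, List.nodup_flatMap]
  refine ⟨fun a _ => ?_, ?_⟩
  · rw [List.nodup_flatMap]
    refine ⟨fun j _ => ?_, ?_⟩
    · simp
    · refine (List.nodup_finRange _).imp ?_
      intro j j' hj
      simp only [Function.onFun, List.disjoint_left, List.mem_cons, List.not_mem_nil, or_false]
      rintro x (rfl | rfl | rfl) <;> simp [hj]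
  · refine (Finset.nodup_toList _).imp ?_
    intro a b hab
    simp only [Function.onFun, List.disjoint_left, List.mem_flatMap, List.mem_cons,
      List.not_mem_nil, or_false]
    rintro x ⟨j, -, (rfl | rfl | rfl)⟩ <;> simp [hab]

private lemma elist_con {Λ : Type} {M : ℕ} : (conEdges : List (Edge Λ M)).Nodup := by
  rw [conEdges]
  refine (List.nodup_finRange M).map ?_
  intro τ τ' h
  simpa using h

private lemma elist_top {Λ : Type} [Fintype Λ] {M : ℕ} :
    (topEdges : List (Edge Λ M)).Nodup := by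
  rw [topEdges]
  refine (Finset.nodup_toList _).map ?_
  intro w w' h
  simpa using h

private lemma elist_mem_wire {Λ : Type} [Fintype Λ] {M : ℕ} (e : Edge Λ M) :
    e ∈ (wireEdges : List (Edge Λ M)) ↔ ∃ w i, i ≠ 3 ∧ e = ew w i := by
  simp only [wireEdges, List.mem_flatMap, Finset.mem_toList, Finset.mem_univ, true_and,
    List.mem_cons, List.not_mem_nil, or_false]
  constructor
  · rintro ⟨w, (h | h | h)⟩
    · exact ⟨w, 0, by decide, h⟩
    · exact ⟨w, 1, by decide, h⟩
    · exact ⟨w, 2, by decide, h⟩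
  · rintro ⟨w, i, hi, h⟩
    refine ⟨w, ?_⟩
    fin_cases i
    · exact Or.inl h
    · exact Or.inr (Or.inl h)
    · exact Or.inr (Or.inr h)
    · exact absurd rfl hi

private lemma elist_mem_top {Λ : Type} [Fintype Λ] {M : ℕ} (e : Edge Λ M) :
    e ∈ (topEdges : List (Edge Λ M)) ↔ ∃ w, e = ew w 3 := by
  simp only [topEdges, List.mem_map, Finset.mem_toList, Finset.mem_univ, true_and]
  constructor
  · rintro ⟨w, h⟩
    exact ⟨w, h.symm⟩
  · rintro ⟨w, h⟩
    exact ⟨w, h.symm⟩

private lemma elist_mem_gate {Λ : Type} [Fintype Λ] {M : ℕ} (e : Edge Λ M) :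
    e ∈ (gateEdges : List (Edge Λ M)) ↔ (∃ p i, e = ec p i) ∨ ∃ p, e = ev p := by
  simp only [gateEdges, List.mem_flatMap, Finset.mem_toList, Finset.mem_univ, true_and,
    List.mem_finRange, List.mem_cons, List.not_mem_nil, or_false]
  constructor
  · rintro ⟨a, j, (h | h | h)⟩
    · exact Or.inl ⟨_, _, h⟩
    · exact Or.inl ⟨_, _, h⟩
    · exact Or.inr ⟨_, h⟩
  · rintro (⟨⟨a, j⟩, i, h⟩ | ⟨⟨a, j⟩, h⟩)
    · refine ⟨a, j, ?_⟩
      fin_cases i
      · exact Or.inl h
      · exact Or.inr (Or.inl h)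
    · exact ⟨a, j, Or.inr (Or.inr h)⟩

private lemma elist_mem_con {Λ : Type} {M : ℕ} (e : Edge Λ M) :
    e ∈ (conEdges : List (Edge Λ M)) ↔ ∃ τ, e = et τ := by
  simp only [conEdges, List.mem_map, List.mem_finRange, true_and]
  constructor
  · rintro ⟨τ, h⟩
    exact ⟨τ, h.symm⟩
  · rintro ⟨τ, h⟩
    exact ⟨τ, h.symm⟩

/-- [FY elist] -/
theorem p_elist : S_elist := by
  intro Λ _ M
  constructor
  · rw [List.nodup_append', List.nodup_append', List.nodup_append']
    refine ⟨⟨⟨elist_wire, elist_gate, ?_⟩, elist_con, ?_⟩, elist_top, ?_⟩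
    · intro x hx hx'
      rw [elist_mem_wire] at hx
      rw [elist_mem_gate] at hx'
      obtain ⟨w, i, -, rfl⟩ := hx
      rcases hx' with ⟨p, j, h⟩ | ⟨p, h⟩
      · simp at h
      · simp at h
    · intro x hx hx'
      rw [List.mem_append, elist_mem_wire, elist_mem_gate] at hx
      rw [elist_mem_con] at hx'
      obtain ⟨τ, rfl⟩ := hx'
      rcases hx with ⟨w, i, -, h⟩ | ⟨p, j, h⟩ | ⟨p, h⟩
      · simp at h
      · simp at h
      · simp at h
    · intro x hx hx'
      rw [List.mem_append, List.mem_append, elist_mem_wire, elist_mem_gate, elist_mem_con] at hx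
      rw [elist_mem_top] at hx'
      obtain ⟨w', rfl⟩ := hx'
      rcases hx with (⟨w, i, hi, h⟩ | ⟨p, j, h⟩ | ⟨p, h⟩) | ⟨τ, h⟩
      · simp only [Sum.inl.injEq, Prod.mk.injEq] at h
        exact hi h.2.symm
      · simp at h
      · simp at h
      · simp at h
  · intro e
    rw [List.mem_append, List.mem_append, List.mem_append, elist_mem_wire, elist_mem_gate,
      elist_mem_con, elist_mem_top]
    rcases e with ⟨w, i⟩ | ⟨p, i⟩ | p | τ
    · by_cases hi : i = 3
      · exact Or.inr ⟨w, by rw [hi]⟩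
      · exact Or.inl (Or.inl (Or.inl ⟨w, i, hi, rfl⟩))
    · exact Or.inl (Or.inl (Or.inr (Or.inl ⟨p, i, rfl⟩)))
    · exact Or.inl (Or.inl (Or.inr (Or.inr ⟨p, rfl⟩)))
    · exact Or.inl (Or.inr ⟨τ, rfl⟩)

end

end Pool.Agent.Lib.MP_ae0f86_nt.F
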