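import Pool.Agent.Lib.MP_ae0f86_nt.F.Stm

/-!
# MP_ae0f86_nt, project FEYNMAN: the piece `final`
-/

open CategoryTheory CategoryTheory.Limits MvPolynomial Opposite MonoidalCategory

universe v u

namespace Pool.Agent.Lib.MP_ae0f86_nt.F

noncomputable section

attribute [local instance] CategoryTheory.Abelian.hasFiniteBiproducts

private theorem eval_bind {k : Type} [Field k] {ι τ : Type} (Φ : ι → MvPolynomial τ k)
    (y : τ → k) (f : MvPolynomial ι k) :
    eval y (bind₁ Φ f) = eval (fun i => eval y (Φ i)) f := by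
  have h : eval₂Hom (RingHom.id k) y (bind₁ Φ f) =
      eval₂Hom (RingHom.id k) (fun i => eval₂Hom (RingHom.id k) y (Φ i)) f :=
    MvPolynomial.eval₂Hom_bind₁ _ _ _ _
  exact h

private theorem mem_zs_map {k : Type} [Field k] {ι τ : Type} (Φ : ι → MvPolynomial τ k)
    (y : τ → k) (m : List (MvPolynomial ι k)) :
    (fun i => eval y (Φ i)) ∈ zs m ↔ y ∈ zs (m.map (bind₁ Φ)) := by
  constructor
  · intro h f hf
    obtain ⟨g, hg, rfl⟩ := List.mem_map.1 hf
    rw [eval_bind]
    exact h g hg
  · intro h f hf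
    have h1 := h _ (List.mem_map_of_mem (f := bind₁ Φ) hf)
    rw [eval_bind] at h1
    exact h1

private theorem zs_append {k : Type} [Field k] {ι : Type} (l m : List (MvPolynomial ι k))
    (x : ι → k) : x ∈ zs (l ++ m) ↔ x ∈ zs l ∧ x ∈ zs m := by
  constructor
  · intro h
    exact ⟨fun f hf => h f (List.mem_append_left _ hf), fun f hf => h f (List.mem_append_right _ hf)⟩
  · rintro ⟨h1, h2⟩ f hf
    rcases List.mem_append.1 hf with h | h
    · exact h1 f h
    · exact h2 f h

private theorem wallOf_pos {M : ℕ} (τ : Fin M) (i : Fin 3) : wallOf (pos τ i) = τ := by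
  simp [wallOf, pos]

private theorem slotOf_pos {M : ℕ} (τ : Fin M) (i : Fin 3) : slotOf (pos τ i) = i := by
  simp [slotOf, pos]

private theorem con_bind {k : Type} [Field k] {Λ : Type} {M : ℕ} (c : Fin M → Wall Λ)
    (τ : Fin M) : bind₁ (fun w : Wire Λ M => (MvPolynomial.X (wvar w) : MvPolynomial Λ k))
      (conPoly k c τ) = (c τ).poly k := by
  have h : ∀ i : Fin 3, vr c (pos τ i) = slot (c τ) i := fun i => by
    rw [vr, wallOf_pos, slotOf_pos]
  rw [conPoly, MvPolynomial.bind₁_rename]
  have h2 : ((fun w : Wire Λ M => (MvPolynomial.X (wvar w) : MvPolynomial Λ k)) ∘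
      fun i : Fin 3 => cw (vr c (pos τ i), pos τ i)) =
      fun i => MvPolynomial.X (slot (c τ) i) := by
    funext i
    simp only [Function.comp, wvar, h]
  rw [h2]
  unfold Wall.poly
  cases (c τ).mul <;> cases (c τ).d <;> simp [slot]

/-- [FY final] -/
theorem p_final (rct : S_rct) (ct : S_ct) (wzero : S_wzero) (wchain : S_wchain)
    (wdata : S_wdata) (wireq : S_wireq) (gateq : S_gateq) (coneq : S_coneq)
    (gchain : S_gchain) : S_final := by
  intro k _ _ Λ _ M c
  classical
  have : Infinite k := inferInstance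
  obtain ⟨w1, w2, w3⟩ := wzero _ _ _ (rc c) (wdata (k := k) c)
  -- the lists
  have hl : ∀ f, (wireEdges ++ gateEdges ++ conEdges : List (Edge Λ M)).map (wden k f c) =
      (wireEdges : List (Edge Λ M)).map (wden k f c) ++
        (gateEdges ++ conEdges : List (Edge Λ M)).map (wden k f c) := by
    intro f
    simp [List.map_append]
  have hm : ∀ f, ((gateEdges ++ conEdges : List (Edge Λ M)).map (wden k f c)).map
      (bind₁ (linePoly k c)) = gateList k Λ M ++ (List.finRange M).map (conPoly k c) := by
    intro f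
    rw [List.map_append, List.map_append, gateq f c]
    congr 1
    rw [conEdges, List.map_map, List.map_map]
    exact List.map_congr_left fun τ _ => coneq f c τ
  have hw : ((List.finRange M).map (conPoly k c)).map
      (bind₁ (fun w : Wire Λ M => (MvPolynomial.X (wvar w) : MvPolynomial Λ k))) =
        wl k (List.ofFn c) := by
    rw [wl, List.ofFn_eq_map, List.map_map, List.map_map]
    exact List.map_congr_left fun τ _ => con_bind c τ
  -- the fourth propagators
  have top : ∀ x : Wire Λ M × Fin 4 → k, eval x (topProd k c) =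
      ((Finset.univ.toList : List (Wire Λ M)).map fun w =>
        eval x (wireProp false (fun w i => (dir c w i : k)) (fun w i => (av c w i : k))
          (fun w i => (bv c w i : k)) w 3)).prod := by
    intro x
    rw [topProd, topEdges, map_list_prod, List.map_map, List.map_map]
    congr 1
    refine List.map_congr_left fun w _ => ?_
    show eval x (wden k false c (ew w 3)) = _
    rw [(wireq false c).2 w 3]
  have top1 : ∀ x : Wire Λ M × Fin 4 → k, eval x (topProd k c) ≠ 0 → ∀ w : Wire Λ M,
      eval x (wireProp false (fun w i => (dir c w i : k)) (fun w i => (av c w i : k))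
          (fun w i => (bv c w i : k)) w 3) ≠ 0 := by
    intro x hx w h0
    apply hx
    rw [top, List.prod_eq_zero_iff]
    exact List.mem_map.2 ⟨w, Finset.mem_toList.2 (Finset.mem_univ w), h0⟩
  have line : ∀ (y : Wire Λ M → k) (w : Wire Λ M) (i : Fin 4),
      eval y (linePoly k c (w, i)) = y w * (dir c w i : k) := by
    intro y w i
    simp [linePoly, mul_comm]
  have top2 : ∀ y : Wire Λ M → k, eval (fun i => eval y (linePoly k c i)) (topProd k c) =
      (-1) ^ Fintype.card (Wire Λ M) := by
    intro y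
    rw [top]
    have : ((Finset.univ.toList : List (Wire Λ M)).map fun w =>
        eval (fun i => eval y (linePoly k c i)) (wireProp false (fun w i => (dir c w i : k))
          (fun w i => (av c w i : k)) (fun w i => (bv c w i : k)) w 3)) =
        List.replicate (Finset.univ.toList : List (Wire Λ M)).length (-1 : k) := by
      rw [List.eq_replicate_iff]
      refine ⟨List.length_map _, ?_⟩
      intro z hz
      obtain ⟨w, -, rfl⟩ := List.mem_map.1 hz
      exact w2 w _ (y w) fun i => line y w i
    rw [this, List.prod_replicate, Finset.length_toList, Finset.card_univ]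
  -- the zero set of the wires
  have z1 : ∀ x : Wire Λ M × Fin 4 → k,
      (x ∈ zs ((wireEdges : List (Edge Λ M)).map (wden k false c)) ∧
        eval x (topProd k c) ≠ 0) ↔
        ∃ y : Wire Λ M → k, (fun i => eval y (linePoly k c i)) = x := by
    intro x
    rw [(wireq false c).1]
    constructor
    · rintro ⟨h1, h2⟩
      have h := (w1 Finset.univ.toList x).1 ⟨h1, fun w _ => top1 x h2 w⟩
      choose α hα using fun w => h w (Finset.mem_toList.2 (Finset.mem_univ w))
      refine ⟨α, funext fun p => ?_⟩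
      obtain ⟨w, i⟩ := p
      rw [hα w i, line]
    · rintro ⟨y, rfl⟩
      refine ⟨((w1 Finset.univ.toList _).2 fun w _ => ⟨y w, fun i => line y w i⟩).1, ?_⟩
      rw [top2]
      exact pow_ne_zero _ (neg_ne_zero.2 one_ne_zero)
  have z2 : ∀ x : Wire Λ M → k, x ∈ zs (gateList k Λ M) ↔
      ∃ y : Λ → k, (fun w => eval y (MvPolynomial.X (wvar w) : MvPolynomial Λ k)) = x := by
    intro x
    rw [gchain.2 x]
    constructor
    · rintro ⟨y, hy⟩
      exact ⟨y, funext fun w => by show eval y (MvPolynomial.X (wvar w)) = x w; rw [hy w, eval_X]⟩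
    · rintro ⟨y, rfl⟩
      exact ⟨y, fun w => by show eval y (MvPolynomial.X (wvar w)) = y (wvar w); rw [eval_X]⟩
  -- the points on the lines
  have e1 : ∀ (y : Λ → k) (a : Λ), eval (fun w : Wire Λ M => eval y (MvPolynomial.X (wvar w) :
      MvPolynomial Λ k)) (linePoly k c (tw a 0, 0)) = y a := by
    intro y a
    simp [linePoly, dir, wvar]
  have key : ∀ (f : Bool) (x : Wire Λ M × Fin 4 → k),
      (∃ z : Wire Λ M → k, (fun i => eval z (linePoly k c i)) = x) →
      x ∈ zs ((gateEdges ++ conEdges : List (Edge Λ M)).map (wden k f c)) →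
        (fun a => x (tw a 0, 0)) ∈ zs (wl k (List.ofFn c)) ∧
          ∀ w i, x (w, i) = (dir c w i : k) * x (tw (wvar w) 0, 0) := by
    rintro f _ ⟨z, rfl⟩ hx
    have h2 := (mem_zs_map _ _ _).1 hx
    rw [hm, zs_append] at h2
    obtain ⟨y, rfl⟩ := (z2 z).1 h2.1
    have h3 := (mem_zs_map _ _ _).1 h2.2
    rw [hw] at h3
    refine ⟨?_, fun w i => ?_⟩
    · have : (fun a : Λ => eval (fun w : Wire Λ M => eval y (MvPolynomial.X (wvar w) :
          MvPolynomial Λ k)) (linePoly k c (tw a 0, 0))) = y := funext (e1 y)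
      rw [this]; exact h3
    · show eval _ (linePoly k c (w, i)) = _ * eval _ (linePoly k c (tw (wvar w) 0, 0))
      rw [e1]
      simp [linePoly]
  have e0 : ∀ y : Λ → k, (fun p : Wire Λ M × Fin 4 => (dir c p.1 p.2 : k) * y (wvar p.1)) =
      fun p => eval (fun w : Wire Λ M => eval y (MvPolynomial.X (wvar w) :
        MvPolynomial Λ k)) (linePoly k c p) := by
    intro y
    funext p
    simp [linePoly]
  have key2 : ∀ (f : Bool) (y : Λ → k), y ∈ zs (wl k (List.ofFn c)) →
      (fun p : Wire Λ M × Fin 4 => (dir c p.1 p.2 : k) * y (wvar p.1)) ∈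
        zs ((gateEdges ++ conEdges : List (Edge Λ M)).map (wden k f c)) := by
    intro f y hy
    rw [e0]
    refine (mem_zs_map _ _ _).2 ?_
    rw [hm, zs_append]
    refine ⟨(z2 _).2 ⟨y, rfl⟩, (mem_zs_map _ _ _).2 ?_⟩
    rw [hw]
    exact hy
  have hfin : Finite (Wire Λ M × Fin 4) := inferInstance
  refine ⟨?_, ?_, ?_⟩
  · -- the isomorphism for the relative cut
    have hs : ((-1 : k) ^ Fintype.card (Wire Λ M)) * ((-1) ^ Fintype.card (Wire Λ M)) = 1 := by
      rw [← mul_pow]; simp
    have k1 : ∀ z ∈ us ((wireEdges ++ gateEdges ++ conEdges : List (Edge Λ M)).map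
        (wden k false c)) (topProd k c),
        (fun a => z (Sum.inl (tw a 0, 0))) ∈ zs (wl k (List.ofFn c)) ∧
          (∀ w i, z (Sum.inl (w, i)) = (dir c w i : k) * z (Sum.inl (tw (wvar w) 0, 0))) ∧
            z (Sum.inr ()) = (-1) ^ Fintype.card (Wire Λ M) := by
      rintro z ⟨hz, hz2⟩
      rw [hl, zs_append] at hz
      have hg : eval (z ∘ Sum.inl) (topProd k c) ≠ 0 := fun h => by
        rw [h, mul_zero] at hz2; exact zero_ne_one hz2
      have hline := (z1 _).1 ⟨hz.1, hg⟩
      obtain ⟨h1, h2⟩ := key false _ hline hz.2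
      refine ⟨h1, h2, ?_⟩
      obtain ⟨y, hy⟩ := hline
      rw [← hy, top2] at hz2
      calc z (Sum.inr ()) = z (Sum.inr ()) * ((-1) ^ Fintype.card (Wire Λ M) *
            (-1) ^ Fintype.card (Wire Λ M)) := by rw [hs, mul_one]
        _ = _ := by rw [← mul_assoc, hz2, one_mul]
    have k2 : ∀ y ∈ zs (wl k (List.ofFn c)),
        (fun p : Wire Λ M × Fin 4 ⊕ Unit => p.elim
          (fun p => (dir c p.1 p.2 : k) * y (wvar p.1))
          (fun _ => (-1) ^ Fintype.card (Wire Λ M))) ∈
          us ((wireEdges ++ gateEdges ++ conEdges : List (Edge Λ M)).map (wden k false c))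
            (topProd k c) := by
      intro y hy
      have h0 : ((fun p : Wire Λ M × Fin 4 ⊕ Unit => p.elim
          (fun p => (dir c p.1 p.2 : k) * y (wvar p.1))
          (fun _ => (-1 : k) ^ Fintype.card (Wire Λ M))) ∘ Sum.inl) =
          fun p : Wire Λ M × Fin 4 => (dir c p.1 p.2 : k) * y (wvar p.1) := rfl
      refine ⟨?_, ?_⟩
      · rw [h0, hl, zs_append]
        refine ⟨?_, key2 false y hy⟩
        rw [e0]
        exact ((z1 _).2 ⟨_, rfl⟩).1
      · rw [h0, e0, top2]
        exact hs
    let f : AffPair.abs (us_alg ((wireEdges ++ gateEdges ++ conEdges :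
        List (Edge Λ M)).map (wden k false c)) (topProd k c)) ⟶
          AffPair.abs (zs_alg (wl k (List.ofFn c))) :=
      ⟨fun x => ⟨fun a => x.1 (Sum.inl (tw a 0, 0)), (k1 x.1 x.2).1⟩,
        ⟨fun a => MvPolynomial.X (Sum.inl (tw a 0, 0)), fun x a => by simp⟩, fun _ hx => hx⟩
    let g : AffPair.abs (zs_alg (wl k (List.ofFn c))) ⟶
        AffPair.abs (us_alg ((wireEdges ++ gateEdges ++ conEdges :
          List (Edge Λ M)).map (wden k false c)) (topProd k c)) :=
      ⟨fun y => ⟨_, k2 y.1 y.2⟩,
        ⟨fun p => p.elim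
          (fun p => MvPolynomial.C (dir c p.1 p.2 : k) * MvPolynomial.X (wvar p.1))
          (fun _ => MvPolynomial.C ((-1) ^ Fintype.card (Wire Λ M))),
          fun y p => by cases p <;> simp⟩, fun _ hx => hx⟩
    refine ⟨⟨f, g, AffPair.hom_ext _ _ fun x => ?_, AffPair.hom_ext _ _ fun y => ?_⟩⟩
    · funext p
      rcases p with p | p
      · exact ((k1 x.1 x.2).2.1 p.1 p.2).symm
      · exact ((k1 x.1 x.2).2.2).symm
    · funext a
      show (dir c (tw a 0) 0 : k) * y.1 (wvar (tw a 0)) = y.1 a
      simp [dir, wvar]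
  · intro hc
    rw [hl]
    refine rct _ _ _ (linePoly k c) ?_ z1 ?_
    · rw [(wireq false c).1]
      exact wchain _ _ _ (rc c) (wdata c) _ (Finset.nodup_toList _) _ fun x hx w _ => top1 x hx w
    · rw [hm]
      refine ct _ _ (fun w => MvPolynomial.X (wvar w)) gchain.1 z2 ?_
      rw [hw]
      exact hc
  · -- the maximal cut
    have m1 : ∀ x : Wire Λ M × Fin 4 → k,
        x ∈ zs ((Finset.univ.toList : List (Edge Λ M)).map (wden k true c)) ↔
          (∃ z : Wire Λ M → k, (fun i => eval z (linePoly k c i)) = x) ∧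
            x ∈ zs ((gateEdges ++ conEdges : List (Edge Λ M)).map (wden k true c)) := by
      intro x
      constructor
      · intro h
        have hall : ∀ e : Edge Λ M, eval x (wden k true c e) = 0 := fun e =>
          h _ (List.mem_map.2 ⟨e, Finset.mem_toList.2 (Finset.mem_univ e), rfl⟩)
        refine ⟨?_, ?_⟩
        · have h1 : ∀ w : Wire Λ M, ∃ α : k, ∀ i, x (w, i) = α * (dir c w i : k) := fun w =>
            (w3 w x).1 fun i => by rw [← (wireq true c).2 w i]; exact hall _
          choose α hα using h1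
          refine ⟨α, funext fun p => ?_⟩
          obtain ⟨w, i⟩ := p
          rw [hα w i, line]
        · intro f hf
          obtain ⟨e, -, rfl⟩ := List.mem_map.1 hf
          exact hall e
      · rintro ⟨⟨z, rfl⟩, h2⟩ f hf
        obtain ⟨e, -, rfl⟩ := List.mem_map.1 hf
        have hgate : ∀ e : Edge Λ M, e ∈ (gateEdges ++ conEdges : List (Edge Λ M)) →
            eval (fun i => eval z (linePoly k c i)) (wden k true c e) = 0 := fun e he =>
          h2 _ (List.mem_map.2 ⟨e, he, rfl⟩)
        rcases e with ⟨w, i⟩ | ⟨⟨a, j⟩, i⟩ | ⟨a, j⟩ | τ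
        · show eval _ (wden k true c (ew w i)) = 0
          rw [(wireq true c).2 w i]
          exact (w3 w _).2 ⟨z w, fun i => line z w i⟩ i
        · apply hgate
          refine List.mem_append_left _ ?_
          refine List.mem_flatMap.2 ⟨a, Finset.mem_toList.2 (Finset.mem_univ a),
            List.mem_flatMap.2 ⟨j, List.mem_finRange j, ?_⟩⟩
          fin_cases i <;> simp
        · apply hgate
          refine List.mem_append_left _ ?_
          refine List.mem_flatMap.2 ⟨a, Finset.mem_toList.2 (Finset.mem_univ a),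
            List.mem_flatMap.2 ⟨j, List.mem_finRange j, ?_⟩⟩
          simp
        · apply hgate
          exact List.mem_append_right _ (List.mem_map.2 ⟨τ, List.mem_finRange τ, rfl⟩)
    let f : AffPair.abs (zs_alg ((Finset.univ.toList : List (Edge Λ M)).map (wden k true c))) ⟶
        AffPair.abs (zs_alg (wl k (List.ofFn c))) :=
      ⟨fun x => ⟨fun a => x.1 (tw a 0, 0),
          (key true x.1 ((m1 x.1).1 x.2).1 ((m1 x.1).1 x.2).2).1⟩,
        ⟨fun a => MvPolynomial.X (tw a 0, 0), fun x a => by simp⟩, fun _ hx => hx⟩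
    let g : AffPair.abs (zs_alg (wl k (List.ofFn c))) ⟶
        AffPair.abs (zs_alg ((Finset.univ.toList : List (Edge Λ M)).map (wden k true c))) :=
      ⟨fun y => ⟨fun p => (dir c p.1 p.2 : k) * y.1 (wvar p.1),
          (m1 _).2 ⟨⟨_, (e0 y.1).symm⟩, key2 true y.1 y.2⟩⟩,
        ⟨fun p => MvPolynomial.C (dir c p.1 p.2 : k) * MvPolynomial.X (wvar p.1),
          fun y p => by simp⟩, fun _ hx => hx⟩
    refine ⟨⟨f, g, AffPair.hom_ext _ _ fun x => ?_, AffPair.hom_ext _ _ fun y => ?_⟩⟩
    · funext p
      exact ((key true x.1 ((m1 x.1).1 x.2).1 ((m1 x.1).1 x.2).2).2 p.1 p.2).symm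
    · funext a
      show (dir c (tw a 0) 0 : k) * y.1 (wvar (tw a 0)) = y.1 a
      simp [dir, wvar]

end

end Pool.Agent.Lib.MP_ae0f86_nt.F
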