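import Mathlib
import Pool.Agent.Lib.MP_ae0f86_nt.F.Stm

/-!
# MP_ae0f86_nt, project FEYNMAN: the flows on the graph
-/

open MvPolynomial

namespace Pool.Agent.Lib.MP_ae0f86_nt.F

noncomputable section

namespace FlowC

variable {R : Type} [CommRing R] {Λ : Type} [Fintype Λ] {M : ℕ}

lemma sum_edge (F : Edge Λ M → R) : ∑ e, F e =
    ∑ w : Wire Λ M, (F (ew w 0) + F (ew w 1) + F (ew w 2) + F (ew w 3)) +
      (∑ p : Gate Λ M, (F (ec p 0) + F (ec p 1)) +
        (∑ p : Gate Λ M, F (ev p) + ∑ τ : Fin M, F (et τ))) := by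
  rw [Fintype.sum_sum_type, Fintype.sum_sum_type, Fintype.sum_sum_type]
  congr 1
  · rw [Fintype.sum_prod_type]
    exact Finset.sum_congr rfl fun w _ => by rw [Fin.sum_univ_four]
  · congr 1
    rw [Fintype.sum_prod_type (f := fun p : Gate Λ M × Fin 2 => F (Sum.inr (Sum.inl p)))]
    exact Finset.sum_congr rfl fun p _ => by rw [Fin.sum_univ_two]

lemma sum_wire (F : Wire Λ M → R) : ∑ w, F w =
    ∑ a : Λ, ∑ j : Fin (M * 3 + 1), F (tw a j) +
      (∑ p : Gate Λ M, F (bw p) + ∑ p : Gate Λ M, F (cw p)) := by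
  rw [Fintype.sum_sum_type, Fintype.sum_sum_type]
  congr 1
  exact Fintype.sum_prod_type _

variable [DecidableEq (Vert Λ M)]

/-- the flow into a vertex -/
def T (c : Fin M → Wall Λ) (y : Edge Λ M → R) (v : Vert Λ M) : R :=
  ∑ e, if etgt c e = v then y e else 0

/-- the flow out of a vertex -/
def S (y : Edge Λ M → R) (v : Vert Λ M) : R := ∑ e, if esrc e = v then y e else 0

lemma T_eq (c : Fin M → Wall Λ) (y : Edge Λ M → R) (v : Vert Λ M) : T c y v =
    ∑ w : Wire Λ M, ((if Vert.mid w 0 = v then y (ew w 0) else 0) +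
      (if Vert.mid w 1 = v then y (ew w 1) else 0) +
      (if Vert.mid w 2 = v then y (ew w 2) else 0) +
      (if wtgt c w = v then y (ew w 3) else 0)) +
      (∑ p : Gate Λ M, ((if Vert.half p = v then y (ec p 0) else 0) +
        (if Vert.root = v then y (ec p 1) else 0)) +
        (∑ p : Gate Λ M, (if Vert.root = v then y (ev p) else 0) +
          ∑ τ : Fin M, if Vert.root = v then y (et τ) else 0)) := by
  unfold T
  rw [sum_edge]
  rfl

lemma S_eq (y : Edge Λ M → R) (v : Vert Λ M) : S y v =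
    ∑ w : Wire Λ M, ((if wsrc w = v then y (ew w 0) else 0) +
      (if Vert.mid w 0 = v then y (ew w 1) else 0) +
      (if Vert.mid w 1 = v then y (ew w 2) else 0) +
      (if Vert.mid w 2 = v then y (ew w 3) else 0)) +
      (∑ p : Gate Λ M, ((if Vert.copy p = v then y (ec p 0) else 0) +
        (if Vert.half p = v then y (ec p 1) else 0)) +
        (∑ p : Gate Λ M, (if Vert.conv p = v then y (ev p) else 0) +
          ∑ τ : Fin M, if Vert.con τ = v then y (et τ) else 0)) := by
  unfold S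
  rw [sum_edge]
  rfl

omit [Fintype Λ] [DecidableEq (Vert Λ M)] in
lemma wtgt_cast (c : Fin M → Wall Λ) (a : Λ) (j : Fin (M * 3)) :
    wtgt c (tw a j.castSucc) = Vert.copy (a, j) := by
  change Fin.lastCases (motive := fun _ => Vert Λ M) Vert.root (fun i => Vert.copy (a, i))
    j.castSucc = _
  rw [Fin.lastCases_castSucc]

omit [Fintype Λ] [DecidableEq (Vert Λ M)] in
lemma wtgt_last (c : Fin M → Wall Λ) (a : Λ) :
    wtgt c (tw a (Fin.last (M * 3))) = Vert.root := by
  change Fin.lastCases (motive := fun _ => Vert Λ M) Vert.root (fun i => Vert.copy (a, i))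
    (Fin.last _) = _
  rw [Fin.lastCases_last]

omit [Fintype Λ] [DecidableEq (Vert Λ M)] in
lemma wsrc_zero (a : Λ) : wsrc (tw a (0 : Fin (M * 3 + 1))) = Vert.root := rfl

omit [Fintype Λ] [DecidableEq (Vert Λ M)] in
lemma wsrc_succ (a : Λ) (j : Fin (M * 3)) : wsrc (tw a j.succ) = Vert.copy (a, j) := rfl

lemma sum_wtgt (c : Fin M → Wall Λ) (F : Wire Λ M → R) (v : Vert Λ M) :
    (∑ w : Wire Λ M, if wtgt c w = v then F w else 0) =
      ∑ a : Λ, (∑ j : Fin (M * 3), (if Vert.copy (a, j) = v then F (tw a j.castSucc) else 0) +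
        (if Vert.root = v then F (tw a (Fin.last _)) else 0)) +
      (∑ p : Gate Λ M, (if Vert.conv p = v then F (bw p) else 0) +
        ∑ p : Gate Λ M, if wtgt c (cw p) = v then F (cw p) else 0) := by
  rw [sum_wire]
  congr 1
  refine Finset.sum_congr rfl fun a _ => ?_
  rw [Fin.sum_univ_castSucc]
  congr 1
  · refine Finset.sum_congr rfl fun j _ => ?_
    rw [wtgt_cast]
  · rw [wtgt_last]

lemma sum_wsrc (F : Wire Λ M → R) (v : Vert Λ M) :
    (∑ w : Wire Λ M, if wsrc w = v then F w else 0) =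
      ∑ a : Λ, ((if Vert.root = v then F (tw a 0) else 0) +
        ∑ j : Fin (M * 3), (if Vert.copy (a, j) = v then F (tw a j.succ) else 0)) +
      (∑ p : Gate Λ M, (if Vert.copy p = v then F (bw p) else 0) +
        ∑ p : Gate Λ M, if Vert.conv p = v then F (cw p) else 0) := by
  rw [sum_wire]
  congr 1
  refine Finset.sum_congr rfl fun a _ => ?_
  rw [Fin.sum_univ_succ]
  congr 1

lemma T_eq' (c : Fin M → Wall Λ) (y : Edge Λ M → R) (v : Vert Λ M) : T c y v =
    ∑ w : Wire Λ M, (if Vert.mid w 0 = v then y (ew w 0) else 0) +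
      ∑ w : Wire Λ M, (if Vert.mid w 1 = v then y (ew w 1) else 0) +
      ∑ w : Wire Λ M, (if Vert.mid w 2 = v then y (ew w 2) else 0) +
      (∑ a : Λ, (∑ j : Fin (M * 3), (if Vert.copy (a, j) = v then y (ew (tw a j.castSucc) 3) else 0) +
        (if Vert.root = v then y (ew (tw a (Fin.last _)) 3) else 0)) +
      (∑ p : Gate Λ M, (if Vert.conv p = v then y (ew (bw p) 3) else 0) +
        ∑ p : Gate Λ M, if wtgt c (cw p) = v then y (ew (cw p) 3) else 0)) +
      (∑ p : Gate Λ M, (if Vert.half p = v then y (ec p 0) else 0) +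
        ∑ p : Gate Λ M, (if Vert.root = v then y (ec p 1) else 0) +
        (∑ p : Gate Λ M, (if Vert.root = v then y (ev p) else 0) +
          ∑ τ : Fin M, if Vert.root = v then y (et τ) else 0)) := by
  rw [T_eq, Finset.sum_add_distrib, Finset.sum_add_distrib, Finset.sum_add_distrib,
    Finset.sum_add_distrib, sum_wtgt c (fun w => y (ew w 3)) v]

lemma S_eq' (y : Edge Λ M → R) (v : Vert Λ M) : S y v =
    (∑ a : Λ, ((if Vert.root = v then y (ew (tw a 0) 0) else 0) +
        ∑ j : Fin (M * 3), (if Vert.copy (a, j) = v then y (ew (tw a j.succ) 0) else 0)) +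
      (∑ p : Gate Λ M, (if Vert.copy p = v then y (ew (bw p) 0) else 0) +
        ∑ p : Gate Λ M, if Vert.conv p = v then y (ew (cw p) 0) else 0)) +
      ∑ w : Wire Λ M, (if Vert.mid w 0 = v then y (ew w 1) else 0) +
      ∑ w : Wire Λ M, (if Vert.mid w 1 = v then y (ew w 2) else 0) +
      ∑ w : Wire Λ M, (if Vert.mid w 2 = v then y (ew w 3) else 0) +
      (∑ p : Gate Λ M, (if Vert.copy p = v then y (ec p 0) else 0) +
        ∑ p : Gate Λ M, (if Vert.half p = v then y (ec p 1) else 0) +
        (∑ p : Gate Λ M, (if Vert.conv p = v then y (ev p) else 0) +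
          ∑ τ : Fin M, if Vert.con τ = v then y (et τ) else 0)) := by
  rw [S_eq, Finset.sum_add_distrib, Finset.sum_add_distrib, Finset.sum_add_distrib,
    Finset.sum_add_distrib, sum_wsrc (fun w => y (ew w 0)) v]

omit [Fintype Λ] [DecidableEq (Vert Λ M)] in
lemma wtgt_cw (c : Fin M → Wall Λ) (p : Gate Λ M) :
    wtgt c (cw p) = Vert.con (wallOf p.2) ∨ wtgt c (cw p) = Vert.root := by
  by_cases h : vr c p.2 = p.1
  · exact Or.inl (if_pos h)
  · exact Or.inr (if_neg h)

lemma cw_ne (c : Fin M → Wall Λ) (F : Gate Λ M → R) (v : Vert Λ M) (h1 : v ≠ Vert.root)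
    (h2 : ∀ τ, v ≠ Vert.con τ) :
    (∑ p : Gate Λ M, if wtgt c (cw p) = v then F p else 0) = 0 := by
  refine Finset.sum_eq_zero fun p _ => if_neg fun e => ?_
  rcases wtgt_cw c p with h | h
  · exact h2 _ (e.symm.trans h)
  · exact h1 (e.symm.trans h)

lemma T_mid0 (c : Fin M → Wall Λ) (y : Edge Λ M → R) (w : Wire Λ M) :
    T c y (Vert.mid w 0) = y (ew w 0) := by
  classical
  rw [T_eq', cw_ne c _ _ (by simp) (by simp)]
  simp [Vert.mid.injEq]

lemma T_mid1 (c : Fin M → Wall Λ) (y : Edge Λ M → R) (w : Wire Λ M) :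
    T c y (Vert.mid w 1) = y (ew w 1) := by
  classical
  rw [T_eq', cw_ne c _ _ (by simp) (by simp)]
  simp [Vert.mid.injEq]

lemma T_mid2 (c : Fin M → Wall Λ) (y : Edge Λ M → R) (w : Wire Λ M) :
    T c y (Vert.mid w 2) = y (ew w 2) := by
  classical
  rw [T_eq', cw_ne c _ _ (by simp) (by simp)]
  simp [Vert.mid.injEq]

lemma S_mid0 (y : Edge Λ M → R) (w : Wire Λ M) : S y (Vert.mid w 0) = y (ew w 1) := by
  classical
  rw [S_eq']
  simp [Vert.mid.injEq]

lemma S_mid1 (y : Edge Λ M → R) (w : Wire Λ M) : S y (Vert.mid w 1) = y (ew w 2) := by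
  classical
  rw [S_eq']
  simp [Vert.mid.injEq]

lemma S_mid2 (y : Edge Λ M → R) (w : Wire Λ M) : S y (Vert.mid w 2) = y (ew w 3) := by
  classical
  rw [S_eq']
  simp [Vert.mid.injEq]

lemma T_half (c : Fin M → Wall Λ) (y : Edge Λ M → R) (p : Gate Λ M) :
    T c y (Vert.half p) = y (ec p 0) := by
  classical
  rw [T_eq', cw_ne c _ _ (by simp) (by simp)]
  simp [Vert.half.injEq]

lemma S_half (y : Edge Λ M → R) (p : Gate Λ M) : S y (Vert.half p) = y (ec p 1) := by
  classical
  rw [S_eq']
  simp [Vert.half.injEq]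

lemma T_conv (c : Fin M → Wall Λ) (y : Edge Λ M → R) (p : Gate Λ M) :
    T c y (Vert.conv p) = y (ew (bw p) 3) := by
  classical
  rw [T_eq', cw_ne c _ _ (by simp) (by simp)]
  simp [Vert.conv.injEq]

lemma S_conv (y : Edge Λ M → R) (p : Gate Λ M) :
    S y (Vert.conv p) = y (ew (cw p) 0) + y (ev p) := by
  classical
  rw [S_eq']
  simp [Vert.conv.injEq]

lemma T_copy (c : Fin M → Wall Λ) (y : Edge Λ M → R) (a : Λ) (j : Fin (M * 3)) :
    T c y (Vert.copy (a, j)) = y (ew (tw a j.castSucc) 3) := by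
  classical
  rw [T_eq', cw_ne c _ _ (by simp) (by simp)]
  have e : ∀ a' j', (Vert.copy (a', j') : Vert Λ M) = Vert.copy (a, j) ↔ a' = a ∧ j' = j := by
    intro a' j'
    rw [Vert.copy.injEq, Prod.mk.injEq]
  simp only [e]
  rw [Finset.sum_eq_single a]
  · simp
  · intro b _ hb
    simp [hb]
  · simp

lemma S_copy (y : Edge Λ M → R) (a : Λ) (j : Fin (M * 3)) :
    S y (Vert.copy (a, j)) = y (ew (tw a j.succ) 0) + y (ew (bw (a, j)) 0) + y (ec (a, j) 0) := by
  classical
  rw [S_eq']
  have e : ∀ a' j', (Vert.copy (a', j') : Vert Λ M) = Vert.copy (a, j) ↔ a' = a ∧ j' = j := by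
    intro a' j'
    rw [Vert.copy.injEq, Prod.mk.injEq]
  have e2 : ∀ p : Gate Λ M, (Vert.copy p : Vert Λ M) = Vert.copy (a, j) ↔ p = (a, j) := by
    intro p
    rw [Vert.copy.injEq]
  rw [Finset.sum_congr rfl fun p _ => if_congr (e2 p) rfl rfl,
    Finset.sum_congr (s₁ := (Finset.univ : Finset (Gate Λ M))) rfl
      (f := fun p => if Vert.copy p = Vert.copy (a, j) then y (ec p 0) else 0)
      fun p _ => if_congr (e2 p) rfl rfl]
  simp only [e]
  rw [Finset.sum_eq_single a]
  · simp
  · intro b _ hb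
    simp [hb]
  · simp

lemma S_con (y : Edge Λ M → R) (τ : Fin M) : S y (Vert.con τ) = y (et τ) := by
  classical
  rw [S_eq']
  simp [Vert.con.injEq]

lemma T_con (c : Fin M → Wall Λ) (y : Edge Λ M → R) (τ : Fin M) :
    T c y (Vert.con τ) = ∑ i : Fin 3, y (ew (cw (vr c (pos τ i), pos τ i)) 3) := by
  classical
  rw [T_eq']
  have e : (∑ p : Gate Λ M, if wtgt c (cw p) = Vert.con τ then y (ew (cw p) 3) else 0) =
      ∑ i : Fin 3, y (ew (cw (vr c (pos τ i), pos τ i)) 3) := by
    rw [Fintype.sum_prod_type, Finset.sum_comm]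
    have e1 : ∀ j : Fin (M * 3), (∑ a : Λ, if wtgt c (cw (a, j)) = Vert.con τ then
        y (ew (cw (a, j)) 3) else 0) = if wallOf j = τ then y (ew (cw (vr c j, j)) 3) else 0 := by
      intro j
      rw [Finset.sum_eq_single (vr c j)]
      · have e2 : wtgt c (cw (vr c j, j)) = Vert.con (wallOf j) := if_pos rfl
        rw [e2]
        exact if_congr (by rw [Vert.con.injEq]) rfl rfl
      · intro b _ hb
        refine if_neg fun h => ?_
        have e2 : wtgt c (cw (b, j)) = Vert.root := if_neg (fun h' => hb h'.symm)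
        rw [e2] at h
        exact absurd h (by simp)
      · simp
    rw [Finset.sum_congr rfl fun j _ => e1 j, ← finProdFinEquiv.sum_comp, Fintype.sum_prod_type]
    rw [Finset.sum_eq_single τ]
    · refine Finset.sum_congr rfl fun i _ => ?_
      rw [if_pos]
      simp [wallOf]
    · intro b _ hb
      refine Finset.sum_eq_zero fun i _ => if_neg ?_
      simp [wallOf, hb]
    · simp
  rw [e]
  simp

end FlowC

open FlowC

lemma flow_aux {R : Type} [CommRing R] {Λ : Type} [Fintype Λ] {M : ℕ} [DecidableEq (Vert Λ M)]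
    [Fintype (Vert Λ M)] (c : Fin M → Wall Λ) (y : Edge Λ M → R) :
    (∀ v, T c y v = S y v) ↔ y = flow c (fun w => y (ew w 0)) := by
  constructor
  · intro h
    have h0 : ∀ w, y (ew w 0) = y (ew w 1) := fun w => by
      rw [← T_mid0 c y, h, S_mid0]
    have h1 : ∀ w, y (ew w 1) = y (ew w 2) := fun w => by
      rw [← T_mid1 c y, h, S_mid1]
    have h2 : ∀ w, y (ew w 2) = y (ew w 3) := fun w => by
      rw [← T_mid2 c y, h, S_mid2]
    have hc : ∀ a j, y (ew (tw a j.castSucc) 3) = y (ew (tw a j.succ) 0) + y (ew (bw (a, j)) 0) +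
        y (ec (a, j) 0) := fun a j => by
      rw [← T_copy c y, h, S_copy]
    have hh : ∀ p, y (ec p 0) = y (ec p 1) := fun p => by
      rw [← T_half c y, h, S_half]
    have hv : ∀ p, y (ew (bw p) 3) = y (ew (cw p) 0) + y (ev p) := fun p => by
      rw [← T_conv c y, h, S_conv]
    have hn : ∀ τ, ∑ i : Fin 3, y (ew (cw (vr c (pos τ i), pos τ i)) 3) = y (et τ) := fun τ => by
      rw [← T_con c y, h, S_con]
    funext e
    rcases e with ⟨w, i⟩ | ⟨p, i⟩ | p | τ
    · change y (ew w i) = y (ew w 0)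
      fin_cases i
      · rfl
      · exact (h0 w).symm
      · exact ((h0 w).trans (h1 w)).symm
      · exact (((h0 w).trans (h1 w)).trans (h2 w)).symm
    · have e1 : y (ec p 0) = y (ew (tw p.1 p.2.castSucc) 0) - y (ew (tw p.1 p.2.succ) 0) -
          y (ew (bw p) 0) := by
        have := hc p.1 p.2
        rw [h0, h1, h2, this]
        ring
      change y (ec p i) = y (ew (tw p.1 p.2.castSucc) 0) - y (ew (tw p.1 p.2.succ) 0) -
          y (ew (bw p) 0)
      fin_cases i
      · exact e1
      · exact (hh p).symm.trans e1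
    · change y (ev p) = y (ew (bw p) 0) - y (ew (cw p) 0)
      rw [h0 (bw p), h1 (bw p), h2 (bw p), hv p]
      ring
    · change y (et τ) = ∑ i : Fin 3, y (ew (cw (vr c (pos τ i), pos τ i)) 0)
      rw [← hn τ]
      exact Finset.sum_congr rfl fun i _ => by rw [h0, h1, h2]
  · intro h
    obtain ⟨x, hx⟩ : ∃ x : Wire Λ M → R, x = fun w => y (ew w 0) := ⟨_, rfl⟩
    rw [← hx] at h
    have hne : ∀ v : Vert Λ M, v ≠ Vert.root → T c y v = S y v := by
      intro v hv
      rw [h]
      cases v with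
      | root => exact absurd rfl hv
      | mid w i =>
        fin_cases i
        · exact (T_mid0 c (flow c x) w).trans (S_mid0 (flow c x) w).symm
        · exact (T_mid1 c (flow c x) w).trans (S_mid1 (flow c x) w).symm
        · exact (T_mid2 c (flow c x) w).trans (S_mid2 (flow c x) w).symm
      | copy p =>
        obtain ⟨a, j⟩ := p
        rw [T_copy, S_copy]
        change x _ = x _ + x _ + (x _ - x _ - x _)
        ring
      | half p => rw [T_half, S_half]; rfl
      | conv p =>
        rw [T_conv, S_conv]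
        change x _ = x _ + (x _ - x _)
        ring
      | con τ => rw [T_con, S_con]; rfl
    have hT : ∑ v, T c y v = ∑ e, y e := by
      unfold T
      rw [Finset.sum_comm]
      simp
    have hS : ∑ v : Vert Λ M, S y v = ∑ e, y e := by
      unfold S
      rw [Finset.sum_comm]
      simp
    intro v
    by_cases hv : v = Vert.root
    · rw [← Finset.add_sum_erase _ _ (Finset.mem_univ (Vert.root : Vert Λ M))] at hT hS
      have e : ∑ v ∈ Finset.univ.erase (Vert.root : Vert Λ M), T c y v =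
          ∑ v ∈ Finset.univ.erase (Vert.root : Vert Λ M), S y v :=
        Finset.sum_congr rfl fun v hv => hne v (Finset.ne_of_mem_erase hv)
      rw [e] at hT
      rw [hv]
      exact add_right_cancel (hT.trans hS.symm)
    · exact hne v hv

theorem p_flowc : S_flowc := by
  intro R _ Λ _ M _ c y
  let _ : Fintype (Vert Λ M) := Fintype.ofFinite _
  let _ : DecidableEq (Vert Λ M) := Classical.decEq _
  exact flow_aux c y

end

end Pool.Agent.Lib.MP_ae0f86_nt.F
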