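import Pool.Agent.Lib.MP_ae0f86_nt.F.Stm
import Mathlib

/-!
# MP_ae0f86_nt, project FEYNMAN, piece gateq: the denominators of the copy gates and converters
-/

open CategoryTheory CategoryTheory.Limits MvPolynomial Opposite MonoidalCategory

universe v u

namespace Pool.Agent.Lib.MP_ae0f86_nt.F

noncomputable section

variable {k : Type} [Field k] [CharZero k] {Λ : Type} [Fintype Λ] {M : ℕ}

private theorem gateq_eval (f : Bool) (c : Fin M → Wall Λ) (e : Edge Λ M) (x : Wire Λ M → k) :
    eval x (bind₁ (linePoly k c) (wden k f c e)) =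
      sq (fun j => flow c (fun w => (dir c w j : k) * x w) e + (shift f c e j : k)) := by
  have h1 : ∀ (j : Fin 4), eval x (bind₁ (linePoly k c) (flowPoly k c (e, j))) =
      flow c (fun w => (dir c w j : k) * x w) e := by
    intro j
    unfold flowPoly
    obtain ⟨φ, hφ⟩ : ∃ φ : MvPolynomial (Wire Λ M × Fin 4) k →+* k,
        φ = (eval x).comp (bind₁ (linePoly k c)).toRingHom := ⟨_, rfl⟩
    have h2 : ∀ p, eval x (bind₁ (linePoly k c) p) = φ p := fun p => by rw [hφ]; rfl
    have h3 : ∀ w, φ (MvPolynomial.X (w, j)) = (dir c w j : k) * x w := by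
      intro w
      rw [← h2, bind₁_X_right]
      simp [linePoly]
    rw [h2]
    rcases e with ⟨w, i⟩ | ⟨p, i⟩ | p | τ
    · exact h3 w
    · show φ (MvPolynomial.X _ - MvPolynomial.X _ - MvPolynomial.X _) = _
      rw [map_sub, map_sub, h3, h3, h3]
      rfl
    · show φ (MvPolynomial.X _ - MvPolynomial.X _) = _
      rw [map_sub, h3, h3]
      rfl
    · show φ (∑ i : Fin 3, MvPolynomial.X _) = ∑ i : Fin 3, _
      rw [map_sum]
      exact Finset.sum_congr rfl fun i _ => h3 _
  unfold wden Feynman.den
  obtain ⟨φ, hφ⟩ : ∃ φ : MvPolynomial (Edge Λ M × Fin 4) k →+* k,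
      φ = ((eval x).comp (bind₁ (linePoly k c)).toRingHom).comp
        (bind₁ (flowPoly k c)).toRingHom := ⟨_, rfl⟩
  have h2 : ∀ p, eval x (bind₁ (linePoly k c) (bind₁ (flowPoly k c) p)) = φ p :=
    fun p => by rw [hφ]; rfl
  have h3 : ∀ j, φ (MvPolynomial.X (e, j)) =
      flow c (fun w => (dir c w j : k) * x w) e := by
    intro j
    rw [← h2, bind₁_X_right]
    exact h1 j
  have h4 : ∀ q : k, φ (MvPolynomial.C q) = q := by
    intro q
    rw [← h2, bind₁_C_right, bind₁_C_right, eval_C]
  have h5 : φ (sq (fun j => (MvPolynomial.X (e, j) +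
      MvPolynomial.C (shift f c e j : k) : MvPolynomial (Edge Λ M × Fin 4) k))) =
      sq (fun j => flow c (fun w => (dir c w j : k) * x w) e + (shift f c e j : k)) := by
    simp only [sq, map_add, map_mul]
    rw [h3, h3, h3, h3, h4, h4, h4, h4]
  exact (h2 _).trans h5

private theorem gateq_0 (f : Bool) (c : Fin M → Wall Λ) (p : Gate Λ M) :
    bind₁ (linePoly k c) (wden k f c (ec p 0)) = gatePoly k p 0 := by
  have : Infinite k := CharZero.infinite k
  apply MvPolynomial.funext
  intro x
  rw [gateq_eval]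
  obtain ⟨a, j⟩ := p
  simp [sq, flow, dir, shift, gatePoly]

private theorem gateq_1 (f : Bool) (c : Fin M → Wall Λ) (p : Gate Λ M) :
    bind₁ (linePoly k c) (wden k f c (ec p 1)) = gatePoly k p 1 := by
  have : Infinite k := CharZero.infinite k
  apply MvPolynomial.funext
  intro x
  rw [gateq_eval]
  obtain ⟨a, j⟩ := p
  simp [sq, flow, dir, shift, gatePoly]
  ring

private theorem gateq_2 (f : Bool) (c : Fin M → Wall Λ) (p : Gate Λ M) :
    bind₁ (linePoly k c) (wden k f c (ev p)) = gatePoly k p 2 := by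
  have : Infinite k := CharZero.infinite k
  apply MvPolynomial.funext
  intro x
  rw [gateq_eval]
  obtain ⟨a, j⟩ := p
  by_cases h0 : kind c j = 0
  · simp [sq, flow, dir, shift, gatePoly, h0]
    try ring
  · by_cases h1 : kind c j = 1
    · simp [sq, flow, dir, shift, gatePoly, h1]
      try ring
    · simp [sq, flow, dir, shift, gatePoly, h0, h1]
      try ring

theorem p_gateq : S_gateq := by
  intro k _ _ Λ _ M f c
  unfold gateEdges gateList
  rw [List.map_flatMap, List.map_flatMap]
  refine List.flatMap_congr fun a _ => ?_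
  rw [List.map_flatMap, List.map_flatMap]
  refine List.flatMap_congr fun j _ => ?_
  simp only [List.map_cons, List.map_nil]
  rw [gateq_0, gateq_1, gateq_2]

end

end Pool.Agent.Lib.MP_ae0f86_nt.F
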