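import Pool.Agent.Lib.MP_ae0f86_nt.F.Stm
import Mathlib

/-!
# MP_ae0f86_nt, project FEYNMAN, piece gchain: the gate equations on `k^Wire`
-/

set_option autoImplicit false

open CategoryTheory CategoryTheory.Limits MvPolynomial Opposite MonoidalCategory

universe v u

namespace Pool.Agent.Lib.MP_ae0f86_nt.F

noncomputable section

section Gates

variable {k : Type} [Field k] {Λ : Type} {M : ℕ}

private theorem gchain_p0 (p : Gate Λ M) : gatePoly k p 0 =
    MvPolynomial.X (tw p.1 p.2.castSucc) - MvPolynomial.X (tw p.1 p.2.succ) := rfl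

private theorem gchain_p1 (p : Gate Λ M) : gatePoly k p 1 =
    MvPolynomial.C (-((p.2 : ℕ) : k)) * MvPolynomial.X (tw p.1 p.2.castSucc) +
      MvPolynomial.C (((p.2 : ℕ) : k) + 1) * MvPolynomial.X (tw p.1 p.2.succ) -
        MvPolynomial.X (bw p) := rfl

private theorem gchain_p2 (p : Gate Λ M) : gatePoly k p 2 =
    MvPolynomial.X (bw p) - MvPolynomial.X (cw p) := rfl

private theorem gchain_d0 (i : Wire Λ M) (p : Gate Λ M) (h1 : tw p.1 p.2.castSucc ≠ i)
    (h2 : tw p.1 p.2.succ ≠ i) : pderiv i (gatePoly k p 0) = 0 := by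
  rw [gchain_p0, map_sub, pderiv_X_of_ne h1, pderiv_X_of_ne h2, sub_self]

private theorem gchain_d1 (i : Wire Λ M) (p : Gate Λ M) (h1 : tw p.1 p.2.castSucc ≠ i)
    (h2 : tw p.1 p.2.succ ≠ i) (h3 : bw p ≠ i) : pderiv i (gatePoly k p 1) = 0 := by
  rw [gchain_p1, map_sub, map_add, pderiv_C_mul, pderiv_C_mul, pderiv_X_of_ne h1,
    pderiv_X_of_ne h2, pderiv_X_of_ne h3, mul_zero, mul_zero, add_zero, sub_self]

private theorem gchain_d2 (i : Wire Λ M) (p : Gate Λ M) (h3 : bw p ≠ i) (h4 : cw p ≠ i) :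
    pderiv i (gatePoly k p 2) = 0 := by
  rw [gchain_p2, map_sub, pderiv_X_of_ne h3, pderiv_X_of_ne h4, sub_self]

/-- the private variable -/
private def gchain_pv (q : Gate Λ M × Fin 3) : Wire Λ M :=
  if q.2 = 0 then tw q.1.1 q.1.2.succ else if q.2 = 1 then bw q.1 else cw q.1

private theorem gchain_ne (x : Wire Λ M → k) (q : Gate Λ M × Fin 3) :
    eval x (pderiv (gchain_pv q) (gatePoly k q.1 q.2)) ≠ 0 := by
  obtain ⟨p, m⟩ := q
  have h0 : tw p.1 p.2.castSucc ≠ (tw p.1 p.2.succ : Wire Λ M) := by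
    intro h
    have h1 := congrArg Prod.snd (Sum.inl.inj h)
    have h2 := congrArg Fin.val h1
    simp at h2
  fin_cases m
  · show eval x (pderiv (tw p.1 p.2.succ) (gatePoly k p 0)) ≠ 0
    rw [gchain_p0, map_sub, pderiv_X_of_ne h0, pderiv_X_self]
    simp
  · show eval x (pderiv (bw p) (gatePoly k p 1)) ≠ 0
    rw [gchain_p1, map_sub, map_add, pderiv_C_mul, pderiv_C_mul,
      pderiv_X_of_ne (by simp), pderiv_X_of_ne (by simp), pderiv_X_self]
    simp
  · show eval x (pderiv (cw p) (gatePoly k p 2)) ≠ 0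
    rw [gchain_p2, map_sub, pderiv_X_of_ne (by simp), pderiv_X_self]
    simp

/-- the relation between an earlier and a later member of the list -/
private def gchain_R (k : Type) [Field k] (q' q : Gate Λ M × Fin 3) : Prop :=
  pderiv (gchain_pv q) (gatePoly k q'.1 q'.2) = 0

private theorem gchain_R1 (p p' : Gate Λ M) (h : p'.1 ≠ p.1 ∨ (p'.1 = p.1 ∧ p'.2 < p.2))
    (m m' : Fin 3) : gchain_R k (p', m') (p, m) := by
  obtain ⟨a, j⟩ := p
  obtain ⟨a', j'⟩ := p'
  have e1 : (tw a' j'.castSucc : Wire Λ M) ≠ tw a j.succ := by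
    intro e
    have e1 := Sum.inl.inj e
    rcases h with h | ⟨_, h⟩
    · exact h (Prod.mk.inj e1).1
    · have e2 := congrArg Fin.val (Prod.mk.inj e1).2
      have h2 : (j' : ℕ) < j := h
      simp at e2
      omega
  have e2 : (tw a' j'.succ : Wire Λ M) ≠ tw a j.succ := by
    intro e
    have e1 := Sum.inl.inj e
    rcases h with h | ⟨_, h⟩
    · exact h (Prod.mk.inj e1).1
    · have e2 := congrArg Fin.val (Prod.mk.inj e1).2
      have h2 : (j' : ℕ) < j := h
      simp at e2
      omega
  have e0 : ((a', j') : Gate Λ M) ≠ (a, j) := by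
    intro e
    rcases h with h | ⟨_, h⟩
    · exact h (congrArg Prod.fst e)
    · exact (ne_of_lt h) (congrArg Prod.snd e)
  have e3 : (bw (a', j') : Wire Λ M) ≠ bw (a, j) := fun e => e0 (Sum.inl.inj (Sum.inr.inj e))
  have e4 : (cw (a', j') : Wire Λ M) ≠ cw (a, j) := fun e => e0 (Sum.inr.inj (Sum.inr.inj e))
  unfold gchain_R
  have key : ∀ i : Wire Λ M, tw a' j'.castSucc ≠ i → tw a' j'.succ ≠ i → bw (a', j') ≠ i →
      cw (a', j') ≠ i → pderiv i (gatePoly k (a', j') m') = 0 := by
    intro i i1 i2 i3 i4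
    fin_cases m'
    · exact gchain_d0 i _ i1 i2
    · exact gchain_d1 i _ i1 i2 i3
    · exact gchain_d2 i _ i3 i4
  fin_cases m
  · exact key (tw a j.succ) e1 e2 (by simp) (by simp)
  · exact key (bw (a, j)) (by simp) (by simp) e3 (by simp)
  · exact key (cw (a, j)) (by simp) (by simp) (by simp) e4

private theorem gchain_R2 (p : Gate Λ M) :
    List.Pairwise (gchain_R k) [(p, (0 : Fin 3)), (p, 1), (p, 2)] := by
  have h1 : gchain_R k (p, (0 : Fin 3)) (p, 1) := by
    show pderiv (bw p) (gatePoly k p 0) = 0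
    exact gchain_d0 _ _ (by simp) (by simp)
  have h2 : gchain_R k (p, (0 : Fin 3)) (p, 2) := by
    show pderiv (cw p) (gatePoly k p 0) = 0
    exact gchain_d0 _ _ (by simp) (by simp)
  have h3 : gchain_R k (p, (1 : Fin 3)) (p, 2) := by
    show pderiv (cw p) (gatePoly k p 1) = 0
    exact gchain_d1 _ _ (by simp) (by simp) (by simp)
  rw [List.pairwise_cons, List.pairwise_cons]
  refine ⟨?_, ?_, List.pairwise_singleton _ _⟩
  · intro q hq
    rw [List.mem_cons, List.mem_singleton] at hq
    rcases hq with rfl | rfl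
    · exact h1
    · exact h2
  · intro q hq
    rw [List.mem_singleton] at hq
    rw [hq]
    exact h3

end Gates

section Lists

variable (Λ : Type) [Fintype Λ] (M : ℕ)

/-- the list of the indices -/
private def gchain_L : List (Gate Λ M × Fin 3) :=
  (Finset.univ.toList : List Λ).flatMap fun a =>
    (List.finRange (M * 3)).flatMap fun j =>
      [(((a, j) : Gate Λ M), (0 : Fin 3)), ((a, j), 1), ((a, j), 2)]

private theorem gchain_map (k : Type) [Field k] :
    gateList k Λ M = (gchain_L Λ M).map fun q => gatePoly k q.1 q.2 := by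
  unfold gateList gchain_L
  simp only [List.map_flatMap, List.map_cons, List.map_nil]

private theorem gchain_mem (q : Gate Λ M × Fin 3) : q ∈ gchain_L Λ M := by
  obtain ⟨⟨a, j⟩, m⟩ := q
  unfold gchain_L
  rw [List.mem_flatMap]
  refine ⟨a, Finset.mem_toList.2 (Finset.mem_univ a), ?_⟩
  rw [List.mem_flatMap]
  refine ⟨j, List.mem_finRange j, ?_⟩
  fin_cases m <;> simp

omit [Fintype Λ] in
private theorem gchain_three (b : Λ) (j : Fin (M * 3)) (r : Gate Λ M × Fin 3)
    (hr : r ∈ [(((b, j) : Gate Λ M), (0 : Fin 3)), ((b, j), 1), ((b, j), 2)]) :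
    ∃ m, r = (((b, j) : Gate Λ M), m) := by
  rcases List.mem_cons.1 hr with h | h
  · exact ⟨0, h⟩
  rcases List.mem_cons.1 h with h | h
  · exact ⟨1, h⟩
  rcases List.mem_cons.1 h with h | h
  · exact ⟨2, h⟩
  · exact absurd h List.not_mem_nil

omit [Fintype Λ] in
private theorem gchain_inner (b : Λ) (r : Gate Λ M × Fin 3)
    (hr : r ∈ ((List.finRange (M * 3)).flatMap fun j =>
      [(((b, j) : Gate Λ M), (0 : Fin 3)), ((b, j), 1), ((b, j), 2)])) :
    ∃ j m, r = (((b, j) : Gate Λ M), m) := by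
  obtain ⟨j, _, hj⟩ := List.mem_flatMap.1 hr
  obtain ⟨m, hm⟩ := gchain_three Λ M b j r hj
  exact ⟨j, m, hm⟩

omit [Fintype Λ] in
private theorem gchain_pair_in (k : Type) [Field k] (a : Λ) :
    ((List.finRange (M * 3)).flatMap fun j =>
      [(((a, j) : Gate Λ M), (0 : Fin 3)), ((a, j), 1), ((a, j), 2)]).Pairwise
        (gchain_R k) := by
  rw [List.pairwise_flatMap]
  constructor
  · intro j _
    exact gchain_R2 (a, j)
  · refine (List.pairwise_lt_finRange (M * 3)).imp ?_
    intro j j' hjj q hq q' hq'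
    obtain ⟨m, h1⟩ := gchain_three Λ M a j q hq
    obtain ⟨m', h2⟩ := gchain_three Λ M a j' q' hq'
    rw [h1, h2]
    exact gchain_R1 (a, j') (a, j) (Or.inr ⟨rfl, hjj⟩) m' m

private theorem gchain_pair (k : Type) [Field k] :
    (gchain_L Λ M).Pairwise (gchain_R k) := by
  unfold gchain_L
  rw [List.pairwise_flatMap]
  constructor
  · intro a _
    exact gchain_pair_in Λ M k a
  · refine (Finset.nodup_toList (Finset.univ : Finset Λ)).imp ?_
    intro a a' haa q hq q' hq'
    obtain ⟨j, m, h1⟩ := gchain_inner Λ M a q hq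
    obtain ⟨j', m', h2⟩ := gchain_inner Λ M a' q' hq'
    rw [h1, h2]
    exact gchain_R1 (a', j') (a, j) (Or.inl haa) m' m

end Lists

theorem p_gchain (pv : S_pv) : S_gchain := by
  intro k _ Λ _ M
  constructor
  · apply pv
    intro acc t rest h
    rw [gchain_map, List.map_eq_append_iff] at h
    obtain ⟨L1, L2, hL, h1, h2⟩ := h
    rw [List.map_eq_cons_iff] at h2
    obtain ⟨q, L3, hL2, h3, _⟩ := h2
    have hp := gchain_pair Λ M k
    rw [hL, hL2, List.pairwise_append] at hp
    refine ⟨gchain_pv q, ?_, ?_⟩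
    · intro f hf
      rw [← h1, List.mem_map] at hf
      obtain ⟨q', hq', rfl⟩ := hf
      exact hp.2.2 q' hq' q List.mem_cons_self
    · intro x _ _
      rw [← h3]
      exact gchain_ne x q
  · intro x
    have hzs : x ∈ zs (gateList k Λ M) ↔ ∀ (p : Gate Λ M) (m : Fin 3),
        eval x (gatePoly k p m) = 0 := by
      constructor
      · intro h p m
        apply h
        rw [gchain_map, List.mem_map]
        exact ⟨(p, m), gchain_mem Λ M (p, m), rfl⟩
      · intro h f hf
        rw [gchain_map, List.mem_map] at hf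
        obtain ⟨q, _, rfl⟩ := hf
        exact h q.1 q.2
    have e0 : ∀ p : Gate Λ M, eval x (gatePoly k p 0) =
        x (tw p.1 p.2.castSucc) - x (tw p.1 p.2.succ) := by
      intro p
      rw [gchain_p0, map_sub, eval_X, eval_X]
    have e1 : ∀ p : Gate Λ M, eval x (gatePoly k p 1) =
        -((p.2 : ℕ) : k) * x (tw p.1 p.2.castSucc) + (((p.2 : ℕ) : k) + 1) *
          x (tw p.1 p.2.succ) - x (bw p) := by
      intro p
      rw [gchain_p1, map_sub, map_add, map_mul, map_mul, eval_C, eval_C, eval_X, eval_X, eval_X]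
    have e2 : ∀ p : Gate Λ M, eval x (gatePoly k p 2) = x (bw p) - x (cw p) := by
      intro p
      rw [gchain_p2, map_sub, eval_X, eval_X]
    rw [hzs]
    constructor
    · intro h
      have ht : ∀ (a : Λ) (j : Fin (M * 3 + 1)), x (tw a j) = x (tw a 0) := by
        intro a j
        induction j using Fin.induction with
        | zero => rfl
        | succ i ih =>
          have h1 := h (a, i) 0
          rw [e0] at h1
          rw [← ih]
          exact (sub_eq_zero.1 h1).symm
      have hb : ∀ p : Gate Λ M, x (bw p) = x (tw p.1 0) := by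
        intro p
        have h1 := h p 1
        rw [e1, ht p.1 p.2.castSucc, ht p.1 p.2.succ] at h1
        linear_combination -h1
      refine ⟨fun a => x (tw a 0), ?_⟩
      intro w
      rcases w with ⟨a, j⟩ | p | p
      · exact ht a j
      · exact hb p
      · have h1 := h p 2
        rw [e2, hb] at h1
        exact (sub_eq_zero.1 h1).symm
    · rintro ⟨y, hy⟩ p m
      fin_cases m
      · show eval x (gatePoly k p 0) = 0
        rw [e0, hy, hy]
        exact sub_self _
      · show eval x (gatePoly k p 1) = 0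
        rw [e1, hy, hy, hy]
        show -((p.2 : ℕ) : k) * y p.1 + (((p.2 : ℕ) : k) + 1) * y p.1 - y p.1 = 0
        ring
      · show eval x (gatePoly k p 2) = 0
        rw [e2, hy, hy]
        exact sub_self _

end

end Pool.Agent.Lib.MP_ae0f86_nt.F
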