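import Pool.Agent.Lib.MP_ae0f86_nt.F.Stm

/-!
# MP_ae0f86_nt, project FEYNMAN: the piece `geo`
-/

open CategoryTheory CategoryTheory.Limits MvPolynomial Opposite MonoidalCategory

universe v u

namespace Pool.Agent.Lib.MP_ae0f86_nt.F

noncomputable section

attribute [local instance] CategoryTheory.Abelian.hasFiniteBiproducts

private theorem abs_congr {k : Type} [Field k] {ι : Type} [Finite ι] {X X' : Set (ι → k)}
    (h : X = X') (hX : IsAlg X) (hX' : IsAlg X') :
    Nonempty (AffPair.abs hX ≅ AffPair.abs hX') := by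
  subst h; exact ⟨CategoryTheory.Iso.refl _⟩

private theorem wall_us {k : Type} [Field k] {n : ℕ} (S : List (Wall (Fin n))) :
    us ([] : List (MvPolynomial (Fin n) k)) ((wl k S).prod * 1) = wallSet k S.get := by
  have h : ∀ z : Fin n → k, eval z (wl k S).prod = ∏ a, eval z ((S.get a).poly k) := by
    intro z
    have h1 : wl k S = List.ofFn fun a => (S.get a).poly k := by
      conv_lhs => rw [wl, ← List.ofFn_get S]
      rw [List.map_ofFn]
      rfl
    rw [h1, List.prod_ofFn, map_prod]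
  rw [mul_one]
  ext z
  simp only [us, wallSet, Set.mem_ofPred_eq, h]
  exact ⟨fun h => h.2, fun h => ⟨fun f hf => (List.not_mem_nil hf).elim, h⟩⟩

/-- `us l 1` and `zs l` are isomorphic. -/
private theorem us_one {k : Type} [Field k] {ι : Type} [Finite ι] (l : List (MvPolynomial ι k)) :
    Nonempty (AffPair.abs (zs_alg l) ≅ AffPair.abs (us_alg l 1)) := by
  have h1 : ∀ z ∈ us l (1 : MvPolynomial ι k), z (Sum.inr ()) = 1 := by
    rintro z ⟨-, h⟩
    rwa [map_one, mul_one] at h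
  let f : AffPair.abs (zs_alg l) ⟶ AffPair.abs (us_alg l 1) :=
    ⟨fun x => ⟨fun p => p.elim x.1 fun _ => 1, ⟨x.2, by rw [map_one, mul_one]; rfl⟩⟩,
      ⟨fun p => p.elim MvPolynomial.X fun _ => 1, fun x p => by cases p <;> simp⟩,
      fun _ hx => hx⟩
  let g : AffPair.abs (us_alg l 1) ⟶ AffPair.abs (zs_alg l) :=
    ⟨fun x => ⟨x.1 ∘ Sum.inl, x.2.1⟩,
      ⟨fun p => MvPolynomial.X (Sum.inl p), fun x p => by simp⟩, fun _ hx => hx⟩
  refine ⟨⟨f, g, AffPair.hom_ext _ _ fun x => ?_, AffPair.hom_ext _ _ fun y => ?_⟩⟩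
  · rfl
  · funext p
    rcases p with p | p
    · rfl
    · exact (h1 y.1 y.2).symm

section

variable {A : Type u} [Category.{v} A] [Abelian A] [MonoidalCategory A]
  [MonoidalPreadditive A] [SymmetricCategory A]

omit [MonoidalPreadditive A] in
/-- [FY geo] -/
theorem p_geo (T : CohTheoryL QBar A) (geo1 : S_geo1 T.toCohTheory) (hyp : S_hyp) (lef : S_lef T)
    (prog : S_prog) (reidx : S_reidx) (gr : S_gr) (rl : S_rl T) (ci : S_ci) (reg : S_reg)
    (subq : S_subq A) (twist : S_twist T.toCohTheory) (tm : S_tensmono T.toCohTheory) :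
    S_geo T := by
  intro N
  obtain ⟨trans, -, sqIso, sqMono, sqEpi, -⟩ := subq
  obtain ⟨tw1, -, -⟩ := twist
  -- tensoring subquotients
  have tens : ∀ (X Y : A) (n : ℕ), IsSubquot X Y →
      IsSubquot (X ⊗ tpow T.L n) (Y ⊗ tpow T.L n) := by
    rintro X Y n ⟨X', j, p, hj, hp⟩
    exact ⟨X' ⊗ tpow T.L n, j ▷ tpow T.L n, p ▷ tpow T.L n, (tm j n).1 hj, (tm p n).2 hp⟩
  -- isomorphic pairs
  have hiso : ∀ (i : ℤ) (M : A) {X Y : AffPair QBar}, Nonempty (X ≅ Y) →
      IsSubquot M ((T.h i).obj (op X)) → IsSubquot M ((T.h i).obj (op Y)) := by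
    rintro i M X Y ⟨e⟩ h
    exact trans _ _ _ h (sqIso _ _ ((T.h i).mapIso e.symm.op))
  have hdeg : ∀ (i j : ℤ) (M : A) {X : AffPair QBar}, i = j →
      IsSubquot M ((T.h i).obj (op X)) → IsSubquot M ((T.h j).obj (op X)) := by
    rintro i j M X rfl h
    exact h
  -- the residue lemma
  have res : ∀ (e : ℕ) {ι : Type} [Finite ι] (l : List (MvPolynomial ι QBar))
      (g : MvPolynomial ι QBar) (i : ℤ), RChain l g → (Nat.card ι : ℤ) - l.length = i →
      IsSubquot (N ⊗ tpow T.L e) ((T.h i).obj (op (AffPair.abs (us_alg l g)))) →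
      ∃ e' : ℕ, IsSubquot (N ⊗ tpow T.L e')
        ((T.h (Nat.card ι)).obj (op (AffPair.abs (us_alg [] (l.prod * g))))) := by
    rintro e ι _ l g i hl rfl h
    obtain ⟨f, hf⟩ := rl l g hl
    refine ⟨e + l.length, trans _ _ _ (sqIso _ _ (tw1 N e l.length).some.symm)
      (trans _ _ _ (tens _ _ l.length h) (sqEpi _ _ f hf))⟩
  obtain ⟨e, n, r, q, i, -, hN⟩ := geo1 N
  obtain ⟨F, hF, hc⟩ := hyp (k := QBar) q
  -- it is a subquotient of the cohomology of `zs [F]`
  have hN2 : IsSubquot (N ⊗ tpow T.L e)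
      ((T.h i).obj (op (AffPair.abs (zs_alg (zl' QBar [F]))))) :=
    hiso i _ (abs_congr hF _ _) hN
  rcases lt_or_ge ((Nat.card (Fin n ⊕ Fin r) : ℤ) - (zl' QBar [F]).length) i with hi | hi
  · -- everything is zero
    have hz := T.artin i (zl' QBar [F]) (ci.1 _ hc) hi
    have h0 : IsZero (N ⊗ tpow T.L e) := by
      obtain ⟨N', j, p, hj, hp⟩ := hN2
      have h1 : IsZero N' := IsZero.of_mono j hz
      exact IsZero.of_epi p h1
    have hall : ∀ X : A, IsSubquot (N ⊗ tpow T.L e) X := fun X =>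
      sqMono _ _ (0 : N ⊗ tpow T.L e ⟶ X) ⟨fun g h _ => h0.eq_of_tgt g h⟩
    obtain ⟨-, G, hG, -⟩ := gr (k := QBar) (Λ := Empty) []
    exact ⟨⟨e, G, hG, hall _⟩, ⟨e, 0, 0, fun a => a.elim0, hall _⟩⟩
  · obtain ⟨m, hm1, hm2, f, hf⟩ := lef (zl' QBar [F]) i hc hi
    have hp : zl' QBar ([F] ++ m) = zl' QBar [F] ++ zl' QBar m := List.map_append
    obtain ⟨κ, hκ, S, hS1, hS2, hS3⟩ := prog (k := QBar) ([F] ++ m)
    have hS : Chain (wl QBar S) := hS3 (by rw [hp]; exact hm1)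
    have hN3 : IsSubquot (N ⊗ tpow T.L e)
        ((T.h i).obj (op (AffPair.abs (zs_alg (wl QBar S))))) := by
      refine hiso i _ hS2 (hiso i _ (abs_congr (congrArg zs hp.symm) (zs_alg _) (zs_alg _)) ?_)
      exact trans _ _ _ hN2 (sqMono _ _ f hf)
    have hdim : (Nat.card ((Fin n ⊕ Fin r) ⊕ κ) : ℤ) - S.length = i := by
      rw [← hm2, ← hp, hS1]
      simp only [Nat.card_sum, zl', List.length_map]
      push_cast
      ring
    constructor
    · obtain ⟨G, ι, hι, l, g, hG, hl, hl1, hl2, hl3, hl4⟩ := (gr (k := QBar) S).1 hS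
      obtain ⟨i4⟩ := hl4
      obtain ⟨i3⟩ := hl3
      obtain ⟨e', he'⟩ := res e l g i hl (by rw [hl2, hdim]) (hiso i _ ⟨i4.symm⟩ hN3)
      refine ⟨e', G, hG, hiso _ _ ⟨i3.symm⟩ (hdeg _ _ _ ?_ he')⟩
      rw [hl1]; push_cast; rfl
    · obtain ⟨hR1, hR2⟩ := reidx (k := QBar) (Finite.equivFin ((Fin n ⊕ Fin r) ⊕ κ)) S
      obtain ⟨e', he'⟩ := res e _ 1 i ((reg _).2 (hR2 hS)) (by
        rw [← hdim, wl, List.length_map, List.length_map, Nat.card_eq_fintype_card (α := Fin _),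
          Fintype.card_fin]) (hiso i _ (us_one _) (hiso i _ hR1 hN3))
      refine ⟨e', _, _, _, hiso _ _ (abs_congr (wall_us _) _ _) (hdeg _ _ _ ?_ he')⟩
      rw [Nat.card_eq_fintype_card (α := Fin _), Fintype.card_fin]

end

end

end Pool.Agent.Lib.MP_ae0f86_nt.F
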