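import Pool.Agent.Lib.MP_ae0f86_nt.F.Stm

/-!
# MP_ae0f86_nt, project FEYNMAN: the piece `geoc` (the geometric theorem for maximal cuts)
-/

open CategoryTheory CategoryTheory.Limits MvPolynomial Opposite MonoidalCategory

universe v u

namespace Pool.Agent.Lib.MP_ae0f86_nt.F

noncomputable section

attribute [local instance] CategoryTheory.Abelian.hasFiniteBiproducts

variable {A : Type u} [Category.{v} A] [Abelian A] [MonoidalCategory A]
  [MonoidalPreadditive A] [SymmetricCategory A]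

private theorem geoc_iso_of_eq {k : Type} [Field k] {ι : Type} [Finite ι] {X Y : Set (ι → k)}
    (h : X = Y) (hX : IsAlg X) (hY : IsAlg Y) : Iso hX hY := by
  subst h
  exact ⟨CategoryTheory.Iso.refl _⟩

omit [MonoidalPreadditive A] [SymmetricCategory A] in
private theorem geoc_obj (T : CohTheory QBar A) (subq : S_subq A) {X Y : AffPair QBar}
    (f : X ≅ Y) (i : ℤ) {N : A} (h : IsSubquot N ((T.h i).obj (op X))) :
    IsSubquot N ((T.h i).obj (op Y)) :=
  subq.1 _ _ _ h (subq.2.2.1 _ _ ((T.h i).mapIso f.symm.op))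

omit [MonoidalPreadditive A] [SymmetricCategory A] in
theorem p_geoc (T : CohTheory QBar A) (geo1 : S_geo1 T) (hyp : S_hyp) (prog : S_prog)
    (gr : S_gr) (subq : S_subq A) : S_geoc T := by
  intro N
  obtain ⟨e, n, r, q, i, -, hs⟩ := geo1 N
  obtain ⟨F, hF, -⟩ := hyp (k := QBar) q
  obtain ⟨κ, hκ, S, -, ⟨f1⟩, -⟩ := prog (k := QBar) [F]
  obtain ⟨-, G, hG, ⟨f2⟩⟩ := gr (k := QBar) S
  obtain ⟨f0⟩ := geoc_iso_of_eq hF (hyp_alg _) (zs_alg (zl' QBar [F]))
  exact ⟨e, G, i, hG, geoc_obj T subq (f0 ≪≫ f1 ≪≫ f2.symm) i hs⟩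

end

end Pool.Agent.Lib.MP_ae0f86_nt.F
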