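import Pool.Agent.Lib.MP_ae0f86_nt.F.Stm

/-!
# MP_ae0f86_nt, project FEYNMAN, piece [FY giso]: the graph in the coordinates of the wires
-/

set_option autoImplicit false

open CategoryTheory CategoryTheory.Limits MvPolynomial Opposite MonoidalCategory

universe v u

namespace Pool.Agent.Lib.MP_ae0f86_nt.F

noncomputable section

/-- inverse polynomial maps give an isomorphism -/
private theorem giso_iso {k : Type} [Field k] {ι κ : Type} [Finite ι] [Finite κ]
    {X : Set (ι → k)} {Y : Set (κ → k)} (hX : IsAlg X) (hY : IsAlg Y)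
    (F : κ → MvPolynomial ι k) (G : ι → MvPolynomial κ k)
    (hF : ∀ x ∈ X, (fun j => eval x (F j)) ∈ Y) (hG : ∀ y ∈ Y, (fun i => eval y (G i)) ∈ X)
    (hGF : ∀ x ∈ X, (fun i => eval (fun j => eval x (F j)) (G i)) = x)
    (hFG : ∀ y ∈ Y, (fun j => eval (fun i => eval y (G i)) (F j)) = y) : Iso hX hY :=
  ⟨{ hom := AffPair.mk' (AffPair.abs hX) (AffPair.abs hY) F hF (fun _ hx => hx.elim)
     inv := AffPair.mk' (AffPair.abs hY) (AffPair.abs hX) G hG (fun _ hx => hx.elim)
     hom_inv_id := AffPair.hom_ext _ _ fun x => hGF x.1 x.2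
     inv_hom_id := AffPair.hom_ext _ _ fun y => hFG y.1 y.2 }⟩

private theorem giso_map {R R' : Type} [CommRing R] [CommRing R'] (f : R →+* R') {Λ : Type}
    {M : ℕ} (c : Fin M → Wall Λ) (x : Wire Λ M → R) (e : Edge Λ M) :
    f (flow c x e) = flow c (fun w => f (x w)) e := by
  rcases e with ⟨w, i⟩ | ⟨p, i⟩ | p | τ
  · rfl
  · simp only [flow, map_sub]
  · simp only [flow, map_sub]
  · simp only [flow, map_sum]

private theorem giso_poly {k : Type} [Field k] {Λ : Type} {M : ℕ} (c : Fin M → Wall Λ)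
    (x : Wire Λ M × Fin 4 → k) (p : Edge Λ M × Fin 4) :
    eval x (flowPoly k c p) = flow c (fun w => x (w, p.2)) p.1 := by
  unfold flowPoly
  rw [giso_map]
  simp only [eval_X]

private theorem giso_bind {k : Type} [Field k] {σ τ : Type} (f : σ → MvPolynomial τ k)
    (x : τ → k) (p : MvPolynomial σ k) :
    eval x (bind₁ f p) = eval (fun i => eval x (f i)) p := by
  rw [← MvPolynomial.coe_aeval_eq_eval, RingHom.coe_coe, MvPolynomial.aeval_bind₁,
    ← MvPolynomial.coe_aeval_eq_eval, RingHom.coe_coe]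

section Abs

variable {k : Type} [Field k] {E W : Type} [Fintype E] [Finite W] (mom : Set (E × Fin 4 → k))
  (den : E → MvPolynomial (E × Fin 4) k) (fp : E × Fin 4 → MvPolynomial (W × Fin 4) k)
  (i₀ : W → E)
  (h1 : ∀ z ∈ mom, ∀ p, eval (fun q : W × Fin 4 => z (i₀ q.1, q.2)) (fp p) = z p)
  (h2 : ∀ x : W × Fin 4 → k, (fun p => eval x (fp p)) ∈ mom)
  (h3 : ∀ (x : W × Fin 4 → k) (q : W × Fin 4), eval x (fp (i₀ q.1, q.2)) = x q)

include h1 h2 h3

private theorem giso_abs1
    (hX : IsAlg {z : E × Fin 4 ⊕ Unit → k | z ∘ Sum.inl ∈ mom ∧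
      z (Sum.inr ()) * ∏ e, eval (z ∘ Sum.inl) (den e) = 1})
    (hY : IsAlg (us ([] : List (MvPolynomial (W × Fin 4) k)) (∏ e, bind₁ fp (den e)))) :
    Iso hX hY := by
  refine giso_iso _ _
    (Sum.elim (fun q : W × Fin 4 => MvPolynomial.X (Sum.inl (i₀ q.1, q.2)))
      (fun _ : Unit => MvPolynomial.X (Sum.inr ())))
    (Sum.elim (fun p : E × Fin 4 => rename Sum.inl (fp p))
      (fun _ : Unit => MvPolynomial.X (Sum.inr ()))) ?_ ?_ ?_ ?_
  · rintro z ⟨hz1, hz2⟩
    refine ⟨fun f hf => absurd hf List.not_mem_nil, ?_⟩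
    simp only [Sum.elim_inr, eval_X]
    rw [← hz2, map_prod]
    congr 1
    refine Finset.prod_congr rfl fun e _ => ?_
    rw [giso_bind]
    congr 2
    funext p
    rw [← h1 _ hz1 p]
    congr 2
    funext q
    simp
  · rintro x ⟨-, hx2⟩
    have h4 : (fun i => eval x ((Sum.elim (fun p : E × Fin 4 => rename Sum.inl (fp p))
        (fun _ : Unit => MvPolynomial.X (Sum.inr ())) :
        E × Fin 4 ⊕ Unit → MvPolynomial (W × Fin 4 ⊕ Unit) k) i)) ∘ Sum.inl =
        fun p => eval (x ∘ Sum.inl) (fp p) := by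
      funext p
      show eval x (rename Sum.inl (fp p)) = _
      rw [eval_rename]
    refine ⟨?_, ?_⟩
    · rw [h4]
      exact h2 _
    · rw [h4]
      simp only [Sum.elim_inr, eval_X]
      rw [← hx2, map_prod]
      congr 1
      refine Finset.prod_congr rfl fun e _ => ?_
      rw [giso_bind]
  · rintro z ⟨hz1, -⟩
    funext i
    rcases i with p | u
    · simp only [Sum.elim_inl]
      rw [eval_rename]
      refine Eq.trans ?_ (h1 _ hz1 p)
      congr 2
      funext q
      simp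
    · simp
  · rintro x -
    funext i
    rcases i with q | u
    · simp only [Sum.elim_inl, eval_X]
      rw [eval_rename, h3]
      rfl
    · simp

private theorem giso_abs2 (l : List E) (hl : ∀ e, e ∈ l)
    (hX : IsAlg {z : E × Fin 4 → k | z ∈ mom ∧ ∀ e, eval z (den e) = 0})
    (hY : IsAlg (zs (l.map fun e => bind₁ fp (den e)))) : Iso hX hY := by
  refine giso_iso _ _ (fun q : W × Fin 4 => MvPolynomial.X (i₀ q.1, q.2)) fp ?_ ?_ ?_ ?_
  · rintro z ⟨hz1, hz2⟩ f hf
    rw [List.mem_map] at hf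
    obtain ⟨e, -, rfl⟩ := hf
    rw [giso_bind, ← hz2 e]
    congr 2
    funext p
    rw [← h1 z hz1 p]
    congr 2
    funext q
    simp
  · intro x hx
    refine ⟨h2 x, fun e => ?_⟩
    rw [← giso_bind]
    exact hx _ (List.mem_map.2 ⟨e, hl e, rfl⟩)
  · rintro z ⟨hz1, -⟩
    funext p
    refine Eq.trans ?_ (h1 z hz1 p)
    congr 2
    funext q
    simp
  · intro x _
    funext q
    rw [eval_X, h3]

end Abs

theorem p_giso (flowc : S_flowc) : S_giso := by
  intro k _ Λ _ M f c
  have h1 : ∀ z ∈ (graph f c).momenta k, ∀ p : Edge Λ M × Fin 4,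
      eval (fun q : Wire Λ M × Fin 4 => z (ew q.1 0, q.2)) (flowPoly k c p) = z p := by
    intro z hz p
    rw [giso_poly]
    exact (congrFun ((flowc f c (fun e => z (e, p.2))).1 (hz p.2)) p.1).symm
  have h2 : ∀ x : Wire Λ M × Fin 4 → k,
      (fun p : Edge Λ M × Fin 4 => eval x (flowPoly k c p)) ∈ (graph f c).momenta k := by
    intro x j
    refine (flowc f c (fun e => eval x (flowPoly k c (e, j)))).2 ?_
    funext e
    rw [giso_poly]
    congr 1
    funext w
    rw [giso_poly]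
    rfl
  have h3 : ∀ (x : Wire Λ M × Fin 4 → k) (q : Wire Λ M × Fin 4),
      eval x (flowPoly k c (ew q.1 0, q.2)) = x q := by
    intro x q
    rw [giso_poly]
    rfl
  exact ⟨giso_abs1 ((graph f c).momenta k) ((graph f c).den k) (flowPoly k c) (fun w => ew w 0)
      h1 h2 h3 _ _,
    giso_abs2 ((graph f c).momenta k) ((graph f c).den k) (flowPoly k c) (fun w => ew w 0)
      h1 h2 h3 _ (fun e => Finset.mem_toList.2 (Finset.mem_univ e)) _ _⟩

end

end Pool.Agent.Lib.MP_ae0f86_nt.F
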