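import Pool.Agent.Lib.MP_ae0f86_nt.F.Stm

/-!
# MP_ae0f86_nt, project FEYNMAN: the piece `gr`
-/

open CategoryTheory CategoryTheory.Limits MvPolynomial Opposite MonoidalCategory

universe v u

namespace Pool.Agent.Lib.MP_ae0f86_nt.F

noncomputable section

attribute [local instance] CategoryTheory.Abelian.hasFiniteBiproducts

private theorem iso_congr {k : Type} [Field k] {ι κ : Type} [Finite ι] [Finite κ]
    {X : Set (ι → k)} {Y Y' : Set (κ → k)} (hX : IsAlg X) (hY : IsAlg Y) (hY' : IsAlg Y')
    (h : Y = Y') (hi : Iso hX hY) : Iso hX hY' := by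
  subst h; exact hi

private theorem Iso.trans' {k : Type} [Field k] {ι κ τ : Type} [Finite ι] [Finite κ] [Finite τ]
    {X : Set (ι → k)} {Y : Set (κ → k)} {Z : Set (τ → k)} {hX : IsAlg X} {hY : IsAlg Y}
    {hZ : IsAlg Z} (h1 : Iso hX hY) (h2 : Iso hY hZ) : Iso hX hZ := by
  obtain ⟨i⟩ := h1
  obtain ⟨j⟩ := h2
  exact ⟨i ≪≫ j⟩

private theorem us_congr {k : Type} [Field k] {ι : Type} (l : List (MvPolynomial ι k))
    {f g : MvPolynomial ι k} (h : f = g) : us l f = us l g := by rw [h]

/-- [FY gr] -/
theorem p_gr (loops : S_loops) (irr : S_irr) (giso : S_giso) (elist : S_elist)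
    (final : S_final) : S_gr := by
  intro k _ _ Λ _ S
  classical
  let _ : Fintype Λ := Fintype.ofFinite Λ
  have hS : List.ofFn S.get = S := List.ofFn_get S
  obtain ⟨f1, f2, f3⟩ := final (k := k) S.get
  obtain ⟨e1, e2⟩ := elist (Λ := Λ) (M := S.length)
  have hp : (wireEdges ++ gateEdges ++ conEdges ++ topEdges : List (Edge Λ S.length)).Perm
      Finset.univ.toList :=
    (List.perm_ext_iff_of_nodup e1 (Finset.nodup_toList _)).2 fun e =>
      ⟨fun _ => Finset.mem_toList.2 (Finset.mem_univ e), fun _ => e2 e⟩
  have hprod : ((wireEdges ++ gateEdges ++ conEdges :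
      List (Edge Λ S.length)).map (wden k false S.get)).prod * topProd k S.get =
        ∏ e, wden k false S.get e := by
    rw [topProd, ← List.prod_append, ← List.map_append, (hp.map _).prod_eq,
      Finset.prod_map_toList]
  have hlen : ((wireEdges ++ gateEdges ++ conEdges :
      List (Edge Λ S.length)).map (wden k false S.get)).length +
        Fintype.card (Wire Λ S.length) = Fintype.card (Edge Λ S.length) := by
    have h1 : (wireEdges ++ gateEdges ++ conEdges ++ topEdges : List (Edge Λ S.length)).length =
        Fintype.card (Edge Λ S.length) := by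
      rw [hp.length_eq, Finset.length_toList, Finset.card_univ]
    rw [List.length_append] at h1
    rw [List.length_map, ← h1]
    congr 1
    rw [topEdges, List.length_map, Finset.length_toList, Finset.card_univ]
  refine ⟨fun hc => ?_, ?_⟩
  · refine ⟨graph false S.get, Wire Λ S.length × Fin 4, inferInstance, _, _, irr false S.get,
      f2 (by rw [hS]; exact hc), ?_, ?_, ?_, iso_congr _ _ _ (by rw [hS]) f1⟩
    · rw [loops, Nat.card_prod, Nat.card_eq_fintype_card, Nat.card_eq_fintype_card,
        Fintype.card_fin, mul_comm]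
    · have h2 : (Fintype.card (Edge Λ S.length) : ℤ) =
          (((wireEdges ++ gateEdges ++ conEdges :
            List (Edge Λ S.length)).map (wden k false S.get)).length : ℤ) +
              (Fintype.card (Wire Λ S.length) : ℤ) := by
        rw [← hlen]; push_cast; rfl
      have h3 : (((wireEdges ++ gateEdges ++ conEdges :
            List (Edge Λ S.length)).map (wden k false S.get)).length : ℤ) =
          (Fintype.card (Edge Λ S.length) : ℤ) - (Fintype.card (Wire Λ S.length) : ℤ) := by
        rw [h2]; ring
      rw [h3, Nat.card_prod, Nat.card_eq_fintype_card, Nat.card_eq_fintype_card,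
        Nat.card_eq_fintype_card]
      simp only [Edge, Wire, Gate, Fintype.card_sum, Fintype.card_prod, Fintype.card_fin]
      push_cast
      ring
    · exact iso_congr _ _ _ (us_congr _ hprod.symm) (giso (k := k) false S.get).1
  · exact ⟨graph true S.get, irr true S.get,
      (giso (k := k) true S.get).2.trans' (iso_congr _ _ _ (by rw [hS]) f3)⟩

end

end Pool.Agent.Lib.MP_ae0f86_nt.F
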