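import Pool.Agent.Lib.MP_ae0f86_nt.F.Stm
import Mathlib

/-!
Project FEYNMAN, piece hyp: the cubic as one integral polynomial.
-/

open CategoryTheory CategoryTheory.Limits MvPolynomial Opposite MonoidalCategory

universe v u

namespace Pool.Agent.Lib.MP_ae0f86_nt.F

noncomputable section

private theorem hyp_pderiv {k : Type} [Field k] {n r : ℕ} (j : Fin r)
    (q : MvPolynomial (Fin n) k) :
    pderiv (Sum.inr j : Fin n ⊕ Fin r) (rename Sum.inl q) = 0 := by
  classical
  refine pderiv_eq_zero_of_notMem_vars ?_
  intro h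
  obtain ⟨i, _, hi⟩ := Finset.mem_image.mp (vars_rename Sum.inl q h)
  exact Sum.inl_ne_inr hi

private theorem hyp_grad {k : Type} [Field k] {n r : ℕ} (q : Fin r → MvPolynomial (Fin n) k)
    (x : Fin n ⊕ Fin r → k) (j : Fin r) :
    grad x (∑ i, MvPolynomial.X (Sum.inr i) * rename Sum.inl (q i) - 1) (Sum.inr j) =
      eval (x ∘ Sum.inl) (q j) := by
  classical
  unfold grad
  rw [map_sub, map_sum]
  have h1 : ∀ i : Fin r, pderiv (Sum.inr j : Fin n ⊕ Fin r)
      (MvPolynomial.X (Sum.inr i) * rename Sum.inl (q i)) =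
      if i = j then rename Sum.inl (q i) else 0 := by
    intro i
    rw [pderiv_mul, hyp_pderiv, mul_zero, add_zero]
    by_cases h : i = j
    · subst h
      rw [pderiv_X_self, one_mul, if_pos rfl]
    · rw [pderiv_X_of_ne (fun h2 => h (Sum.inr_injective h2)), zero_mul, if_neg h]
  rw [Finset.sum_congr rfl fun i _ => h1 i, Finset.sum_ite_eq' Finset.univ j, if_pos
    (Finset.mem_univ j), pderiv_one, sub_zero, eval_rename]

theorem p_hyp : S_hyp := by
  intro k _ n r q
  refine ⟨∑ j, MvPolynomial.X (Sum.inr j) * rename Sum.inl (q j) - 1, ?_⟩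
  have h1 : zl' k [∑ j, MvPolynomial.X (Sum.inr j) * rename Sum.inl (q j) - 1] =
      [∑ j, MvPolynomial.X (Sum.inr j) *
        rename Sum.inl (MvPolynomial.map (Int.castRingHom k) (q j)) - 1] := by
    unfold zl'
    simp only [List.map_cons, List.map_nil, map_sub, map_sum, map_mul, map_one, map_X, map_rename]
  rw [h1]
  have h2 : ∀ x : Fin n ⊕ Fin r → k,
      eval x (∑ j, MvPolynomial.X (Sum.inr j) *
        rename Sum.inl (MvPolynomial.map (Int.castRingHom k) (q j)) - 1) =
      ∑ j, x (Sum.inr j) * eval (x ∘ Sum.inl) (MvPolynomial.map (Int.castRingHom k) (q j)) - 1 := by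
    intro x
    rw [map_sub, map_sum, map_one]
    congr 1
    refine Finset.sum_congr rfl fun j _ => ?_
    rw [map_mul, eval_X, eval_rename]
  constructor
  · ext x
    unfold hyp zs
    simp only [Set.mem_setOf_eq, List.mem_singleton, forall_eq]
    rw [h2, sub_eq_zero]
  · intro acc t rest h x _ hx
    have hacc : acc = [] := by
      cases acc with
      | nil => rfl
      | cons a acc =>
        have := congrArg List.length h
        simp at this
    subst hacc
    rw [List.nil_append] at h
    have ht := (List.cons.inj h).1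
    subst ht
    intro h3
    have h4 : grad x (∑ j, MvPolynomial.X (Sum.inr j) *
        rename Sum.inl (MvPolynomial.map (Int.castRingHom k) (q j)) - 1) = 0 := by
      have h5 : {v : Fin n ⊕ Fin r → k | ∃ f ∈ ([] : List (MvPolynomial (Fin n ⊕ Fin r) k)),
          v = grad x f} = ∅ := by
        ext v
        simp
      rw [h5, Submodule.span_empty, Submodule.mem_bot] at h3
      exact h3
    rw [h2] at hx
    have h6 : ∀ j, eval (x ∘ Sum.inl) (MvPolynomial.map (Int.castRingHom k) (q j)) = 0 := by
      intro j
      rw [← hyp_grad (fun j => MvPolynomial.map (Int.castRingHom k) (q j)) x j, h4]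
      rfl
    simp only [h6, mul_zero, Finset.sum_const_zero, zero_sub, neg_eq_zero] at hx
    exact one_ne_zero hx

end

end Pool.Agent.Lib.MP_ae0f86_nt.F
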