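import Pool.Agent.Lib.MP_ae0f86_nt.F.Stm
import Mathlib

/-!
# [FY loops] the number of loops of the graph of a system of walls
-/

open CategoryTheory CategoryTheory.Limits MvPolynomial Opposite MonoidalCategory

universe v u

namespace Pool.Agent.Lib.MP_ae0f86_nt.F

noncomputable section

private lemma loops_flow_add {Λ : Type} {M : ℕ} (c : Fin M → Wall Λ) (x y : Wire Λ M → ℚ) :
    flow c (x + y) = flow c x + flow c y := by
  funext e
  rcases e with ⟨w, i⟩ | ⟨p, i⟩ | p | τ
  · simp [flow]
  · simp only [flow, Pi.add_apply]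
    ring
  · simp only [flow, Pi.add_apply]
    ring
  · simp only [flow, Pi.add_apply, Finset.sum_add_distrib]

private lemma loops_flow_smul {Λ : Type} {M : ℕ} (c : Fin M → Wall Λ) (q : ℚ)
    (x : Wire Λ M → ℚ) : flow c (q • x) = q • flow c x := by
  funext e
  rcases e with ⟨w, i⟩ | ⟨p, i⟩ | p | τ
  · simp [flow]
  · simp only [flow, Pi.smul_apply, smul_eq_mul]
    ring
  · simp only [flow, Pi.smul_apply, smul_eq_mul]
    ring
  · simp only [flow, Pi.smul_apply, smul_eq_mul, Finset.mul_sum]

/-- [FY loops] -/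
theorem p_loops (flowc : S_flowc) : S_loops := by
  intro Λ _ M f c
  let Φ : (Wire Λ M → ℚ) ≃ₗ[ℚ] cycles (graph f c) :=
    { toFun := fun x => ⟨flow c x, (flowc f c (flow c x)).2 rfl⟩
      map_add' := fun x y => Subtype.ext (loops_flow_add c x y)
      map_smul' := fun q x => Subtype.ext (loops_flow_smul c q x)
      invFun := fun y => fun w => y.1 (ew w 0)
      left_inv := fun x => rfl
      right_inv := fun y => Subtype.ext ((flowc f c y.1).1 y.2).symm }
  rw [loops_eq, ← Φ.finrank_eq]
  exact Module.finrank_fintype_fun_eq_card ℚ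

end

end Pool.Agent.Lib.MP_ae0f86_nt.F
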