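import Pool.Agent.Lib.MP_ae0f86_nt.F.Stm
import Mathlib

/-!
Project FEYNMAN, piece pext: straight line programs compute all polynomials.
-/

open CategoryTheory CategoryTheory.Limits MvPolynomial Opposite MonoidalCategory

universe v u

namespace Pool.Agent.Lib.MP_ae0f86_nt.F

noncomputable section

/-- `p` can be computed by an extension of every program. -/
private def pextC (k : Type) [Field k] (σ : Type) (p : MvPolynomial σ ℤ) : Prop :=
  ∀ (κ : Type) (_ : Finite κ) (S : List (Wall (σ ⊕ κ))) (w : κ → MvPolynomial σ ℤ),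
    IsProg k S w →
    ∃ (κ' : Type) (_ : Finite κ') (S' : List (Wall (σ ⊕ κ'))) (w' : κ' → MvPolynomial σ ℤ),
      IsProg k S' w' ∧ (∀ j, ∃ j', w' j' = w j) ∧ ∃ j', w' j' = p

/-- One step. -/
private theorem pext_step (pstep : S_pstep) {k : Type} [Field k] {σ κ : Type} [Finite σ]
    [Finite κ] (S : List (Wall (σ ⊕ κ))) (w : κ → MvPolynomial σ ℤ) (hS : IsProg k S w)
    (c : Wall (σ ⊕ Option κ)) (v : MvPolynomial σ ℤ)
    (h1 : ∀ z : σ ⊕ Option κ → k, (∀ j, z (Sum.inr (some j)) =
        eval (z ∘ Sum.inl) (MvPolynomial.map (Int.castRingHom k) (w j))) →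
      (eval z (c.poly k) = 0 ↔ z (Sum.inr none) =
        eval (z ∘ Sum.inl) (MvPolynomial.map (Int.castRingHom k) v)))
    (h2 : ∀ z : σ ⊕ Option κ → k, eval z (pderiv (Sum.inr none) (c.poly k)) ≠ 0) :
    ∃ (κ' : Type) (_ : Finite κ') (S' : List (Wall (σ ⊕ κ'))) (w' : κ' → MvPolynomial σ ℤ),
      IsProg k S' w' ∧ (∀ j, ∃ j', w' j' = w j) ∧ ∃ j', w' j' = v :=
  ⟨Option κ, inferInstance, _, _, pstep S w hS c v h1 h2, fun j => ⟨some j, rfl⟩, ⟨none, rfl⟩⟩

private theorem pext_zero (pstep : S_pstep) {k : Type} [Field k] {σ : Type} [Finite σ] :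
    pextC k σ 0 := by
  intro κ _ S w hS
  refine pext_step pstep S w hS ⟨false, Sum.inr none, Sum.inr none, Sum.inr none, false⟩ 0 ?_ ?_
  · intro z _
    simp [Wall.poly]
  · intro z
    simp [Wall.poly, pderiv_X_self]

private theorem pext_one (pstep : S_pstep) {k : Type} [Field k] {σ : Type} [Finite σ] :
    pextC k σ 1 := by
  intro κ _ S w hS
  refine pext_step pstep S w hS ⟨false, Sum.inr none, Sum.inr none, Sum.inr none, true⟩ 1 ?_ ?_
  · intro z _
    simp [Wall.poly, sub_eq_zero]
  · intro z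
    simp [Wall.poly, pderiv_X_self]

private theorem pext_X (pstep : S_pstep) {k : Type} [Field k] {σ : Type} [Finite σ] (i : σ) :
    pextC k σ (X i) := by
  intro κ _ S w hS
  obtain ⟨κ1, _, S1, w1, hS1, e1, o, ho⟩ := pext_zero pstep κ inferInstance S w hS
  obtain ⟨κ2, _, S2, w2, hS2, e2, j, hj⟩ := pext_step pstep S1 w1 hS1
    ⟨false, Sum.inl i, Sum.inr (some o), Sum.inr none, false⟩ (X i) (by
      intro z hz
      have h3 := hz o
      rw [ho, map_zero, map_zero] at h3
      simp only [Wall.poly, Bool.false_eq_true, if_false, map_sub, map_add, eval_X, h3, add_zero,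
        map_X, Function.comp_apply, sub_zero, sub_eq_zero]
      exact eq_comm) (by
      intro z
      classical
      simp [Wall.poly, pderiv_X])
  refine ⟨κ2, inferInstance, S2, w2, hS2, fun a => ?_, j, hj⟩
  obtain ⟨a1, h1⟩ := e1 a
  obtain ⟨a2, h2⟩ := e2 a1
  exact ⟨a2, h2.trans h1⟩

private theorem pext_neg (pstep : S_pstep) {k : Type} [Field k] {σ : Type} [Finite σ]
    (p : MvPolynomial σ ℤ) (hp : pextC k σ p) : pextC k σ (-p) := by
  intro κ _ S w hS
  obtain ⟨κ0, _, S0, w0, hS0, e0, u, hu⟩ := hp κ inferInstance S w hS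
  obtain ⟨κ1, _, S1, w1, hS1, e1, o, ho⟩ := pext_zero pstep κ0 inferInstance S0 w0 hS0
  obtain ⟨u1, hu1⟩ := e1 u
  obtain ⟨κ2, _, S2, w2, hS2, e2, j, hj⟩ := pext_step pstep S1 w1 hS1
    ⟨false, Sum.inr (some u1), Sum.inr none, Sum.inr (some o), false⟩ (-p) (by
      intro z hz
      have h3 := hz o
      have h4 := hz u1
      rw [ho, map_zero, map_zero] at h3
      rw [hu1, hu] at h4
      simp only [Wall.poly, Bool.false_eq_true, if_false, map_sub, map_add, eval_X, h3, h4,
        map_neg, sub_zero, map_zero]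
      constructor
      · intro h
        linear_combination h
      · intro h
        linear_combination h) (by
      intro z
      classical
      simp [Wall.poly, pderiv_X])
  refine ⟨κ2, inferInstance, S2, w2, hS2, fun a => ?_, j, hj⟩
  obtain ⟨a0, h0⟩ := e0 a
  obtain ⟨a1, h1⟩ := e1 a0
  obtain ⟨a2, h2⟩ := e2 a1
  exact ⟨a2, h2.trans (h1.trans h0)⟩

private theorem pext_op (pstep : S_pstep) {k : Type} [Field k] {σ : Type} [Finite σ] (b : Bool)
    (p q : MvPolynomial σ ℤ) (hp : pextC k σ p) (hq : pextC k σ q) :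
    pextC k σ (if b then p * q else p + q) := by
  intro κ _ S w hS
  obtain ⟨κ0, _, S0, w0, hS0, e0, u, hu⟩ := hp κ inferInstance S w hS
  obtain ⟨κ1, _, S1, w1, hS1, e1, o, ho⟩ := hq κ0 inferInstance S0 w0 hS0
  obtain ⟨u1, hu1⟩ := e1 u
  obtain ⟨κ2, _, S2, w2, hS2, e2, j, hj⟩ := pext_step pstep S1 w1 hS1
    ⟨b, Sum.inr (some u1), Sum.inr (some o), Sum.inr none, false⟩ (if b then p * q else p + q) (by
      intro z hz
      have h3 := hz o
      have h4 := hz u1
      rw [ho] at h3
      rw [hu1, hu] at h4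
      cases b
      · simp only [Wall.poly, Bool.false_eq_true, if_false, map_sub, map_add, eval_X, h3, h4,
          sub_zero, map_zero, sub_eq_zero]
        exact eq_comm
      · simp only [Wall.poly, Bool.false_eq_true, if_false, if_true, map_sub, map_mul, eval_X, h3,
          h4, sub_zero, map_zero, sub_eq_zero]
        exact eq_comm) (by
      intro z
      classical
      cases b
      · simp [Wall.poly, pderiv_X]
      · simp [Wall.poly, pderiv_X, pderiv_mul])
  refine ⟨κ2, inferInstance, S2, w2, hS2, fun a => ?_, j, hj⟩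
  obtain ⟨a0, h0⟩ := e0 a
  obtain ⟨a1, h1⟩ := e1 a0
  obtain ⟨a2, h2⟩ := e2 a1
  exact ⟨a2, h2.trans (h1.trans h0)⟩

theorem p_pext (pstep : S_pstep) : S_pext := by
  intro k _ σ κ _ _ p S w hS
  have hadd : ∀ p q : MvPolynomial σ ℤ, pextC k σ p → pextC k σ q → pextC k σ (p + q) := by
    intro p q hp hq
    exact pext_op pstep false p q hp hq
  have hmul : ∀ p q : MvPolynomial σ ℤ, pextC k σ p → pextC k σ q → pextC k σ (p * q) := by
    intro p q hp hq
    exact pext_op pstep true p q hp hq
  have hC : ∀ a : ℤ, pextC k σ (C a) := by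
    intro a
    induction a using Int.induction_on with
    | zero =>
      rw [map_zero]
      exact pext_zero pstep
    | succ n ih =>
      rw [map_add, map_one]
      exact hadd _ _ ih (pext_one pstep)
    | pred n ih =>
      rw [map_sub, map_one, sub_eq_add_neg]
      exact hadd _ _ ih (pext_neg pstep _ (pext_one pstep))
  have hall : pextC k σ p := by
    induction p using MvPolynomial.induction_on with
    | C a => exact hC a
    | add p q hp hq => exact hadd p q hp hq
    | mul_X p i hp => exact hmul p (X i) hp (pext_X pstep i)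
  exact hall κ inferInstance S w hS

end

end Pool.Agent.Lib.MP_ae0f86_nt.F
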