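import Pool.Agent.Lib.MP_ae0f86_nt.F.Stm

/-!
# MP_ae0f86_nt, project FEYNMAN, piece prog: integral equations as a system of walls
-/

open CategoryTheory CategoryTheory.Limits MvPolynomial Opposite MonoidalCategory

universe v u

namespace Pool.Agent.Lib.MP_ae0f86_nt.F

noncomputable section

private theorem prog_empty (k : Type) [Field k] (σ : Type) [Finite σ] :
    IsProg k ([] : List (Wall (σ ⊕ Empty))) (fun j => j.elim) := by
  refine ⟨?_, ?_, ?_⟩
  · intro acc t rest h
    simp [wl] at h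
  · intro z
    constructor
    · intro _ j
      exact j.elim
    · intro _ f hf
      simp [wl] at hf
  · simp

/-- a program computing all members of a list -/
private theorem prog_list (pext : S_pext) (k : Type) [Field k] {σ : Type} [Finite σ]
    (p : List (MvPolynomial σ ℤ)) : ∃ (κ : Type) (_ : Finite κ) (S : List (Wall (σ ⊕ κ)))
      (w : κ → MvPolynomial σ ℤ), IsProg k S w ∧ ∃ js : List κ, js.map w = p := by
  induction p with
  | nil => exact ⟨Empty, inferInstance, [], fun j => j.elim, prog_empty k σ, [], rfl⟩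
  | cons f p ih =>
    obtain ⟨κ, hκ, S, w, hS, js, hjs⟩ := ih
    obtain ⟨κ', hκ', S', w', hS', hold, j₀, hj₀⟩ := pext f S w hS
    choose o ho using hold
    refine ⟨κ', hκ', S', w', hS', j₀ :: js.map o, ?_⟩
    rw [List.map_cons, hj₀, List.map_map, ← hjs]
    congr 1
    refine List.map_congr_left fun j _ => ?_
    exact ho j

theorem p_prog (pext : S_pext) (ct : S_ct) : S_prog := by
  intro k _ _ σ _ p
  obtain ⟨κ, hκ, S, w, hS, js, hjs⟩ := prog_list pext k p
  set m : List (Wall (σ ⊕ κ)) := js.map (fun j => ⟨false, Sum.inr j, Sum.inr j, Sum.inr j, false⟩)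
    with hm
  have hwm : wl k m = js.map (fun j => (X (Sum.inr j) : MvPolynomial (σ ⊕ κ) k)) := by
    simp only [wl, hm, List.map_map]
    refine List.map_congr_left fun j _ => ?_
    simp [Wall.poly]
  have hwl : wl k (S ++ m) = wl k S ++ js.map (fun j => (X (Sum.inr j) : MvPolynomial (σ ⊕ κ) k)) := by
    rw [← hwm]
    simp [wl]
  set W : κ → MvPolynomial σ k := fun j => MvPolynomial.map (Int.castRingHom k) (w j) with hW
  have hzl : zl' k p = js.map W := by
    rw [zl', ← hjs, List.map_map]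
    rfl
  set Φ : σ ⊕ κ → MvPolynomial σ k := Sum.elim X W with hΦ
  have hΦe : ∀ y : σ → k, (fun i => eval y (Φ i)) = Sum.elim y (fun j => eval y (W j)) := by
    intro y
    funext i
    rcases i with i | j
    · simp [hΦ]
    · simp [hΦ]
  have hzero : ∀ x : σ ⊕ κ → k, x ∈ zs (wl k S) ↔ ∃ y : σ → k, (fun i => eval y (Φ i)) = x := by
    intro x
    rw [hS.zero]
    constructor
    · intro h
      refine ⟨x ∘ Sum.inl, ?_⟩
      rw [hΦe]
      funext i
      rcases i with i | j
      · rfl
      · exact (h j).symm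
    · rintro ⟨y, rfl⟩ j
      rw [hΦe]
      rfl
  have hzm : ∀ x : σ ⊕ κ → k, x ∈ zs (wl k (S ++ m)) ↔
      x ∈ zs (wl k S) ∧ ∀ j ∈ js, x (Sum.inr j) = 0 := by
    intro x
    rw [hwl]
    constructor
    · intro h
      refine ⟨fun f hf => h f (List.mem_append_left _ hf), fun j hj => ?_⟩
      have h1 := h _ (List.mem_append_right _ (List.mem_map_of_mem hj))
      rwa [eval_X] at h1
    · rintro ⟨h1, h2⟩ f hf
      rcases List.mem_append.1 hf with hf | hf
      · exact h1 f hf
      · rw [List.mem_map] at hf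
        obtain ⟨j, hj, rfl⟩ := hf
        rw [eval_X]
        exact h2 j hj
  have hzp : ∀ y : σ → k, y ∈ zs (zl' k p) ↔ ∀ j ∈ js, eval y (W j) = 0 := by
    intro y
    rw [hzl]
    constructor
    · intro h j hj
      exact h _ (List.mem_map_of_mem hj)
    · intro h f hf
      rw [List.mem_map] at hf
      obtain ⟨j, hj, rfl⟩ := hf
      exact h j hj
  refine ⟨κ, hκ, S ++ m, ?_, ?_, ?_⟩
  · rw [List.length_append, hS.length, hm, List.length_map, ← hjs, List.length_map]
  · let f : AffPair.abs (zs_alg (zl' k p)) ⟶ AffPair.abs (zs_alg (wl k (S ++ m))) :=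
      ⟨fun x => ⟨fun i => eval x.1 (Φ i), by
          refine (hzm _).2 ⟨(hzero _).2 ⟨x.1, rfl⟩, fun j hj => ?_⟩
          exact (hzp x.1).1 x.2 j hj⟩, ⟨Φ, fun _ _ => rfl⟩, fun _ hx => hx.elim⟩
    let g : AffPair.abs (zs_alg (wl k (S ++ m))) ⟶ AffPair.abs (zs_alg (zl' k p)) :=
      ⟨fun x => ⟨x.1 ∘ Sum.inl, by
          obtain ⟨h1, h2⟩ := (hzm _).1 x.2
          refine (hzp _).2 fun j hj => ?_
          rw [← (hS.zero x.1).1 h1 j]
          exact h2 j hj⟩, ⟨fun i => X (Sum.inl i), fun x i => by simp⟩, fun _ hx => hx.elim⟩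
    refine ⟨⟨f, g, ?_, ?_⟩⟩
    · refine AffPair.hom_ext _ _ fun x => ?_
      funext i
      show eval x.1 (Φ (Sum.inl i)) = x.1 i
      simp [hΦ]
    · refine AffPair.hom_ext _ _ fun x => ?_
      show (fun i => eval (x.1 ∘ Sum.inl) (Φ i)) = x.1
      rw [hΦe]
      obtain ⟨h1, -⟩ := (hzm _).1 x.2
      funext i
      rcases i with i | j
      · rfl
      · exact ((hS.zero x.1).1 h1 j).symm
  · intro hch
    rw [hwl]
    refine ct (wl k S) _ Φ hS.chain hzero ?_
    rw [List.map_map]
    have h1 : js.map ((bind₁ Φ) ∘ fun j => (X (Sum.inr j) : MvPolynomial (σ ⊕ κ) k)) = js.map W := by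
      refine List.map_congr_left fun j _ => ?_
      simp [hΦ]
    rw [h1, ← hzl]
    exact hch

end

end Pool.Agent.Lib.MP_ae0f86_nt.F
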