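import Pool.Agent.Lib.MP_ae0f86_nt.F.Stm

/-!
# MP_ae0f86_nt, project FEYNMAN, piece pstep: one more line of a program
-/

open CategoryTheory CategoryTheory.Limits MvPolynomial Opposite MonoidalCategory

universe v u

namespace Pool.Agent.Lib.MP_ae0f86_nt.F

noncomputable section

variable {k : Type} [Field k]

private theorem pstep_grad_rename {ι κ : Type} {φ : ι → κ} (hφ : Function.Injective φ)
    (x : κ → k) (f : MvPolynomial ι k) : grad x (rename φ f) ∘ φ = grad (x ∘ φ) f := by
  funext i
  show eval x (pderiv (φ i) (rename φ f)) = eval (x ∘ φ) (pderiv i f)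
  rw [pderiv_rename hφ, eval_rename]

private theorem pstep_map_eq {α β : Type} (g : α → β) (L : List α) (acc : List β) (t : β)
    (rest : List β) (h : L.map g = acc ++ t :: rest) :
    ∃ (acc0 : List α) (t0 : α) (rest0 : List α), L = acc0 ++ t0 :: rest0 ∧
      acc0.map g = acc ∧ g t0 = t := by
  rw [List.map_eq_append_iff] at h
  obtain ⟨l1, l2, hL, h1, h2⟩ := h
  rw [List.map_eq_cons_iff] at h2
  obtain ⟨t0, rest0, hl2, ht0, -⟩ := h2
  exact ⟨l1, t0, rest0, by rw [hL, hl2], h1, ht0⟩

/-- a renamed chain is a chain -/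
private theorem pstep_chain_rename {ι κ : Type} {φ : ι → κ} (hφ : Function.Injective φ)
    (L acc : List (MvPolynomial ι k)) (t : MvPolynomial ι k) (rest : List (MvPolynomial ι k))
    (hL : Chain L) (h : L = acc ++ t :: rest) (x : κ → k)
    (hx : x ∈ zs (acc.map (rename φ))) (ht : eval x (rename φ t) = 0) :
    grad x (rename φ t) ∉ Submodule.span k {v | ∃ f ∈ acc.map (rename φ), v = grad x f} := by
  intro hmem
  have hx0 : x ∘ φ ∈ zs acc := by
    intro f hf
    rw [← eval_rename]
    exact hx _ (List.mem_map_of_mem hf)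
  rw [eval_rename] at ht
  apply hL acc t rest h (x ∘ φ) hx0 ht
  rw [← pstep_grad_rename hφ]
  let R : (κ → k) →ₗ[k] (ι → k) := LinearMap.funLeft k k φ
  have h1 : R (grad x (rename φ t)) ∈
      (Submodule.span k {v | ∃ f ∈ acc.map (rename φ), v = grad x f}).map R :=
    Submodule.mem_map_of_mem hmem
  rw [Submodule.map_span] at h1
  refine Submodule.span_mono ?_ h1
  rintro v ⟨v', ⟨f, hf, rfl⟩, rfl⟩
  rw [List.mem_map] at hf
  obtain ⟨f0, hf0, rfl⟩ := hf
  exact ⟨f0, hf0, pstep_grad_rename hφ x f0⟩

private theorem pstep_pderiv_zero {ι κ : Type} {φ : ι → κ} (j : κ) (hj : ∀ i, φ i ≠ j)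
    (f : MvPolynomial ι k) : pderiv j (rename φ f) = 0 := by
  classical
  refine pderiv_eq_zero_of_notMem_vars ?_
  intro h
  have h1 := vars_rename φ f h
  rw [Finset.mem_image] at h1
  obtain ⟨i, -, hi⟩ := h1
  exact hj i hi

theorem p_pstep : S_pstep := by
  intro k _ σ κ _ _ S w hS c v hc hd
  set φ : σ ⊕ κ → σ ⊕ Option κ := Sum.map id some with hφdef
  have hφ : Function.Injective φ :=
    Sum.map_injective.2 ⟨Function.injective_id, Option.some_injective κ⟩
  have hφn : ∀ i, φ i ≠ Sum.inr none := by
    rintro (i | i) h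
    · cases h
    · cases h
  set S' : List (Wall (σ ⊕ Option κ)) := S.map (fun d => ⟨d.mul, φ d.i, φ d.j, φ d.l, d.d⟩)
    with hS'
  have hpoly : ∀ d : Wall (σ ⊕ κ), (⟨d.mul, φ d.i, φ d.j, φ d.l, d.d⟩ :
      Wall (σ ⊕ Option κ)).poly k = rename φ (d.poly k) := by
    rintro ⟨mul, i, j, l, d⟩
    cases mul <;> cases d <;> simp [Wall.poly]
  have hwl : wl k (S' ++ [c]) = (wl k S).map (rename φ) ++ [c.poly k] := by
    simp only [wl, hS', List.map_append, List.map_map, List.map_cons, List.map_nil]
    congr 1
    refine List.map_congr_left fun d _ => ?_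
    exact hpoly d
  refine ⟨?_, ?_, ?_⟩
  · -- chain
    rw [hwl]
    intro acc t rest h x hx ht
    rcases List.eq_nil_or_concat rest with hr | ⟨rest', s, hr⟩
    · subst hr
      obtain ⟨h1, h2⟩ := List.append_inj' h rfl
      have h3 : c.poly k = t := by simpa using h2
      subst h3
      subst h1
      intro hmem
      have h4 : Submodule.span k {v | ∃ f ∈ (wl k S).map (rename φ), v = grad x f} ≤
          LinearMap.ker (LinearMap.proj (R := k) (φ := fun _ => k) (Sum.inr none : σ ⊕ Option κ)) := by
        rw [Submodule.span_le]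
        rintro v ⟨f, hf, rfl⟩
        rw [List.mem_map] at hf
        obtain ⟨f0, hf0, rfl⟩ := hf
        show eval x (pderiv (Sum.inr none) (rename φ f0)) = 0
        rw [pstep_pderiv_zero _ hφn, map_zero]
      exact hd x (h4 hmem)
    · subst hr
      rw [List.concat_eq_append, ← List.cons_append, ← List.append_assoc] at h
      obtain ⟨h1, -⟩ := List.append_inj' h rfl
      obtain ⟨acc0, t0, rest0, h2, rfl, rfl⟩ := pstep_map_eq _ _ _ _ _ h1
      exact pstep_chain_rename hφ (wl k S) acc0 t0 rest0 hS.chain h2 x hx ht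
  · -- zero set
    intro z
    rw [hwl]
    have h1 : z ∈ zs ((wl k S).map (rename φ) ++ [c.poly k]) ↔
        z ∘ φ ∈ zs (wl k S) ∧ eval z (c.poly k) = 0 := by
      constructor
      · intro h
        refine ⟨fun f hf => ?_, h _ (List.mem_append_right _ (List.mem_singleton.2 rfl))⟩
        rw [← eval_rename]
        exact h _ (List.mem_append_left _ (List.mem_map_of_mem hf))
      · rintro ⟨h2, h3⟩ f hf
        rcases List.mem_append.1 hf with hf | hf
        · rw [List.mem_map] at hf
          obtain ⟨f0, hf0, rfl⟩ := hf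
          rw [eval_rename]
          exact h2 f0 hf0
        · rw [List.mem_singleton] at hf
          rw [hf]
          exact h3
    rw [h1, hS.zero]
    constructor
    · rintro ⟨h2, h3⟩ o
      have h4 : ∀ j, z (Sum.inr (some j)) =
          eval (z ∘ Sum.inl) (MvPolynomial.map (Int.castRingHom k) (w j)) := h2
      cases o with
      | none => exact (hc z h4).1 h3
      | some j => exact h4 j
    · intro h2
      have h4 : ∀ j, z (Sum.inr (some j)) =
          eval (z ∘ Sum.inl) (MvPolynomial.map (Int.castRingHom k) (w j)) :=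
        fun j => h2 (some j)
      exact ⟨h4, (hc z h4).2 (h2 none)⟩
  · rw [List.length_append, hS', List.length_map, List.length_singleton, hS.length,
      Finite.card_option]

end

end Pool.Agent.Lib.MP_ae0f86_nt.F
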