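import Mathlib
import Pool.Agent.Lib.MP_ae0f86_nt.F.Stm

/-!
# MP_ae0f86_nt, project FEYNMAN: private variables give a chain
-/

open CategoryTheory CategoryTheory.Limits MvPolynomial Opposite MonoidalCategory

universe v u

namespace Pool.Agent.Lib.MP_ae0f86_nt.F

noncomputable section

/-- Private variables give a chain. -/
theorem p_pv : S_pv := by
  intro k _ ι l h acc t rest hl x hx ht hmem
  obtain ⟨i, h1, h2⟩ := h acc t rest hl
  have key : ∀ v ∈ Submodule.span k {v | ∃ f ∈ acc, v = grad x f}, v i = 0 := by
    intro v hv
    induction hv using Submodule.span_induction with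
    | mem v hv =>
      obtain ⟨f, hf, rfl⟩ := hv
      show eval x (pderiv i f) = 0
      rw [h1 f hf, map_zero]
    | zero => rfl
    | add v w _ _ hv hw =>
      show v i + w i = 0
      rw [hv, hw, add_zero]
    | smul c v _ hv =>
      show c * v i = 0
      rw [hv, mul_zero]
  exact h2 x hx ht (key _ hmem)

end

end Pool.Agent.Lib.MP_ae0f86_nt.F
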