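import Mathlib
import Pool.Agent.Lib.MP_ae0f86_nt.F.Stm

/-!
# [FYM rct] Relative chains and parametrisations
-/

open CategoryTheory CategoryTheory.Limits MvPolynomial Opposite MonoidalCategory

universe v u

namespace Pool.Agent.Lib.MP_ae0f86_nt.F

noncomputable section

section Rct

variable {k : Type} [Field k] {ι τ : Type}

private theorem rct_eval (Φ : ι → MvPolynomial τ k) (y : τ → k) (f : MvPolynomial ι k) :
    eval y (bind₁ Φ f) = eval (fun i => eval y (Φ i)) f := by
  induction f using MvPolynomial.induction_on with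
  | C a => simp
  | add p q hp hq => rw [map_add, map_add, map_add, hp, hq]
  | mul_X p n hp => rw [map_mul, map_mul, map_mul, hp, bind₁_X_right, eval_X]

/-- the differential of `Φ` -/
private def rctD [Fintype ι] (Φ : ι → MvPolynomial τ k) (y : τ → k) : (ι → k) →ₗ[k] (τ → k) :=
  LinearMap.pi fun j => ∑ i, (eval y (pderiv j (Φ i))) • LinearMap.proj i

private theorem rctD_apply [Fintype ι] (Φ : ι → MvPolynomial τ k) (y : τ → k) (w : ι → k)
    (j : τ) : rctD Φ y w j = ∑ i, eval y (pderiv j (Φ i)) * w i := by
  rw [rctD, LinearMap.pi_apply, LinearMap.sum_apply]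
  exact Finset.sum_congr rfl fun i _ => rfl

private theorem rct_chain [Fintype ι] (Φ : ι → MvPolynomial τ k) (y : τ → k)
    (f : MvPolynomial ι k) :
    grad y (bind₁ Φ f) = rctD Φ y (grad (fun i => eval y (Φ i)) f) := by
  funext j
  rw [rctD_apply]
  show eval y (pderiv j (bind₁ Φ f)) =
    ∑ i, eval y (pderiv j (Φ i)) * eval (fun i => eval y (Φ i)) (pderiv i f)
  induction f using MvPolynomial.induction_on with
  | C a => simp
  | add p q hp hq =>
    rw [map_add, map_add, map_add, hp, hq, ← Finset.sum_add_distrib]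
    refine Finset.sum_congr rfl fun i _ => ?_
    rw [map_add, map_add, mul_add]
  | mul_X p n hp =>
    classical
    rw [map_mul, bind₁_X_right, Derivation.leibniz, smul_eq_mul, smul_eq_mul, map_add, map_mul,
      map_mul, hp, rct_eval]
    have h1 : ∀ i, eval y (pderiv j (Φ i)) *
        eval (fun i => eval y (Φ i)) (pderiv i (p * MvPolynomial.X n)) =
        eval (fun i => eval y (Φ i)) p * (if i = n then eval y (pderiv j (Φ i)) else 0) +
          eval y (Φ n) * (eval y (pderiv j (Φ i)) *
            eval (fun i => eval y (Φ i)) (pderiv i p)) := fun i => by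
      rw [Derivation.leibniz, smul_eq_mul, smul_eq_mul, map_add, map_mul, map_mul, eval_X,
        pderiv_X]
      by_cases h : i = n
      · subst h
        rw [if_pos rfl, Pi.single_eq_same, map_one]
        ring
      · rw [if_neg h, Pi.single_eq_of_ne (fun h' => h h'.symm), map_zero]
        ring
    rw [Finset.sum_congr rfl fun i _ => h1 i, Finset.sum_add_distrib, ← Finset.mul_sum,
      ← Finset.mul_sum, Finset.sum_ite_eq' Finset.univ n, if_pos (Finset.mem_univ n)]

end Rct

private theorem rct_key {k : Type} [Field k] [Infinite k] {ι τ : Type} [Finite ι]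
    (l m : List (MvPolynomial ι k)) (g : MvPolynomial ι k) (Φ : ι → MvPolynomial τ k)
    (hΦ : ∀ x : ι → k, (x ∈ zs l ∧ eval x g ≠ 0) ↔ ∃ y : τ → k, (fun i => eval y (Φ i)) = x)
    (hm : Chain (m.map (bind₁ Φ))) (m1 : List (MvPolynomial ι k)) (t : MvPolynomial ι k)
    (rest : List (MvPolynomial ι k)) (h2 : m = m1 ++ t :: rest) (y : τ → k)
    (hx : ∀ f ∈ m1, eval (fun i => eval y (Φ i)) f = 0)
    (ht : eval (fun i => eval y (Φ i)) t = 0) :
    grad (fun i => eval y (Φ i)) t ∉
      Submodule.span k {v | ∃ f ∈ l ++ m1, v = grad (fun i => eval y (Φ i)) f} := by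
  intro hmem
  have := Fintype.ofFinite ι
  have hD : ∀ v ∈ Submodule.span k {v | ∃ f ∈ l ++ m1, v = grad (fun i => eval y (Φ i)) f},
      rctD Φ y v ∈ Submodule.span k {v | ∃ f ∈ m1.map (bind₁ Φ), v = grad y f} := by
    intro v hv
    induction hv using Submodule.span_induction with
    | mem v hv =>
      obtain ⟨f, hf, rfl⟩ := hv
      rw [← rct_chain]
      rw [List.mem_append] at hf
      rcases hf with hf | hf
      · have h0 : bind₁ Φ f = 0 := by
          apply MvPolynomial.funext
          intro y'
          rw [rct_eval, map_zero]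
          exact ((hΦ _).2 ⟨y', rfl⟩).1 f hf
        have h3 : grad y (0 : MvPolynomial τ k) = 0 := by
          funext j
          show eval y (pderiv j (0 : MvPolynomial τ k)) = 0
          rw [map_zero, map_zero]
        rw [h0, h3]
        exact Submodule.zero_mem _
      · exact Submodule.subset_span ⟨_, List.mem_map.2 ⟨f, hf, rfl⟩, rfl⟩
    | zero => rw [map_zero]; exact Submodule.zero_mem _
    | add v w _ _ hv hw => rw [map_add]; exact Submodule.add_mem _ hv hw
    | smul a v _ hv => rw [map_smul]; exact Submodule.smul_mem _ a hv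
  have h4 := hD _ hmem
  rw [← rct_chain] at h4
  refine hm (m1.map (bind₁ Φ)) (bind₁ Φ t) (rest.map (bind₁ Φ)) ?_ y ?_ ?_ h4
  · rw [h2, List.map_append, List.map_cons]
  · intro f hf
    obtain ⟨f0, hf0, rfl⟩ := List.mem_map.1 hf
    rw [rct_eval]
    exact hx f0 hf0
  · rw [rct_eval]
    exact ht

theorem p_rct : S_rct := by
  intro k _ _ ι τ _ l m g Φ hl hΦ hm acc rest heq x hx hne
  rcases List.append_eq_append_iff.1 heq with ⟨m1, h1, h2⟩ | ⟨c, h1, h2⟩
  · -- `acc = l ++ m1`
    have hxl : x ∈ zs l := zs_anti (by rw [h1]; exact List.subset_append_left l m1) hx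
    have hg : eval x g ≠ 0 := by
      rw [map_mul] at hne
      exact right_ne_zero_of_mul hne
    have hreg : Reg l x := hl l [] (by rw [List.append_nil]) x hxl (by
      rw [List.prod_nil, one_mul]
      exact hg)
    obtain ⟨y, rfl⟩ := (hΦ x).1 ⟨hxl, hg⟩
    intro acc' t r' hacc
    have ht : eval (fun i => eval y (Φ i)) t = 0 :=
      hx t (by rw [hacc]; exact List.mem_append_right _ List.mem_cons_self)
    rw [h1] at hacc
    rcases List.append_eq_append_iff.1 hacc with ⟨m2, h3, h4⟩ | ⟨c, h3, h4⟩
    · rw [h3]
      refine rct_key l m g Φ hΦ hm m2 t (r' ++ rest) ?_ y ?_ ht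
      · rw [h2, h4, List.append_assoc, List.cons_append]
      · intro f hf
        refine hx f ?_
        rw [h1, h4]
        exact List.mem_append_right _ (List.mem_append_left _ hf)
    · cases c with
      | nil =>
        rw [List.append_nil] at h3
        rw [List.nil_append] at h4
        rw [← h3]
        have h5 := rct_key l m g Φ hΦ hm [] t (r' ++ rest) (by
          rw [h2, ← h4, List.nil_append, List.cons_append]) y
          (fun f hf => absurd hf List.not_mem_nil) ht
        rwa [List.append_nil] at h5
      | cons s c =>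
        rw [List.cons_append] at h4
        obtain ⟨rfl, -⟩ := List.cons.inj h4
        exact hreg acc' t c h3
  · -- `l = acc ++ c`
    refine hl acc c h1 x hx ?_
    rw [h2, List.prod_append, map_mul, map_mul] at hne
    rw [map_mul]
    exact mul_ne_zero (left_ne_zero_of_mul (left_ne_zero_of_mul hne)) (right_ne_zero_of_mul hne)

end

end Pool.Agent.Lib.MP_ae0f86_nt.F
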