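import Mathlib
import Pool.Agent.Lib.MP_ae0f86_nt.F.Stm

/-!
# MP_ae0f86_nt, project FEYNMAN: two forms of the independence of gradients (piece reg)
-/

open CategoryTheory CategoryTheory.Limits MvPolynomial Opposite MonoidalCategory

universe v u

namespace Pool.Agent.Lib.MP_ae0f86_nt.F

noncomputable section

private theorem reg_snoc {α V k : Type} [Field k] [AddCommGroup V] [Module k V] (G : α → V)
    (l : List α) (t : α) :
    LinearIndependent k (fun a : Fin (l ++ [t]).length => G ((l ++ [t]).get a)) ↔
      LinearIndependent k (fun a : Fin l.length => G (l.get a)) ∧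
        G t ∉ Submodule.span k {v | ∃ f ∈ l, v = G f} := by
  have hl : l.length + 1 = (l ++ [t]).length := by simp
  have hr : Set.range (fun a : Fin l.length => G (l.get a)) = {v | ∃ f ∈ l, v = G f} := by
    ext v
    constructor
    · rintro ⟨a, rfl⟩
      exact ⟨l.get a, List.get_mem l a, rfl⟩
    · rintro ⟨f, hf, rfl⟩
      obtain ⟨a, ha⟩ := List.get_of_mem hf
      exact ⟨a, by simp only [ha]⟩
  have h1 : (fun a : Fin (l ++ [t]).length => G ((l ++ [t]).get a)) ∘ (finCongr hl) =
      (Fin.snoc (fun a : Fin l.length => G (l.get a)) (G t) : Fin (l.length + 1) → V) := by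
    funext a
    refine Fin.lastCases ?_ (fun b => ?_) a
    · rw [Fin.snoc_last]
      simp
    · rw [Fin.snoc_castSucc]
      simp
  rw [← linearIndependent_equiv' (finCongr hl) h1, linearIndependent_finSnoc, hr]

private theorem reg_last {α : Type} {l acc rest : List α} {t s : α}
    (h : l ++ [t] = acc ++ s :: rest) :
    (rest = [] ∧ acc = l ∧ s = t) ∨ ∃ r, rest = r ++ [t] ∧ l = acc ++ s :: r := by
  rcases List.eq_nil_or_concat rest with rfl | ⟨r, b, rfl⟩
  · left
    have h' : l ++ [t] = acc ++ [s] := h
    obtain ⟨h1, h2⟩ := List.append_inj' h' rfl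
    refine ⟨rfl, h1.symm, ?_⟩
    simpa using h2.symm
  · right
    have h' : l ++ [t] = (acc ++ s :: r) ++ [b] := by
      rw [h]; simp
    obtain ⟨h1, h2⟩ := List.append_inj' h' rfl
    have h3 : t = b := by simpa using h2
    subst h3
    exact ⟨r, by simp, h1⟩

theorem p_reg : S_reg := by
  intro k _ ι l
  refine ⟨?_, ?_⟩
  · intro x
    induction l using List.reverseRecOn with
    | nil =>
      constructor
      · intro _
        exact linearIndependent_empty_type (ι := Fin 0)
      · intro _ acc t rest e
        have := congrArg List.length e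
        simp at this
    | append_singleton l t ih =>
      rw [reg_snoc (grad x) l t, ← ih]
      constructor
      · intro h
        refine ⟨fun acc s rest e => h acc s (rest ++ [t]) (by rw [e]; simp), h l t [] rfl⟩
      · rintro ⟨h1, h2⟩ acc s rest e
        rcases reg_last e with ⟨_, rfl, rfl⟩ | ⟨r, _, e2⟩
        · exact h2
        · exact h1 acc s r e2
  · intro h acc rest e x hx _ acc' t r' e'
    have hx' : x ∈ zs acc' := fun f hf => hx f (by rw [e']; exact List.mem_append_left _ hf)
    have ht : eval x t = 0 := hx t (by rw [e']; simp)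
    exact h acc' t (r' ++ rest) (by rw [e, e']; simp) x hx' ht

end

end Pool.Agent.Lib.MP_ae0f86_nt.F
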