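import Mathlib
import Pool.Agent.Lib.MP_ae0f86_nt.F.Stm

/-!
# MP_ae0f86_nt, project FEYNMAN, piece reidx: renaming the variables of walls
-/

open CategoryTheory CategoryTheory.Limits MvPolynomial Opposite MonoidalCategory

universe v u

namespace Pool.Agent.Lib.MP_ae0f86_nt.F

noncomputable section

private theorem reidx_iso {k : Type} [Field k] {ι κ : Type} [Finite ι] [Finite κ] (ε : ι ≃ κ)
    {X : Set (ι → k)} (hX : IsAlg X) {X' : Set (κ → k)} (hX' : IsAlg X')
    (h : X' = {z | z ∘ ε ∈ X}) : Nonempty (AffPair.abs hX ≅ AffPair.abs hX') := by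
  subst h
  let f : AffPair.abs hX' ⟶ AffPair.abs hX :=
    ⟨fun z => ⟨z.1 ∘ ε, z.2⟩, ⟨fun j => MvPolynomial.X (ε j), by intro x j; simp⟩,
      fun x hx => hx.elim⟩
  let g : AffPair.abs hX ⟶ AffPair.abs hX' :=
    ⟨fun z => ⟨z.1 ∘ ε.symm, by
        show (z.1 ∘ ε.symm) ∘ ε ∈ X
        have : (z.1 ∘ ε.symm) ∘ ε = z.1 := by
          funext i
          simp
        rw [this]
        exact z.2⟩, ⟨fun j => MvPolynomial.X (ε.symm j), by intro x j; simp⟩,
      fun x hx => hx.elim⟩
  exact ⟨⟨g, f, AffPair.hom_ext _ _ fun z => by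
      show (z.1 ∘ ε.symm) ∘ ε = z.1
      funext i
      simp, AffPair.hom_ext _ _ fun z => by
      show (z.1 ∘ ε) ∘ ε.symm = z.1
      funext i
      simp⟩⟩

private theorem reidx_wl {k : Type} [Field k] {Λ Λ' : Type} (ε : Λ ≃ Λ') (S : List (Wall Λ)) :
    wl k (S.map fun d => ⟨d.mul, ε d.i, ε d.j, ε d.l, d.d⟩) = (wl k S).map (rename ε) := by
  unfold wl
  rw [List.map_map, List.map_map]
  refine List.map_congr_left fun c _ => ?_
  show Wall.poly _ k = rename ε (Wall.poly c k)
  unfold Wall.poly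
  split_ifs <;> simp

private theorem reidx_grad {k : Type} [Field k] {Λ Λ' : Type} (ε : Λ ≃ Λ') (x : Λ' → k)
    (f : MvPolynomial Λ k) : (grad x (rename ε f)) ∘ ε = grad (x ∘ ε) f := by
  funext i
  show eval x (pderiv (ε i) (rename ε f)) = eval (x ∘ ε) (pderiv i f)
  rw [pderiv_rename ε.injective, eval_rename]

/-- **FY reidx.** -/
theorem p_reidx : S_reidx := by
  intro k _ Λ Λ' _ _ ε S
  constructor
  · refine reidx_iso ε _ _ ?_
    rw [reidx_wl]
    ext z
    constructor
    · intro hz f hf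
      have := hz (rename ε f) (List.mem_map_of_mem hf)
      rwa [eval_rename] at this
    · intro hz f' hf'
      obtain ⟨f, hf, rfl⟩ := List.mem_map.1 hf'
      rw [eval_rename]
      exact hz f hf
  · intro hC
    rw [reidx_wl]
    intro acc' t' rest' h x hx ht hspan
    obtain ⟨acc, l₂, h1, h2, h3⟩ := List.map_eq_append_iff.1 h
    obtain ⟨t, rest, h4, h5, h6⟩ := List.map_eq_cons_iff.1 h3
    subst h2 h5 h4
    refine hC acc t rest h1 (x ∘ ε) ?_ ?_ ?_
    · intro f hf
      have := hx (rename ε f) (List.mem_map_of_mem hf)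
      rwa [eval_rename] at this
    · rwa [eval_rename] at ht
    · have h7 := Submodule.mem_map_of_mem (f := LinearMap.funLeft k k ε) hspan
      rw [Submodule.map_span] at h7
      have h8 : LinearMap.funLeft k k ε (grad x (rename ε t)) = grad (x ∘ ε) t :=
        reidx_grad ε x t
      rw [h8] at h7
      refine Submodule.span_mono ?_ h7
      rintro _ ⟨v, ⟨f', hf', rfl⟩, rfl⟩
      obtain ⟨f, hf, rfl⟩ := List.mem_map.1 hf'
      exact ⟨f, hf, reidx_grad ε x f⟩

end

end Pool.Agent.Lib.MP_ae0f86_nt.F
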