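import Pool.Agent.Lib.MP_ae0f86_nt.F.Stm

/-!
# MP_ae0f86_nt, project FEYNMAN, piece `res`: one residue
-/

open CategoryTheory CategoryTheory.Limits MvPolynomial Opposite MonoidalCategory

universe v u

namespace Pool.Agent.Lib.MP_ae0f86_nt.F

noncomputable section

variable {k : Type} [Field k]

private theorem res_absEq {ι : Type} [Finite ι] {X X' : Set (ι → k)} (hX : IsAlg X)
    (hX' : IsAlg X') (h : X = X') : AffPair.abs hX = AffPair.abs hX' := by
  subst h; rfl


variable {A : Type u} [Category.{v} A] [Abelian A] [MonoidalCategory A]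

/-- The connecting map to `h^{q+1}(W, W \ D)` is epi if `h^{q+1}(W) = 0`. -/
private theorem res_epi (T : CohTheory k A) (P : DivPair k) (q : ℤ)
    (hz : haveI := P.fin; IsZero (Obj (T.h (q + 1)) (AffPair.abs P.algW))) :
    haveI := P.fin
    ∃ f : (T.h q).obj (op (AffPair.abs P.U.algY)) ⟶ (T.h (q + 1)).obj (op P.U), Epi f := by
  have := P.fin
  let Tr : AffTriple k :=
    { ι := P.ι ⊕ Unit
      fin := inferInstance
      X := P.U.X
      Y := P.U.Y
      Z := ∅
      algX := P.U.algX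
      algY := P.U.algY
      algZ := IsAlg.empty
      subY := P.U.sub
      subZ := Set.empty_subset _ }
  have hXZ : IsZero (Obj (T.h (q + 1)) Tr.XZ) := by
    let P0 : AffPair k := AffPair.abs P.algW
    have h1 : IsZero (Obj (T.h (q + 1)) (P0.cyl Unit)) := by
      have := T.homotopy (q + 1) P0 Unit
      exact hz.of_iso (asIso (Map (T.h (q + 1)) (P0.proj Unit))).symm
    let a : Tr.XZ ⟶ P0.cyl Unit := ⟨fun x => x, IsPoly.id _, fun _ hx => hx.elim⟩
    let b : P0.cyl Unit ⟶ Tr.XZ := ⟨fun x => x, IsPoly.id _, fun _ hx => hx.elim⟩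
    have hab : IsIso a := isIso_of_inv a b (fun _ => rfl) (fun _ => rfl)
    exact h1.of_iso (asIso ((T.h (q + 1)).map a.op)).symm
  obtain ⟨w, hw⟩ := T.exact_XY q Tr
  exact ⟨T.δ q Tr, hw.epi_f (hXZ.eq_of_tgt _ _)⟩

private theorem res_thom (T : CohTheory k A) (P : DivPair k) (i j : ℤ) (h : j = i + 2) :
    Nonempty ((T.h j).obj (op P.U) ≅ (T.h i).obj (op P.D) ⊗ T.L) := by
  subst h
  exact ⟨T.thom i P⟩

/-- `{(x, u, w) | x ∈ zs l, u g(x) = 1, w t(x) = 1} ≅ us l (t * g)`. -/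
private theorem res_iso {ι : Type} [Finite ι] (l : List (MvPolynomial ι k))
    (t g : MvPolynomial ι k) (Y : Set ((ι ⊕ Unit) ⊕ Unit → k))
    (hY : Y = {z | z ∘ Sum.inl ∈ us l g ∧
      z (Sum.inr ()) * eval (z ∘ Sum.inl) (rename Sum.inl t) = 1}) (hYa : IsAlg Y) :
    Nonempty (AffPair.abs hYa ≅ AffPair.abs (us_alg l (t * g))) := by
  subst hY
  have key : ∀ z : (ι ⊕ Unit) ⊕ Unit → k,
      (z ∘ Sum.inl ∈ us l g ∧ z (Sum.inr ()) * eval (z ∘ Sum.inl) (rename Sum.inl t) = 1) ↔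
      (fun i => z (Sum.inl (Sum.inl i))) ∈ zs l ∧
        z (Sum.inl (Sum.inr ())) * eval (fun i => z (Sum.inl (Sum.inl i))) g = 1 ∧
        z (Sum.inr ()) * eval (fun i => z (Sum.inl (Sum.inl i))) t = 1 := by
    intro z
    rw [eval_rename]
    exact and_assoc
  have key' : ∀ z : ι ⊕ Unit → k, z ∈ us l (t * g) ↔
      (fun i => z (Sum.inl i)) ∈ zs l ∧
        z (Sum.inr ()) * (eval (fun i => z (Sum.inl i)) t * eval (fun i => z (Sum.inl i)) g) =
          1 := by
    intro z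
    rw [← map_mul]
    exact Iff.rfl
  let F : ι ⊕ Unit → MvPolynomial ((ι ⊕ Unit) ⊕ Unit) k := fun j => j.elim
    (fun i => MvPolynomial.X (Sum.inl (Sum.inl i)))
    (fun _ => MvPolynomial.X (Sum.inl (Sum.inr ())) * MvPolynomial.X (Sum.inr ()))
  let G : (ι ⊕ Unit) ⊕ Unit → MvPolynomial (ι ⊕ Unit) k := fun j => j.elim
    (fun j => j.elim (fun i => MvPolynomial.X (Sum.inl i))
      (fun _ => MvPolynomial.X (Sum.inr ()) * rename Sum.inl t))
    (fun _ => MvPolynomial.X (Sum.inr ()) * rename Sum.inl g)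
  have hF : ∀ z ∈ {z : (ι ⊕ Unit) ⊕ Unit → k | z ∘ Sum.inl ∈ us l g ∧
      z (Sum.inr ()) * eval (z ∘ Sum.inl) (rename Sum.inl t) = 1},
      (fun j => eval z (F j)) ∈ us l (t * g) := by
    intro z hz
    obtain ⟨h1, h2, h3⟩ := (key z).1 hz
    rw [key']
    simp only [F, Sum.elim_inl, Sum.elim_inr, eval_X, map_mul]
    refine ⟨h1, ?_⟩
    linear_combination (z (Sum.inr ()) * eval (fun i => z (Sum.inl (Sum.inl i))) t) * h2 + h3
  have hG : ∀ z ∈ us l (t * g), (fun j => eval z (G j)) ∈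
      {z : (ι ⊕ Unit) ⊕ Unit → k | z ∘ Sum.inl ∈ us l g ∧
      z (Sum.inr ()) * eval (z ∘ Sum.inl) (rename Sum.inl t) = 1} := by
    intro z hz
    obtain ⟨h1, h2⟩ := (key' z).1 hz
    refine (key _).2 ?_
    simp only [G, Sum.elim_inl, Sum.elim_inr, eval_X, map_mul, eval_rename]
    refine ⟨h1, ?_, ?_⟩
    · have h3 : (z ∘ Sum.inl) = fun i => z (Sum.inl i) := rfl
      rw [h3]
      linear_combination h2
    · have h3 : (z ∘ Sum.inl) = fun i => z (Sum.inl i) := rfl
      rw [h3]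
      linear_combination h2
  have hFl : ∀ z : (ι ⊕ Unit) ⊕ Unit → k,
      (fun j => eval z (F j)) ∘ Sum.inl = fun i => z (Sum.inl (Sum.inl i)) := by
    intro z; funext i; simp [F]
  have hFr : ∀ z : (ι ⊕ Unit) ⊕ Unit → k,
      eval z (F (Sum.inr ())) = z (Sum.inl (Sum.inr ())) * z (Sum.inr ()) := by
    intro z; simp [F]
  have hG1 : ∀ z : ι ⊕ Unit → k, eval z (G (Sum.inl (Sum.inr ()))) =
      z (Sum.inr ()) * eval (z ∘ Sum.inl) t := by
    intro z; simp [G, eval_rename]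
  have hG2 : ∀ z : ι ⊕ Unit → k, eval z (G (Sum.inr ())) =
      z (Sum.inr ()) * eval (z ∘ Sum.inl) g := by
    intro z; simp [G, eval_rename]
  refine ⟨⟨AffPair.mk' _ _ F hF (fun _ hx => hx.elim), AffPair.mk' _ _ G hG (fun _ hx => hx.elim),
    AffPair.hom_ext _ _ ?_, AffPair.hom_ext _ _ ?_⟩⟩
  · intro z
    obtain ⟨h1, h2, h3⟩ := (key z.1).1 z.2
    funext j
    rcases j with (i | u) | u
    · show eval (fun j => eval z.1 (F j)) (G (Sum.inl (Sum.inl i))) = z.1 (Sum.inl (Sum.inl i))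
      simp [F, G]
    · show eval (fun j => eval z.1 (F j)) (G (Sum.inl (Sum.inr ()))) = z.1 (Sum.inl (Sum.inr ()))
      rw [hG1, hFl, hFr]
      linear_combination z.1 (Sum.inl (Sum.inr ())) * h3
    · show eval (fun j => eval z.1 (F j)) (G (Sum.inr ())) = z.1 (Sum.inr ())
      rw [hG2, hFl, hFr]
      linear_combination z.1 (Sum.inr ()) * h2
  · intro z
    obtain ⟨h1, h2⟩ := (key' z.1).1 z.2
    funext j
    rcases j with i | u
    · show eval (fun j => eval z.1 (G j)) (F (Sum.inl i)) = z.1 (Sum.inl i)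
      simp [F, G]
    · show eval (fun j => eval z.1 (G j)) (F (Sum.inr ())) = z.1 (Sum.inr ())
      rw [hFr, hG1, hG2]
      have h3 : (z.1 ∘ Sum.inl) = fun i => z.1 (Sum.inl i) := rfl
      rw [h3]
      linear_combination z.1 (Sum.inr ()) * h2

theorem p_res (T : CohTheoryL k A) (usci : S_usci) : S_res T := by
  intro ι _ l t g hl hlt
  let P : DivPair k :=
    { ι := ι ⊕ Unit
      fin := inferInstance
      W := us l g
      algW := us_alg l g
      t := rename Sum.inl t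
      c := l.length + 1
      cut := (usci l g hl).2 t hlt }
  set q : ℤ := (Nat.card ι : ℤ) - l.length with hq
  have hz : IsZero (Obj (T.h (q + 1)) (AffPair.abs P.algW)) := by
    have h1 : AffPair.abs P.algW = AffPair.abs (zs_alg (ul l g)) :=
      res_absEq _ _ (us_eq l g)
    have h2 := T.artin (q + 1) (ul l g) (usci l g hl).1 (by
      rw [Nat.card_sum, ul, List.length_append, List.length_map]
      simp only [Nat.card_unique, List.length_singleton]
      push_cast
      omega)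
    exact h2.of_iso (eqToIso (congrArg (fun Q => (T.h (q + 1)).obj (op Q)) h1))
  obtain ⟨f, hf⟩ := res_epi T.toCohTheory P q hz
  obtain ⟨e1⟩ := res_iso l t g P.U.Y rfl P.U.algY
  obtain ⟨e2⟩ := res_thom T.toCohTheory P ((Nat.card ι : ℤ) - (l.length + 1)) (q + 1)
    (by rw [hq]; ring)
  have h3 : P.D = AffPair.abs (us_alg (l ++ [t]) g) := by
    refine res_absEq _ _ ?_
    ext z
    simp only [Set.mem_inter_iff, Set.mem_ofPred_eq, P, us, zs, List.mem_append,
      List.mem_singleton, eval_rename]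
    constructor
    · rintro ⟨⟨h1, h2⟩, h3⟩
      refine ⟨?_, h2⟩
      rintro f (hf | rfl)
      · exact h1 f hf
      · exact h3
    · rintro ⟨h1, h2⟩
      exact ⟨⟨fun f hf => h1 f (Or.inl hf), h2⟩, h1 t (Or.inr rfl)⟩
  let e3 : (T.h ((Nat.card ι : ℤ) - (l.length + 1))).obj (op P.D) ≅
      (T.h ((Nat.card ι : ℤ) - (l.length + 1))).obj (op (AffPair.abs (us_alg (l ++ [t]) g))) :=
    eqToIso (congrArg (fun Q => (T.h ((Nat.card ι : ℤ) - (l.length + 1))).obj (op Q)) h3)
  refine ⟨((T.h q).mapIso e1.op).hom ≫ f ≫ e2.hom ≫ (whiskerRightIso e3 T.L).hom, ?_⟩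
  have := hf
  infer_instance

end

end Pool.Agent.Lib.MP_ae0f86_nt.F
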