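import Pool.Agent.Lib.MP_ae0f86_nt.F.Stm

/-!
# MP_ae0f86_nt, project FEYNMAN: [FY rl] the residue lemma
-/

open CategoryTheory CategoryTheory.Limits MvPolynomial Opposite MonoidalCategory

universe v u

namespace Pool.Agent.Lib.MP_ae0f86_nt.F

noncomputable section

attribute [local instance] CategoryTheory.Abelian.hasFiniteBiproducts

section Chain

variable {k : Type} [Field k]

private theorem rl_reg_init {ι : Type} {acc : List (MvPolynomial ι k)} {t : MvPolynomial ι k}
    {x : ι → k} (h : Reg (acc ++ [t]) x) : Reg acc x := by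
  intro acc' t' r' he
  refine h acc' t' (r' ++ [t]) ?_
  rw [he, List.append_assoc, List.cons_append]

private theorem rl_smooth2 (reg : S_reg) {ι : Type} {acc rest : List (MvPolynomial ι k)}
    {t g : MvPolynomial ι k} (h : RChain (acc ++ t :: rest) g) :
    SmoothOn (acc ++ [t]) (rest.prod * g) := by
  intro x hx hg
  refine ((reg _).1 x).1 (h (acc ++ [t]) rest ?_ x hx hg)
  rw [List.append_assoc]
  rfl

private theorem rl_smooth1 (reg : S_reg) {ι : Type} {acc rest : List (MvPolynomial ι k)}
    {t g : MvPolynomial ι k} (h : RChain (acc ++ t :: rest) g) :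
    SmoothOn acc (rest.prod * g) := by
  intro x hx hg
  refine ((reg _).1 x).1 ?_
  by_cases ht : eval x t = 0
  · refine rl_reg_init (t := t) (h (acc ++ [t]) rest ?_ x ?_ hg)
    · rw [List.append_assoc]
      rfl
    · intro f hf
      rw [List.mem_append, List.mem_singleton] at hf
      rcases hf with hf | rfl
      · exact hx f hf
      · exact ht
  · refine h acc (t :: rest) rfl x hx ?_
    rw [List.prod_cons, mul_assoc, map_mul]
    exact mul_ne_zero ht hg

end Chain

section Res

variable {k : Type} [Field k] {A : Type u} [Category.{v} A] [Abelian A] [MonoidalCategory A]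

/-- the induction over the list -/
private theorem rl_ind [SymmetricCategory A] (T : CohTheoryL k A) (reg : S_reg) (res : S_res T)
    (tm : S_tensmono T.toCohTheory) {ι : Type} [Finite ι] (g : MvPolynomial ι k)
    (rest : List (MvPolynomial ι k)) :
    ∀ (acc m : List (MvPolynomial ι k)) (g' : MvPolynomial ι k) (q r : ℤ),
      RChain (acc ++ rest) g → m = acc ++ rest → g' = rest.prod * g →
      q = (Nat.card ι : ℤ) - acc.length → r = (Nat.card ι : ℤ) - m.length →
      ∃ f : (T.h q).obj (op (AffPair.abs (us_alg acc g'))) ⟶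
        (T.h r).obj (op (AffPair.abs (us_alg m g))) ⊗ tpow T.L rest.length, Epi f := by
  induction rest with
  | nil =>
    intro acc m g' q r _ hm hg hq hr
    rw [List.append_nil] at hm
    subst hm
    rw [List.prod_nil, one_mul] at hg
    subst hg
    have hqr : q = r := by rw [hq, hr]
    subst hqr
    exact ⟨(ρ_ _).inv, inferInstance⟩
  | cons t rest ih =>
    intro acc m g' q r hch hm hg hq hr
    have hch1 : RChain ((acc ++ [t]) ++ rest) g := by
      rw [List.append_assoc]
      exact hch
    obtain ⟨f1, hf1⟩ := res acc t (rest.prod * g) (rl_smooth1 reg hch) (rl_smooth2 reg hch)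
    obtain ⟨f2, hf2⟩ := ih (acc ++ [t]) m (rest.prod * g) ((Nat.card ι : ℤ) - (acc.length + 1)) r
      hch1 (by rw [hm, List.append_assoc]; rfl) rfl
      (by rw [List.length_append, List.length_singleton, Nat.cast_add, Nat.cast_one]) hr
    rw [List.prod_cons, mul_assoc] at hg
    subst hg
    subst hq
    have hf3 : Epi (f2 ▷ tpow T.L 1) := (tm f2 1).2 hf2
    exact ⟨f1 ≫ (_ ◁ (λ_ T.L).inv) ≫ (f2 ▷ tpow T.L 1) ≫ (_ ◁ (λ_ T.L).hom) ≫ (α_ _ _ _).hom,
      epi_comp' hf1 (epi_comp' inferInstance (epi_comp' hf3 (epi_comp' inferInstance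
        inferInstance)))⟩

theorem p_rl [SymmetricCategory A] (T : CohTheoryL k A) (reg : S_reg) (res : S_res T)
    (tm : S_tensmono T.toCohTheory) : S_rl T := by
  intro ι _ l g hl
  exact rl_ind T reg res tm g l [] l (l.prod * g) (Nat.card ι) ((Nat.card ι : ℤ) - l.length)
    hl rfl rfl (by rw [List.length_nil, Nat.cast_zero, sub_zero]) rfl

end Res

end

end Pool.Agent.Lib.MP_ae0f86_nt.F
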