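import Pool.Agent.Lib.MP_ae0f86_nt.F.Stm
import Mathlib

/-!
# MP_ae0f86_nt, project FEYNMAN, piece usci: the equations of `us l g`
-/

open CategoryTheory CategoryTheory.Limits MvPolynomial Opposite MonoidalCategory

universe v u

namespace Pool.Agent.Lib.MP_ae0f86_nt.F

noncomputable section

section usci

variable {k : Type} [Field k] {ι : Type}

/-- extension by zero -/
private def usci_ext : (ι → k) →ₗ[k] (ι ⊕ Unit → k) where
  toFun w := Sum.elim w (fun _ => 0)
  map_add' w w' := by
    funext i
    rcases i with i | i <;> simp
  map_smul' c w := by
    funext i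
    rcases i with i | i <;> simp

private theorem usci_ext_inj : Function.Injective (usci_ext (k := k) (ι := ι)) := by
  intro w w' h
  funext i
  have := congrFun h (Sum.inl i)
  simpa [usci_ext] using this

private theorem usci_grad (z : ι ⊕ Unit → k) (f : MvPolynomial ι k) :
    grad z (rename Sum.inl f) = usci_ext (grad (z ∘ Sum.inl) f) := by
  funext i
  rcases i with i | i
  · show eval z (pderiv (Sum.inl i) (rename Sum.inl f)) = eval (z ∘ Sum.inl) (pderiv i f)
    rw [pderiv_rename Sum.inl_injective, eval_rename]
  · show eval z (pderiv (Sum.inr i) (rename Sum.inl f)) = 0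
    rw [pderiv_eq_zero_of_notMem_vars, map_zero]
    intro h
    classical
    have h2 := vars_rename Sum.inl f h
    rw [Finset.mem_image] at h2
    obtain ⟨j, -, hj⟩ := h2
    cases hj

private theorem usci_last (z : ι ⊕ Unit → k) (g : MvPolynomial ι k) :
    grad z (MvPolynomial.X (Sum.inr ()) * rename Sum.inl g - 1) (Sum.inr ()) =
      eval (z ∘ Sum.inl) g := by
  have h0 : eval z (pderiv (Sum.inr ()) (rename Sum.inl g)) = 0 :=
    congrFun (usci_grad z g) (Sum.inr ())
  show eval z (pderiv (Sum.inr ()) (MvPolynomial.X (Sum.inr ()) * rename Sum.inl g - 1)) = _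
  rw [map_sub, pderiv_one, sub_zero, pderiv_mul, pderiv_X_self, map_add, map_mul, map_mul, h0,
    map_one, eval_rename]
  ring

private theorem usci_ind {κ : Type} (f : κ → MvPolynomial ι k) (g : MvPolynomial ι k)
    (z : ι ⊕ Unit → k) (hg : eval (z ∘ Sum.inl) g ≠ 0)
    (h : LinearIndependent k fun a => grad (z ∘ Sum.inl) (f a)) :
    LinearIndependent k fun o : Option κ => grad z (o.elim
      (MvPolynomial.X (Sum.inr ()) * rename Sum.inl g - 1) (fun a => rename Sum.inl (f a))) := by
  rw [linearIndependent_option]
  constructor
  · have h1 := h.map' usci_ext (LinearMap.ker_eq_bot.mpr usci_ext_inj)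
    have e : (usci_ext ∘ fun a => grad (z ∘ Sum.inl) (f a)) =
        ((fun o : Option κ => grad z (o.elim
          (MvPolynomial.X (Sum.inr ()) * rename Sum.inl g - 1) (fun a => rename Sum.inl (f a)))) ∘
            (fun a => some a)) := by
      funext a
      exact (usci_grad z (f a)).symm
    rw [e] at h1
    exact h1
  · intro hmem
    have hle : Submodule.span k (Set.range ((fun o : Option κ => grad z (o.elim
        (MvPolynomial.X (Sum.inr ()) * rename Sum.inl g - 1) (fun a => rename Sum.inl (f a)))) ∘
          (fun a => some a))) ≤ LinearMap.ker (LinearMap.proj (Sum.inr ()) :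
            (ι ⊕ Unit → k) →ₗ[k] k) := by
      rw [Submodule.span_le]
      rintro w ⟨a, rfl⟩
      show grad z (rename Sum.inl (f a)) (Sum.inr ()) = 0
      rw [usci_grad]
      rfl
    have h2 := hle hmem
    have h3 : grad z (MvPolynomial.X (Sum.inr ()) * rename Sum.inl g - 1) (Sum.inr ()) = 0 := h2
    rw [usci_last] at h3
    exact hg h3

private theorem usci_comp {κ I : Type} (f : κ → MvPolynomial ι k) (g : MvPolynomial ι k)
    (z : ι ⊕ Unit → k) (hg : eval (z ∘ Sum.inl) g ≠ 0)
    (h : LinearIndependent k fun a => grad (z ∘ Sum.inl) (f a))
    (w : I → ι ⊕ Unit → k) (m : I → Option κ) (hm : Function.Injective m)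
    (hw : ∀ i, w i = grad z ((m i).elim
      (MvPolynomial.X (Sum.inr ()) * rename Sum.inl g - 1) (fun a => rename Sum.inl (f a)))) :
    LinearIndependent k w := by
  have h1 := (usci_ind f g z hg h).comp m hm
  have e : w = (fun o : Option κ => grad z (o.elim
      (MvPolynomial.X (Sum.inr ()) * rename Sum.inl g - 1) (fun a => rename Sum.inl (f a)))) ∘ m :=
    funext hw
  rw [e]
  exact h1

/-- the number of a member of `ul l g` -/
private def usci_m (N M : ℕ) (h : N ≤ M) {n : ℕ} (a : Fin n) : Option (Fin M) :=
  if h' : (a : ℕ) < N then some ⟨a, lt_of_lt_of_le h' h⟩ else none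

private theorem usci_m_inj (N M : ℕ) (h : N ≤ M) {n : ℕ} (hn : n ≤ N + 1) :
    Function.Injective (usci_m N M h (n := n)) := by
  intro a b hab
  unfold usci_m at hab
  by_cases ha : (a : ℕ) < N
  · by_cases hb : (b : ℕ) < N
    · rw [dif_pos ha, dif_pos hb] at hab
      have := Fin.mk.inj (Option.some.inj hab)
      exact Fin.ext this
    · rw [dif_pos ha, dif_neg hb] at hab
      cases hab
  · by_cases hb : (b : ℕ) < N
    · rw [dif_neg ha, dif_pos hb] at hab
      cases hab
    · apply Fin.ext
      have h1 := a.2
      have h2 := b.2
      omega

private theorem usci_len (l : List (MvPolynomial ι k)) (g : MvPolynomial ι k) :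
    (ul l g).length = l.length + 1 := by
  simp [ul]

private theorem usci_get (l : List (MvPolynomial ι k)) (g : MvPolynomial ι k)
    (a : Fin (ul l g).length) :
    (ul l g).get a = ((usci_m l.length l.length le_rfl a).elim
      (MvPolynomial.X (Sum.inr ()) * rename Sum.inl g - 1)
        (fun a => rename Sum.inl (l.get a)) : MvPolynomial (ι ⊕ Unit) k) := by
  have ha : (a : ℕ) < l.length + 1 := lt_of_lt_of_eq a.2 (usci_len l g)
  unfold usci_m
  by_cases h : (a : ℕ) < l.length
  · rw [dif_pos h]
    show (ul l g)[(a : ℕ)] = rename Sum.inl (l[(a : ℕ)])
    have h2 : (a : ℕ) < (l.map (rename (Sum.inl : ι → ι ⊕ Unit))).length := by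
      rw [List.length_map]; exact h
    unfold ul
    rw [List.getElem_append_left h2, List.getElem_map]
  · rw [dif_neg h]
    show (ul l g)[(a : ℕ)] = _
    unfold ul
    rw [List.getElem_append_right (by rw [List.length_map]; omega)]
    simp

end usci

theorem p_usci : S_usci := by
  intro k _ ι l g hl
  have hgz : ∀ z ∈ us l g, eval (z ∘ Sum.inl) g ≠ 0 := by
    intro z hz h0
    have := hz.2
    rw [h0, mul_zero] at this
    exact zero_ne_one this
  refine ⟨?_, ?_⟩
  · intro z hz
    rw [← us_eq] at hz
    refine usci_comp l.get g z (hgz z hz) (hl _ hz.1 (hgz z hz)) _ (usci_m l.length l.length le_rfl)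
      (usci_m_inj _ _ _ (le_of_eq (usci_len l g))) ?_
    intro a
    rw [usci_get]
  · intro t ht z hz
    refine ⟨fun a => (usci_m l.length l.length le_rfl a).elim
      (MvPolynomial.X (Sum.inr ()) * rename Sum.inl g - 1)
        (fun a => rename Sum.inl (l.get a)), 1, ?_, ?_, ?_⟩
    · rw [map_one]; exact one_ne_zero
    · intro z' _
      rw [us_eq]
      constructor
      · intro h a
        have h1 := h ((ul l g).get (Fin.cast (usci_len l g).symm a)) (List.get_mem _ _)
        rw [usci_get] at h1
        exact h1
      · intro h f hf
        obtain ⟨a, rfl⟩ := List.get_of_mem hf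
        have h1 := h (Fin.cast (usci_len l g) a)
        rw [usci_get]
        exact h1
    · by_cases h0 : eval z (rename Sum.inl t) = 0
      · have hx : z ∘ Sum.inl ∈ zs (l ++ [t]) := by
          intro f hf
          rw [List.mem_append, List.mem_singleton] at hf
          rcases hf with hf | rfl
          · exact hz.1 f hf
          · rw [eval_rename] at h0
            exact h0
        have hlen : (l ++ [t]).length = l.length + 1 := by simp
        refine usci_comp (l ++ [t]).get g z (hgz z hz) (ht _ hx (hgz z hz)) _
          (Sum.elim (usci_m l.length (l ++ [t]).length (by omega))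
            (fun _ => some ⟨l.length, by omega⟩)) ?_ ?_
        · intro a b hab
          rcases a with a | a <;> rcases b with b | b
          · have := usci_m_inj l.length (l ++ [t]).length (by omega) (n := l.length + 1) le_rfl hab
            rw [this]
          · exfalso
            simp only [Sum.elim_inl, Sum.elim_inr] at hab
            unfold usci_m at hab
            by_cases ha : (a : ℕ) < l.length
            · rw [dif_pos ha] at hab
              have := Fin.mk.inj (Option.some.inj hab)
              omega
            · rw [dif_neg ha] at hab
              cases hab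
          · exfalso
            simp only [Sum.elim_inl, Sum.elim_inr] at hab
            unfold usci_m at hab
            by_cases hb : (b : ℕ) < l.length
            · rw [dif_pos hb] at hab
              have := Fin.mk.inj (Option.some.inj hab)
              omega
            · rw [dif_neg hb] at hab
              cases hab
          · have : a = b := Subsingleton.elim _ _
            rw [this]
        · intro i
          rcases i with a | a
          · simp only [Sum.elim_inl]
            unfold usci_m
            by_cases ha : (a : ℕ) < l.length
            · rw [dif_pos ha, dif_pos ha]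
              show grad z (rename Sum.inl (l[(a : ℕ)])) =
                grad z (rename Sum.inl ((l ++ [t])[(a : ℕ)]'(by omega)))
              rw [List.getElem_append_left ha]
            · rw [dif_neg ha, dif_neg ha]
              rfl
          · simp only [Sum.elim_inr]
            show grad z (rename Sum.inl t) =
              grad z (rename Sum.inl ((l ++ [t])[l.length]'(by omega)))
            rw [List.getElem_append_right le_rfl]
            simp
      · refine usci_comp l.get g z (hgz z hz) (hl _ hz.1 (hgz z hz)) _
          (Sum.elim (usci_m l.length l.length le_rfl) (fun j => absurd j.2 h0)) ?_ ?_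
        · intro a b hab
          rcases a with a | a <;> rcases b with b | b
          · have := usci_m_inj l.length l.length le_rfl (n := l.length + 1) le_rfl hab
            rw [this]
          · exact absurd b.2 h0
          · exact absurd a.2 h0
          · exact absurd a.2 h0
        · intro i
          rcases i with a | a
          · rfl
          · exact absurd a.2 h0

end

end Pool.Agent.Lib.MP_ae0f86_nt.F
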