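import Mathlib
import Pool.Agent.Lib.MP_ae0f86_nt.F.Stm

/-!
# MP_ae0f86_nt, project FEYNMAN: the propagators of the wires are a chain
-/

open MvPolynomial

namespace Pool.Agent.Lib.MP_ae0f86_nt.F

noncomputable section

namespace WChain

variable {k : Type} [Field k] {W : Type}

/-- the gradient of the square -/
def J (v : Fin 4 → k) : Fin 4 → k := ![v 1, v 0, v 3, v 2]

omit [Field k] in
lemma J_inj {u v : Fin 4 → k} (h : J u = J v) : u = v := by
  funext i
  have h0 := congrFun h 0
  have h1 := congrFun h 1
  have h2 := congrFun h 2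
  have h3 := congrFun h 3
  simp only [J, Matrix.cons_val] at h0 h1 h2 h3
  fin_cases i
  · exact h1
  · exact h0
  · exact h3
  · exact h2

lemma J_add (u v : Fin 4 → k) : J (u + v) = J u + J v := by
  funext i
  fin_cases i <;> simp [J]

lemma J_smul (a : k) (v : Fin 4 → k) : J (a • v) = a • J v := by
  funext i
  fin_cases i <;> simp [J]

lemma eval_prop (x : W × Fin 4 → k) (w : W) (p : Fin 4 → k) :
    eval x (prop w p) = sq (fun i => x (w, i) + p i) := by
  simp [prop, sq]

lemma grad_prop (x : W × Fin 4 → k) (w : W) (p : Fin 4 → k) (i : Fin 4) :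
    grad x (prop w p) (w, i) = J (fun i => x (w, i) + p i) i := by
  classical
  unfold grad prop sq
  simp only [map_add, Derivation.leibniz, pderiv_C, smul_eq_mul, pderiv_X, map_mul,
    eval_X, eval_C, map_zero]
  fin_cases i <;> simp [J]

lemma grad_prop_ne (x : W × Fin 4 → k) {w w' : W} (h : w' ≠ w) (p : Fin 4 → k)
    (i : Fin 4) : grad x (prop w' p) (w, i) = 0 := by
  classical
  unfold grad prop sq
  simp only [map_add, Derivation.leibniz, pderiv_C, smul_eq_mul, pderiv_X, map_mul,
    eval_X, eval_C, map_zero]
  have e : ∀ j : Fin 4, ((w', j) : W × Fin 4) ≠ (w, i) := fun j hj => h (congrArg Prod.fst hj)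
  simp [e]

/-- the position of a member of the list -/
lemma pos_lemma {T : Type} (F : W → Fin 3 → T) : ∀ (ws : List W), ws.Nodup →
    ∀ (acc : List T) (t : T) (rest : List T),
    ws.flatMap (fun w => [F w 0, F w 1, F w 2]) = acc ++ t :: rest →
    ∃ (w : W) (j : Fin 3), w ∈ ws ∧ t = F w j ∧ (∀ i < j, F w i ∈ acc) ∧
      ∀ f ∈ acc, (∃ w' i, w' ≠ w ∧ f = F w' i) ∨ ∃ i < j, f = F w i := by
  intro ws
  induction ws with
  | nil =>
    intro _ acc t rest h
    simp at h
  | cons w0 ws ih =>
    intro hnd acc t rest h
    rw [List.nodup_cons] at hnd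
    simp only [List.flatMap_cons, List.cons_append, List.nil_append] at h
    match acc, h with
    | [], h =>
      simp only [List.nil_append, List.cons.injEq] at h
      refine ⟨w0, 0, List.mem_cons_self, h.1.symm, fun i hi => absurd hi (by omega), ?_⟩
      intro f hf
      simp at hf
    | [a0], h =>
      simp only [List.cons_append, List.nil_append, List.cons.injEq] at h
      refine ⟨w0, 1, List.mem_cons_self, h.2.1.symm, fun i hi => ?_, fun f hf => ?_⟩
      · have hi0 : i = 0 := by omega
        rw [hi0, h.1]
        exact List.mem_cons_self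
      · rw [List.mem_singleton] at hf
        exact Or.inr ⟨0, by decide, by rw [hf, h.1]⟩
    | [a0, a1], h =>
      simp only [List.cons_append, List.nil_append, List.cons.injEq] at h
      refine ⟨w0, 2, List.mem_cons_self, h.2.2.1.symm, fun i hi => ?_, fun f hf => ?_⟩
      · have hi0 : i = 0 ∨ i = 1 := by omega
        rcases hi0 with hi0 | hi0
        · rw [hi0, h.1]
          exact List.mem_cons_self
        · rw [hi0, h.2.1]
          exact List.mem_cons_of_mem _ List.mem_cons_self
      · rw [List.mem_cons, List.mem_singleton] at hf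
        rcases hf with hf | hf
        · exact Or.inr ⟨0, by decide, by rw [hf, h.1]⟩
        · exact Or.inr ⟨1, by decide, by rw [hf, h.2.1]⟩
    | a0 :: a1 :: a2 :: acc', h =>
      simp only [List.cons_append, List.cons.injEq] at h
      obtain ⟨h0, h1, h2, h3⟩ := h
      obtain ⟨w, j, hw, ht, hlt, hacc⟩ := ih hnd.2 acc' t rest h3
      have hne : w0 ≠ w := fun e => hnd.1 (e ▸ hw)
      refine ⟨w, j, List.mem_cons_of_mem _ hw, ht, fun i hi => ?_, fun f hf => ?_⟩
      · exact List.mem_cons_of_mem _ (List.mem_cons_of_mem _ (List.mem_cons_of_mem _ (hlt i hi)))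
      · simp only [List.mem_cons] at hf
        rcases hf with hf | hf | hf | hf
        · exact Or.inl ⟨w0, 0, hne, by rw [hf, h0]⟩
        · exact Or.inl ⟨w0, 1, hne, by rw [hf, h1]⟩
        · exact Or.inl ⟨w0, 2, hne, by rw [hf, h2]⟩
        · exact hacc f hf

end WChain

open WChain

theorem p_wchain : S_wchain := by
  intro k _ W n a b r hW ws hnd g hg acc rest hl x hx hne acc' t r' hacc' hmem
  have hl' : ws.flatMap (fun w => [wireProp false n a b w (Fin.castSucc (0 : Fin 3)),
      wireProp false n a b w (Fin.castSucc (1 : Fin 3)),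
      wireProp false n a b w (Fin.castSucc (2 : Fin 3))]) = acc' ++ t :: (r' ++ rest) := by
    have h1 : wireList n a b ws = acc' ++ t :: (r' ++ rest) := by
      rw [hl, hacc']
      simp
    exact h1
  obtain ⟨w, j, hw, htj, hlt, hacc⟩ :=
    pos_lemma (fun w i => wireProp false n a b w (Fin.castSucc i)) ws hnd acc' t (r' ++ rest) hl'
  obtain ⟨sqn, sqa, sqb, bna, bnb, bab, nr, perp⟩ := hW w
  have hgx : eval x g ≠ 0 := by
    intro h
    apply hne
    rw [map_mul, h, mul_zero]
  have htop := hg x hgx w hw
  -- the momentum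
  obtain ⟨y, hy⟩ : ∃ y : Fin 4 → k, y = fun i => x (w, i) + a w i := ⟨_, rfl⟩
  have e0 : wireProp false n a b w (Fin.castSucc (0 : Fin 3)) = prop w (a w) := by
    simp [wireProp, wsh]
  have e1 : wireProp false n a b w (Fin.castSucc (1 : Fin 3)) =
      prop w (fun j => a w j + n w j) := by
    simp [wireProp, wsh]
  have e2 : wireProp false n a b w (Fin.castSucc (2 : Fin 3)) = prop w (fun j => -b w j) := by
    have h2 : (Fin.castSucc (2 : Fin 3) : Fin 4) = 2 := rfl
    rw [h2]
    simp [wireProp, wsh]
  have e3 : wireProp false n a b w 3 = prop w (fun j => a w j - b w j) := by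
    simp [wireProp, wsh]
  have f0 : (fun i => x (w, i) + a w i) = y := hy.symm
  have f1 : (fun i => x (w, i) + (a w i + n w i)) = y + n w := by
    rw [hy]; funext i; simp [add_assoc]
  have f2 : (fun i => x (w, i) + -b w i) = y - a w - b w := by
    rw [hy]; funext i; simp [sub_eq_add_neg]
  have f3 : (fun i => x (w, i) + (a w i - b w i)) = y - b w := by
    rw [hy]; funext i; simp [sub_eq_add_neg, add_assoc]
  have v0 : eval x (wireProp false n a b w (Fin.castSucc (0 : Fin 3))) = 0 → sq y = 0 :=
    fun h => by
      rw [e0, eval_prop, f0] at h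
      exact h
  have v1 : eval x (wireProp false n a b w (Fin.castSucc (1 : Fin 3))) = 0 → sq (y + n w) = 0 :=
    fun h => by
      rw [e1, eval_prop, f1] at h
      exact h
  have v3 : sq (y - b w) ≠ 0 := by
    rw [e3, eval_prop, f3] at htop
    exact htop
  -- the projection to the coordinates of the wire `w`
  obtain ⟨π, hπ⟩ : ∃ π : (W × Fin 4 → k) →ₗ[k] (Fin 4 → k), ∀ v i, π v i = v (w, i) :=
    ⟨LinearMap.funLeft k k (fun i : Fin 4 => (w, i)), fun v i => rfl⟩
  have p0 : π (grad x (wireProp false n a b w (Fin.castSucc (0 : Fin 3)))) = J y := by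
    funext i
    rw [hπ, e0, grad_prop, f0]
  have p1 : π (grad x (wireProp false n a b w (Fin.castSucc (1 : Fin 3)))) = J (y + n w) := by
    funext i
    rw [hπ, e1, grad_prop, f1]
  have p2 : π (grad x (wireProp false n a b w (Fin.castSucc (2 : Fin 3)))) =
      J (y - a w - b w) := by
    funext i
    rw [hπ, e2, grad_prop, f2]
  have pne : ∀ w' i, w' ≠ w → π (grad x (wireProp false n a b w' i)) = 0 := by
    intro w' i hne
    funext l
    rw [hπ]
    exact grad_prop_ne x hne _ _
  -- everything in the span is mapped to a small subspace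
  have key : ∀ S : Submodule k (Fin 4 → k),
      (∀ i < j, π (grad x (wireProp false n a b w (Fin.castSucc i))) ∈ S) →
      π (grad x (wireProp false n a b w (Fin.castSucc j))) ∈ S := by
    intro S hS
    have h1 : Submodule.span k {v | ∃ f ∈ acc', v = grad x f} ≤ S.comap π := by
      rw [Submodule.span_le]
      rintro v ⟨f, hf, rfl⟩
      change π (grad x f) ∈ S
      rcases hacc f hf with ⟨w', i, hne, rfl⟩ | ⟨i, hi, rfl⟩
      · rw [pne w' _ hne]
        exact S.zero_mem
      · exact hS i hi
    have h2 := h1 hmem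
    rw [htj] at h2
    exact h2
  have hx' : ∀ f ∈ acc' ++ t :: r', eval x f = 0 := fun f hf => hx f (by rw [hacc']; exact hf)
  have hev : ∀ i < j, eval x (wireProp false n a b w (Fin.castSucc i)) = 0 := fun i hi =>
    hx' _ (List.mem_append_left _ (hlt i hi))
  have hevj : eval x (wireProp false n a b w (Fin.castSucc j)) = 0 := by
    have h1 := hx' t (List.mem_append_right _ List.mem_cons_self)
    rw [htj] at h1
    exact h1
  simp only [sq, bl, Pi.sub_apply, Pi.add_apply] at sqn sqa sqb bna bnb bab v0 v1 v3 perp
  fin_cases j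
  · -- the first propagator
    have h1 := key ⊥ (fun i hi => absurd hi (by simp))
    rw [Submodule.mem_bot] at h1
    have h2 : J y = 0 := by rw [← p0]; exact h1
    have h3 : y = 0 := J_inj (by rw [h2]; funext i; fin_cases i <;> simp [J])
    apply v3
    rw [h3]
    simp only [Pi.zero_apply]
    linear_combination sqb
  · -- the second
    have hs0 := v0 (hev 0 (by decide))
    have h1 := key (Submodule.span k {J y}) (fun i hi => by
      have hi0 : i = 0 := by
        have : (i : ℕ) < 1 := hi
        omega
      rw [hi0, p0]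
      exact Submodule.mem_span_singleton_self _)
    have h1' : J (y + n w) ∈ Submodule.span k {J y} := by rw [← p1]; exact h1
    obtain ⟨c, hc⟩ := Submodule.mem_span_singleton.1 h1'
    rw [← J_smul] at hc
    have h2 := J_inj hc
    have q : ∀ i, n w i = (c - 1) * y i := fun i => by
      have := congrFun h2 i
      simp only [Pi.smul_apply, Pi.add_apply, smul_eq_mul] at this
      linear_combination -this
    have h3 : c - 1 ≠ 0 := by
      intro h4
      have h5 := q (r w)
      rw [h4, zero_mul, nr] at h5
      exact one_ne_zero h5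
    have h4 : (c - 1) * (y 0 * b w 1 + y 1 * b w 0 + y 2 * b w 3 + y 3 * b w 2) = 0 := by
      have h5 := bnb
      rw [q 0, q 1, q 2, q 3] at h5
      linear_combination h5
    have h5 := (mul_eq_zero.1 h4).resolve_left h3
    apply v3
    linear_combination hs0 - h5 + sqb
  · -- the third
    have hs0 := v0 (hev 0 (by decide))
    have hs1 := v1 (hev 1 (by decide))
    have h1 := key (Submodule.span k {J y, J (y + n w)}) (fun i hi => by
      have hi0 : i = 0 ∨ i = 1 := by
        have : (i : ℕ) < 2 := hi
        omega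
      rcases hi0 with hi0 | hi0
      · rw [hi0, p0]
        exact Submodule.subset_span (by simp)
      · rw [hi0, p1]
        exact Submodule.subset_span (by simp))
    have h1' : J (y - a w - b w) ∈ Submodule.span k {J y, J (y + n w)} := by
      rw [← p2]; exact h1
    obtain ⟨α, β, hc⟩ := Submodule.mem_span_pair.1 h1'
    rw [← J_smul, ← J_smul, ← J_add] at hc
    have h2 := J_inj hc
    have q : ∀ i, (α + β - 1) * y i + β * n w i + a w i + b w i = 0 := fun i => by
      have := congrFun h2 i
      simp only [Pi.smul_apply, Pi.add_apply, Pi.sub_apply, smul_eq_mul] at this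
      linear_combination this
    have byn : y 0 * n w 1 + y 1 * n w 0 + y 2 * n w 3 + y 3 * n w 2 = 0 := by
      linear_combination hs1 - hs0 - sqn
    obtain ⟨s, τ, u, hyp⟩ := perp y byn
    have hτ : y 0 * b w 1 + y 1 * b w 0 + y 2 * b w 3 + y 3 * b w 2 = τ := by
      rw [hyp 0, hyp 1, hyp 2, hyp 3]
      linear_combination s * bnb + τ * bab + 2 * u * sqb
    have hu : y 0 * a w 1 + y 1 * a w 0 + y 2 * a w 3 + y 3 * a w 2 = u := by
      rw [hyp 0, hyp 1, hyp 2, hyp 3]
      linear_combination s * bna + u * bab + 2 * τ * sqa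
    have hτu : τ * u = 0 := by
      have h3 := hs0
      rw [hyp 0, hyp 1, hyp 2, hyp 3] at h3
      linear_combination h3 - s ^ 2 * sqn - τ ^ 2 * sqa - u ^ 2 * sqb - s * τ * bna -
        s * u * bnb - τ * u * bab
    have hτ0 : τ ≠ 0 := by
      intro h3
      rw [h3] at hτ
      apply v3
      linear_combination hs0 - hτ + sqb
    have hu0 : u = 0 := (mul_eq_zero.1 hτu).resolve_left hτ0
    rw [hu0] at hu
    have h6 : (1 : k) = 0 := by
      linear_combination a w 1 * q 0 + a w 0 * q 1 + a w 3 * q 2 + a w 2 * q 3 -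
        (α + β - 1) * hu - β * bna - 2 * sqa - bab
    exact one_ne_zero h6

end

end Pool.Agent.Lib.MP_ae0f86_nt.F
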