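import Pool.Agent.Lib.MP_ae0f86_nt.F.Stm

/-!
# MP_ae0f86_nt, project FEYNMAN: the data of the wires of the graph
-/

set_option autoImplicit false

open CategoryTheory CategoryTheory.Limits MvPolynomial Opposite MonoidalCategory

universe v u

namespace Pool.Agent.Lib.MP_ae0f86_nt.F

noncomputable section

private theorem wd_isWire {k : Type} [Field k] (n a b : Fin 4 → ℤ) (r : Fin 4)
    (sqn : sq n = 0) (sqa : sq a = 0) (sqb : sq b = 0) (bna : bl n a = 0) (bnb : bl n b = 0)
    (bab : bl a b = 1) (nr : n r = 1)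
    (perp : ∀ x : Fin 4 → k, bl x (fun i => (n i : k)) = 0 →
      ∃ α β γ : k, ∀ i, x i = α * (n i : k) + β * (a i : k) + γ * (b i : k)) :
    IsWire (fun i => (n i : k)) (fun i => (a i : k)) (fun i => (b i : k)) r where
  sqn := by
    have := congrArg (Int.cast : ℤ → k) sqn
    simpa [sq] using this
  sqa := by
    have := congrArg (Int.cast : ℤ → k) sqa
    simpa [sq] using this
  sqb := by
    have := congrArg (Int.cast : ℤ → k) sqb
    simpa [sq] using this
  bna := by
    have := congrArg (Int.cast : ℤ → k) bna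
    simpa [bl] using this
  bnb := by
    have := congrArg (Int.cast : ℤ → k) bnb
    simpa [bl] using this
  bab := by
    have := congrArg (Int.cast : ℤ → k) bab
    simpa [bl] using this
  nr := by simp [nr]
  perp := perp

theorem p_wdata : S_wdata := by
  intro k _ Λ M c w
  rcases w with ⟨a, j⟩ | p | p
  · refine wd_isWire (k := k) ![1, 0, -((j : ℕ) : ℤ), 0] ![0, 0, 1, 0] ![0, ((j : ℕ) : ℤ), 0, 1] 0
      (by simp [sq]) (by simp [sq]) (by simp [sq]) (by simp [bl]) (by simp [bl]) (by simp [bl])
      (by simp) ?_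
    intro x h1
    simp [bl] at h1
    refine ⟨x 0, x 2 + (j : ℕ) * x 0, x 3, ?_⟩
    rw [Fin.forall_fin_succ, Fin.forall_fin_succ, Fin.forall_fin_succ, Fin.forall_fin_one]
    refine ⟨by simp, ?_, ?_, ?_⟩
    · simp
      linear_combination h1
    · simp
      ring
    · simp
  · refine wd_isWire (k := k) ![0, 0, 1, 0] ![1, 0, 0, 0] ![0, 1, 0, 0] 2
      (by simp [sq]) (by simp [sq]) (by simp [sq]) (by simp [bl]) (by simp [bl]) (by simp [bl])
      (by simp) ?_
    intro x h1
    simp [bl] at h1
    refine ⟨x 2, x 0, x 1, ?_⟩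
    rw [Fin.forall_fin_succ, Fin.forall_fin_succ, Fin.forall_fin_succ, Fin.forall_fin_one]
    refine ⟨by simp, by simp, by simp, ?_⟩
    simpa using h1
  · by_cases k0 : kind c p.2 = 0
    · have e1 : dir c (Sum.inr (Sum.inr p)) = ![1, 0, 0, 0] := by simp [dir, k0]
      have e2 : av c (Sum.inr (Sum.inr p)) = ![0, 0, 1, 0] := by simp [av, k0]
      have e3 : bv c (Sum.inr (Sum.inr p)) = ![0, 0, 0, 1] := by simp [bv, k0]
      have e4 : rc c (Sum.inr (Sum.inr p)) = 0 := by simp [rc, k0]
      rw [e1, e2, e3, e4]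
      refine wd_isWire (k := k) _ _ _ _
        (by simp [sq]) (by simp [sq]) (by simp [sq]) (by simp [bl]) (by simp [bl]) (by simp [bl])
        (by simp) ?_
      intro x h1
      simp [bl] at h1
      refine ⟨x 0, x 2, x 3, ?_⟩
      rw [Fin.forall_fin_succ, Fin.forall_fin_succ, Fin.forall_fin_succ, Fin.forall_fin_one]
      refine ⟨by simp, ?_, by simp, by simp⟩
      simpa using h1
    · by_cases k1 : kind c p.2 = 1
      · have e1 : dir c (Sum.inr (Sum.inr p)) = ![0, 1, 0, 0] := by simp [dir, k1]
        have e2 : av c (Sum.inr (Sum.inr p)) = ![0, 0, 1, 0] := by simp [av, k1]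
        have e3 : bv c (Sum.inr (Sum.inr p)) = ![0, 0, 0, 1] := by simp [bv, k1]
        have e4 : rc c (Sum.inr (Sum.inr p)) = 1 := by simp [rc, k1]
        rw [e1, e2, e3, e4]
        refine wd_isWire (k := k) _ _ _ _
          (by simp [sq]) (by simp [sq]) (by simp [sq]) (by simp [bl]) (by simp [bl])
          (by simp [bl]) (by simp) ?_
        intro x h1
        simp [bl] at h1
        refine ⟨x 1, x 2, x 3, ?_⟩
        rw [Fin.forall_fin_succ, Fin.forall_fin_succ, Fin.forall_fin_succ, Fin.forall_fin_one]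
        refine ⟨?_, by simp, by simp, by simp⟩
        simpa using h1
      · have k2 : kind c p.2 = 2 := by
          have : ∀ i : Fin 3, i ≠ 0 → i ≠ 1 → i = 2 := by decide
          exact this _ k0 k1
        have e1 : dir c (Sum.inr (Sum.inr p)) = ![0, 0, 1, 0] := by simp [dir, k2]
        have e2 : av c (Sum.inr (Sum.inr p)) = ![1, 0, 0, 0] := by simp [av, k2]
        have e3 : bv c (Sum.inr (Sum.inr p)) = ![0, 1, 0, 0] := by simp [bv, k2]
        have e4 : rc c (Sum.inr (Sum.inr p)) = 2 := by simp [rc, k2]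
        rw [e1, e2, e3, e4]
        refine wd_isWire (k := k) _ _ _ _
          (by simp [sq]) (by simp [sq]) (by simp [sq]) (by simp [bl]) (by simp [bl])
          (by simp [bl]) (by simp) ?_
        intro x h1
        simp [bl] at h1
        refine ⟨x 2, x 0, x 1, ?_⟩
        rw [Fin.forall_fin_succ, Fin.forall_fin_succ, Fin.forall_fin_succ, Fin.forall_fin_one]
        refine ⟨by simp, by simp, by simp, ?_⟩
        simpa using h1

end

end Pool.Agent.Lib.MP_ae0f86_nt.F
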