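import Pool.Agent.Lib.MP_ae0f86_nt.F.Stm

open CategoryTheory CategoryTheory.Limits MvPolynomial Opposite MonoidalCategory

universe v u

namespace Pool.Agent.Lib.MP_ae0f86_nt.F

noncomputable section

private lemma wireq_cast {k : Type} [Field k] (f : Bool) (n a b : Fin 4 → ℤ) (i j : Fin 4) :
    ((wsh f n a b i j : ℤ) : k) =
      wsh f (fun i => (n i : k)) (fun i => (a i : k)) (fun i => (b i : k)) i j := by
  unfold wsh
  split_ifs <;> push_cast <;> rfl

private lemma wireq_gen {k : Type} [Field k] {σ : Type} (G : Feynman)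
    (f : G.E × Fin 4 → MvPolynomial σ k) (e : G.E) :
    bind₁ f (G.den k e) =
      (f (e, 0) + C (G.a e 0 : k)) * (f (e, 1) + C (G.a e 1 : k)) +
      (f (e, 2) + C (G.a e 2 : k)) * (f (e, 3) + C (G.a e 3 : k)) := by
  unfold Feynman.den sq
  simp only [map_add, map_mul, bind₁_X_right, bind₁_C_right]

private lemma wireq_wden {k : Type} [Field k] {Λ : Type} [Fintype Λ] {M : ℕ} (f : Bool)
    (c : Fin M → Wall Λ) (e : Edge Λ M) :
    wden k f c e =
      (flowPoly k c (e, 0) + C (shift f c e 0 : k)) * (flowPoly k c (e, 1) + C (shift f c e 1 : k)) +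
      (flowPoly k c (e, 2) + C (shift f c e 2 : k)) * (flowPoly k c (e, 3) + C (shift f c e 3 : k)) :=
  wireq_gen (graph f c) (flowPoly k c) e

private lemma wireq_den {k : Type} [Field k] {Λ : Type} [Fintype Λ] {M : ℕ} (f : Bool)
    (c : Fin M → Wall Λ) (w : Wire Λ M) (i : Fin 4) :
    wden k f c (ew w i) =
      wireProp f (fun w i => (dir c w i : k)) (fun w i => (av c w i : k))
        (fun w i => (bv c w i : k)) w i := by
  have hX : ∀ j : Fin 4, flowPoly k c (ew w i, j) = X (w, j) := fun j => rfl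
  have ha : ∀ j : Fin 4, ((shift f c (ew w i) j : ℤ) : k) =
      wsh f (fun i => (dir c w i : k)) (fun i => (av c w i : k)) (fun i => (bv c w i : k)) i j :=
    fun j => wireq_cast f (dir c w) (av c w) (bv c w) i j
  rw [wireq_wden, hX, hX, hX, hX, ha, ha, ha, ha]
  rfl

theorem p_wireq : S_wireq := by
  intro k _ Λ _ M f c
  refine ⟨?_, wireq_den f c⟩
  unfold wireEdges wireList
  rw [List.map_flatMap]
  congr 1
  funext w
  simp only [List.map_cons, List.map_nil, wireq_den]
  rfl

end

end Pool.Agent.Lib.MP_ae0f86_nt.F
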