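import Pool.Agent.Lib.MP_ae0f86_nt.F.Stm

/-!
# MP_ae0f86_nt, project FEYNMAN: the zero set of the wires
-/

set_option autoImplicit false

open CategoryTheory CategoryTheory.Limits MvPolynomial Opposite MonoidalCategory

universe v u

namespace Pool.Agent.Lib.MP_ae0f86_nt.F

noncomputable section

private theorem wz_prop {k : Type} [Field k] {W : Type} (w : W) (p : Fin 4 → k)
    (x : W × Fin 4 → k) :
    eval x (prop w p) = sq (fun i => x (w, i) + p i) := by
  simp [prop, sq]

/-- the propagators of a wire as functions of a vector -/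
private theorem wz_eval {k : Type} [Field k] {W : Type} (f : Bool) (n a b : W → Fin 4 → k) (w : W)
    (x : W × Fin 4 → k) :
    eval x (wireProp f n a b w 0) = sq (fun i => x (w, i) + a w i) ∧
    eval x (wireProp f n a b w 1) = sq (fun i => x (w, i) + (a w i + n w i)) ∧
    eval x (wireProp f n a b w 2) = sq (fun i => x (w, i) + -b w i) ∧
    eval x (wireProp false n a b w 3) = sq (fun i => x (w, i) + (a w i - b w i)) ∧
    eval x (wireProp true n a b w 3) = sq (fun i => x (w, i) + 0) := by
  unfold wireProp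
  refine ⟨?_, ?_, ?_, ?_, ?_⟩ <;> rw [wz_prop] <;> simp [wsh]

/-- a point with vanishing first propagators, in the basis `n`, `a`, `b` -/
private theorem wz_loc {R : Type} [CommRing R] {n a b : Fin 4 → R} {r : Fin 4}
    (h : IsWire n a b r) (v : Fin 4 → R)
    (h1 : sq (fun i => v i + a i) = 0) (h2 : sq (fun i => v i + (a i + n i)) = 0)
    (h3 : sq (fun i => v i + -b i) = 0) :
    ∃ s t u : R, (∀ i, v i = s * n i + (t - 1) * a i + u * b i) ∧ t * u = 0 ∧ t + u = 1 ∧
      sq (fun i => v i + (a i - b i)) = -t ∧ sq (fun i => v i + 0) = -u := by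
  have sqn := h.sqn
  have sqa := h.sqa
  have sqb := h.sqb
  have bna := h.bna
  have bnb := h.bnb
  have bab := h.bab
  have perp := h.perp (fun i => v i + a i)
  simp only [sq, bl] at sqn sqa sqb bna bnb bab perp h1 h2 h3 ⊢
  obtain ⟨s, t, u, hy⟩ := perp (by linear_combination h2 - h1 - sqn)
  have hv : ∀ i, v i = s * n i + (t - 1) * a i + u * b i := fun i => by
    linear_combination hy i
  rw [hv 0, hv 1, hv 2, hv 3] at h1 h3
  have htu : t * u = 0 := by
    linear_combination h1 - s ^ 2 * sqn - t ^ 2 * sqa - u ^ 2 * sqb - s * t * bna - s * u * bnb -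
      t * u * bab
  have hsum : t + u = 1 := by
    linear_combination -h3 + s ^ 2 * sqn + (t - 1) ^ 2 * sqa + (u - 1) ^ 2 * sqb +
      s * (t - 1) * bna + s * (u - 1) * bnb + (t - 1) * (u - 1) * bab + htu
  refine ⟨s, t, u, hv, htu, hsum, ?_, ?_⟩
  · rw [hv 0, hv 1, hv 2, hv 3]
    linear_combination s ^ 2 * sqn + t ^ 2 * sqa + (u - 1) ^ 2 * sqb + s * t * bna +
      s * (u - 1) * bnb + t * (u - 1) * bab + htu
  · rw [hv 0, hv 1, hv 2, hv 3]
    linear_combination s ^ 2 * sqn + (t - 1) ^ 2 * sqa + u ^ 2 * sqb + s * (t - 1) * bna +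
      s * u * bnb + (t - 1) * u * bab + htu

/-- the propagators on the line -/
private theorem wz_line {R : Type} [CommRing R] {n a b : Fin 4 → R} {r : Fin 4}
    (h : IsWire n a b r) (v : Fin 4 → R) (α : R) (hv : ∀ i, v i = α * n i) :
    sq (fun i => v i + a i) = 0 ∧ sq (fun i => v i + (a i + n i)) = 0 ∧
    sq (fun i => v i + -b i) = 0 ∧ sq (fun i => v i + (a i - b i)) = -1 ∧
    sq (fun i => v i + 0) = 0 := by
  have sqn := h.sqn
  have sqa := h.sqa
  have sqb := h.sqb
  have bna := h.bna
  have bnb := h.bnb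
  have bab := h.bab
  simp only [sq, bl] at sqn sqa sqb bna bnb bab ⊢
  rw [hv 0, hv 1, hv 2, hv 3]
  refine ⟨?_, ?_, ?_, ?_, ?_⟩
  · linear_combination α ^ 2 * sqn + α * bna + sqa
  · linear_combination (α + 1) ^ 2 * sqn + (α + 1) * bna + sqa
  · linear_combination α ^ 2 * sqn - α * bnb + sqb
  · linear_combination α ^ 2 * sqn + α * bna - α * bnb + sqa + sqb - bab
  · linear_combination α ^ 2 * sqn

theorem p_wzero : S_wzero := by
  intro k _ W n a b r hw
  have line : ∀ (w : W) (x : W × Fin 4 → k) (α : k), (∀ i, x (w, i) = α * n w i) →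
      (eval x (wireProp false n a b w 0) = 0 ∧ eval x (wireProp false n a b w 1) = 0 ∧
        eval x (wireProp false n a b w 2) = 0 ∧ eval x (wireProp false n a b w 3) = -1) ∧
      ∀ i : Fin 4, eval x (wireProp true n a b w i) = 0 := by
    intro w x α hα
    obtain ⟨l0, l1, l2, l3, l4⟩ := wz_line (hw w) (fun i => x (w, i)) α hα
    obtain ⟨f0, f1, f2, f3, f4⟩ := wz_eval false n a b w x
    obtain ⟨t0, t1, t2, t3, t4⟩ := wz_eval true n a b w x
    refine ⟨⟨f0.trans l0, f1.trans l1, f2.trans l2, f3.trans l3⟩, fun i => ?_⟩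
    fin_cases i
    · exact t0.trans l0
    · exact t1.trans l1
    · exact t2.trans l2
    · exact t4.trans l4
  refine ⟨?_, ?_, ?_⟩
  · intro ws x
    constructor
    · rintro ⟨h, h'⟩ w hws
      have hm : ∀ f ∈ ([wireProp false n a b w 0, wireProp false n a b w 1,
          wireProp false n a b w 2] : List (MvPolynomial (W × Fin 4) k)), eval x f = 0 :=
        fun f hf => h f (List.mem_flatMap.2 ⟨w, hws, hf⟩)
      obtain ⟨f0, f1, f2, f3, f4⟩ := wz_eval false n a b w x
      have h0 : eval x (wireProp false n a b w 0) = 0 := hm _ (by simp)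
      have h1 : eval x (wireProp false n a b w 1) = 0 := hm _ (by simp)
      have h2 : eval x (wireProp false n a b w 2) = 0 := hm _ (by simp)
      have h3 := h' w hws
      rw [f0] at h0
      rw [f1] at h1
      rw [f2] at h2
      rw [f3] at h3
      obtain ⟨s, t, u, hv, htu, hsum, e3, _⟩ := wz_loc (hw w) (fun i => x (w, i)) h0 h1 h2
      rw [e3] at h3
      have ht : t ≠ 0 := fun h => h3 (by rw [h, neg_zero])
      have hu : u = 0 := (mul_eq_zero.1 htu).resolve_left ht
      have ht1 : t = 1 := by rw [hu, add_zero] at hsum; exact hsum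
      refine ⟨s, fun i => ?_⟩
      have := hv i
      rw [hu, ht1] at this
      linear_combination this
    · intro h
      refine ⟨fun f hf => ?_, fun w hws => ?_⟩
      · obtain ⟨w, hws, hf⟩ := List.mem_flatMap.1 hf
        obtain ⟨α, hα⟩ := h w hws
        obtain ⟨⟨l0, l1, l2, _⟩, _⟩ := line w x α hα
        simp only [List.mem_cons, List.not_mem_nil, or_false] at hf
        rcases hf with rfl | rfl | rfl
        · exact l0
        · exact l1
        · exact l2
      · obtain ⟨α, hα⟩ := h w hws
        rw [(line w x α hα).1.2.2.2]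
        exact neg_ne_zero.2 one_ne_zero
  · intro w x α hα
    exact (line w x α hα).1.2.2.2
  · intro w x
    constructor
    · intro h
      obtain ⟨t0, t1, t2, t3, t4⟩ := wz_eval true n a b w x
      have h0 := h 0
      have h1 := h 1
      have h2 := h 2
      have h3 := h 3
      rw [t0] at h0
      rw [t1] at h1
      rw [t2] at h2
      rw [t4] at h3
      obtain ⟨s, t, u, hv, htu, hsum, _, e4⟩ := wz_loc (hw w) (fun i => x (w, i)) h0 h1 h2
      rw [e4] at h3
      have hu : u = 0 := neg_eq_zero.1 h3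
      have ht1 : t = 1 := by rw [hu, add_zero] at hsum; exact hsum
      refine ⟨s, fun i => ?_⟩
      have := hv i
      rw [hu, ht1] at this
      linear_combination this
    · rintro ⟨α, hα⟩
      exact (line w x α hα).2

end

end Pool.Agent.Lib.MP_ae0f86_nt.F
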