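import Pool.Agent.Lib.MP_ae0f86_nt.F.Stm
import Mathlib

/-!
# [FY irr] the graph of a system of walls is one-particle irreducible
-/

open CategoryTheory CategoryTheory.Limits MvPolynomial Opposite MonoidalCategory

universe v u

namespace Pool.Agent.Lib.MP_ae0f86_nt.F

noncomputable section

/-- the relation of adjacency -/
private def irr_adj {Λ : Type} {M : ℕ} (c : Fin M → Wall Λ) (v w : Vert Λ M) : Prop :=
  ∃ e : Edge Λ M, esrc e = v ∧ etgt c e = w

private abbrev irr_conn {Λ : Type} {M : ℕ} (c : Fin M → Wall Λ) (v : Vert Λ M) : Prop :=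
  Relation.EqvGen (irr_adj c) v Vert.root

private lemma irr_step {Λ : Type} {M : ℕ} (c : Fin M → Wall Λ) (e : Edge Λ M)
    (h : irr_conn c (etgt c e)) : irr_conn c (esrc e) :=
  (Relation.EqvGen.rel _ _ ⟨e, rfl, rfl⟩).trans _ _ _ h

private lemma irr_step' {Λ : Type} {M : ℕ} (c : Fin M → Wall Λ) (e : Edge Λ M)
    (h : irr_conn c (esrc e)) : irr_conn c (etgt c e) :=
  ((Relation.EqvGen.rel _ _ ⟨e, rfl, rfl⟩).symm _ _).trans _ _ _ h

private lemma irr_half {Λ : Type} {M : ℕ} (c : Fin M → Wall Λ) (p : Gate Λ M) :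
    irr_conn c (Vert.half p) :=
  irr_step c (ec p 1) (Relation.EqvGen.refl _)

private lemma irr_copy {Λ : Type} {M : ℕ} (c : Fin M → Wall Λ) (p : Gate Λ M) :
    irr_conn c (Vert.copy p) :=
  irr_step c (ec p 0) (irr_half c p)

private lemma irr_conv {Λ : Type} {M : ℕ} (c : Fin M → Wall Λ) (p : Gate Λ M) :
    irr_conn c (Vert.conv p) :=
  irr_step c (ev p) (Relation.EqvGen.refl _)

private lemma irr_con {Λ : Type} {M : ℕ} (c : Fin M → Wall Λ) (τ : Fin M) :
    irr_conn c (Vert.con τ) :=
  irr_step c (et τ) (Relation.EqvGen.refl _)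

private lemma irr_wsrc {Λ : Type} {M : ℕ} (c : Fin M → Wall Λ) (w : Wire Λ M) :
    irr_conn c (wsrc w) := by
  rcases w with ⟨a, j⟩ | p | p
  · refine Fin.cases ?_ (fun i => ?_) j
    · exact Relation.EqvGen.refl _
    · exact irr_copy c (a, i)
  · exact irr_copy c p
  · exact irr_conv c p

private lemma irr_all {Λ : Type} {M : ℕ} (c : Fin M → Wall Λ) (v : Vert Λ M) :
    irr_conn c v := by
  cases v with
  | root => exact Relation.EqvGen.refl _
  | mid w i =>
    have h0 : irr_conn c (Vert.mid w 0) := irr_step' c (ew w 0) (irr_wsrc c w)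
    have h1 : irr_conn c (Vert.mid w 1) := irr_step' c (ew w 1) h0
    have h2 : irr_conn c (Vert.mid w 2) := irr_step' c (ew w 2) h1
    fin_cases i
    · exact h0
    · exact h1
    · exact h2
  | copy p => exact irr_copy c p
  | half p => exact irr_half c p
  | conv p => exact irr_conv c p
  | con τ => exact irr_con c τ

open Classical in
/-- [FY irr] -/
theorem p_irr (flowc : S_flowc) : S_irr := by
  intro Λ _ M f c
  constructor
  · refine ⟨Vert.root, fun v => ?_⟩
    have h : Relation.EqvGen (irr_adj c) Vert.root v := (irr_all c v).symm _ _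
    exact h
  · intro e
    have hc : ∀ x : Wire Λ M → ℚ, (graph f c).Conserved (flow c x) := fun x =>
      (flowc f c (flow c x)).2 rfl
    rcases e with ⟨w, i⟩ | ⟨p, i⟩ | p | τ
    · refine ⟨flow c (Pi.single w 1), hc _, ?_⟩
      show (Pi.single w 1 : Wire Λ M → ℚ) w ≠ 0
      rw [Pi.single_eq_same]
      exact one_ne_zero
    · refine ⟨flow c (Pi.single (bw p) 1), hc _, ?_⟩
      show (Pi.single (bw p) 1 : Wire Λ M → ℚ) (tw p.1 p.2.castSucc) -
        (Pi.single (bw p) 1 : Wire Λ M → ℚ) (tw p.1 p.2.succ) -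
        (Pi.single (bw p) 1 : Wire Λ M → ℚ) (bw p) ≠ 0
      rw [Pi.single_eq_same, Pi.single_eq_of_ne (by simp), Pi.single_eq_of_ne (by simp)]
      norm_num
    · refine ⟨flow c (Pi.single (bw p) 1), hc _, ?_⟩
      show (Pi.single (bw p) 1 : Wire Λ M → ℚ) (bw p) -
        (Pi.single (bw p) 1 : Wire Λ M → ℚ) (cw p) ≠ 0
      rw [Pi.single_eq_same, Pi.single_eq_of_ne (by simp)]
      norm_num
    · refine ⟨flow c (Pi.single (cw (vr c (pos τ 0), pos τ 0)) 1), hc _, ?_⟩
      show ∑ i : Fin 3, (Pi.single (cw (vr c (pos τ 0), pos τ 0)) 1 : Wire Λ M → ℚ)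
        (cw (vr c (pos τ i), pos τ i)) ≠ 0
      have h : ∀ i : Fin 3, i ≠ 0 → (Pi.single (cw (vr c (pos τ 0), pos τ 0)) 1 : Wire Λ M → ℚ)
          (cw (vr c (pos τ i), pos τ i)) = 0 := by
        intro i hi
        refine Pi.single_eq_of_ne ?_ _
        intro h
        have h1 : pos τ i = pos τ 0 := by
          have h2 := Sum.inr_injective (Sum.inr_injective h)
          exact congrArg Prod.snd h2
        have h2 := finProdFinEquiv.injective h1
        exact hi (congrArg Prod.snd h2)
      rw [Finset.sum_eq_single 0 (fun i _ hi => h i hi)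
        (fun h' => absurd (Finset.mem_univ _) h'), Pi.single_eq_same]
      exact one_ne_zero

end

end Pool.Agent.Lib.MP_ae0f86_nt.F
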