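import Mathlib
import Pool.Agent.Lib.MP_ae0f86_nt.F.Stm

/-!
# MP_ae0f86_nt, project FEYNMAN: iterated hyperplane sections
-/

open CategoryTheory CategoryTheory.Limits MvPolynomial Opposite MonoidalCategory

universe v u

namespace Pool.Agent.Lib.MP_ae0f86_nt.F

noncomputable section

attribute [local instance] CategoryTheory.Abelian.hasFiniteBiproducts

variable {k : Type} [Field k] {A : Type u} [Category.{v} A] [Abelian A] [MonoidalCategory A]

private theorem lef_aux (T : CohTheoryL k A) (ci : S_ci) {ι : Type} [Finite ι] (i : ℤ) :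
    ∀ (n : ℕ) (l : List (MvPolynomial ι k)), Chain l → (Nat.card ι : ℤ) - l.length = i + n →
      ∃ (m : List (MvPolynomial ι ℤ)) (L : List (MvPolynomial ι k)), L = l ++ zl' k m ∧ Chain L ∧
        (Nat.card ι : ℤ) - L.length = i ∧
        ∃ f : (T.h i).obj (op (AffPair.abs (zs_alg l))) ⟶
          (T.h i).obj (op (AffPair.abs (zs_alg L))), Mono f := by
  intro n
  induction n with
  | zero =>
    intro l hl hn
    exact ⟨[], l, by simp [zl'], hl, by simpa using hn, 𝟙 _, inferInstance⟩
  | succ n ih =>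
    intro l hl hn
    obtain ⟨t, -, hs, hm⟩ := T.lefschetz i l (ci.1 l hl) (by rw [hn]; push_cast; omega)
    have hc := ci.2.1 l _ hl hs
    obtain ⟨m, L, hL, hcL, hlen, f, hf⟩ := ih _ hc (by
      rw [List.length_append, List.length_singleton]
      push_cast at hn ⊢
      omega)
    exact ⟨t :: m, L, by simp [hL, zl'], hcL, hlen, Map (T.h i) (sec l _).incl ≫ f,
      mono_comp' hm hf⟩

theorem p_lef (T : CohTheoryL k A) (ci : S_ci) : S_lef T := by
  intro ι _ l i hl hi
  obtain ⟨n, hn⟩ := Int.eq_ofNat_of_zero_le (sub_nonneg.mpr hi)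
  obtain ⟨m, L, rfl, hc, hlen, f, hf⟩ := lef_aux T ci i n l hl (by
    rw [← hn]; ring)
  exact ⟨m, hc, hlen, f, hf⟩

end

end Pool.Agent.Lib.MP_ae0f86_nt.F
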