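import Pool.Agent.Lib.MP_ae0f86_nt.F.Stm

/-!
# MP_ae0f86_nt, project FEYNMAN: periods of twists and subquotients
-/

open CategoryTheory CategoryTheory.Limits MvPolynomial Opposite MonoidalCategory

universe v u

namespace Pool.Agent.Lib.MP_ae0f86_nt.F

noncomputable section

attribute [local instance] CategoryTheory.Abelian.hasFiniteBiproducts

variable {A : Type u} [Category.{v} A] [Abelian A] [MonoidalCategory A] [SymmetricCategory A]
  {HdR : A ⥤ ModuleCat.{0} QBar} {HB : A ⥤ ModuleCat.{0} ℚ} [FibreFunctor HdR]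
  [FibreFunctor HB] (c : Comparison HdR HB)

private theorem fib_epi {K : Type} [Field K] (H : A ⥤ ModuleCat.{0} K) [FibreFunctor H]
    {M N : A} (p : M ⟶ N) (hp : Epi p) : Function.Surjective (H.map p).hom := by
  have : Epi (H.map p) := inferInstance
  exact (ModuleCat.epi_iff_surjective _).1 this

private theorem fib_mono {K : Type} [Field K] (H : A ⥤ ModuleCat.{0} K) [FibreFunctor H]
    {M N : A} (p : M ⟶ N) (hp : Mono p) : Function.Injective (H.map p).hom := by
  have : Mono (H.map p) := inferInstance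
  exact (ModuleCat.mono_iff_injective _).1 this

/-- The periods of a subquotient are periods. -/
theorem per_subquot {N W : A} (h : IsSubquot N W) {z : ℂ} (hz : z ∈ c.Per N) : z ∈ c.Per W := by
  obtain ⟨N', i, p, hi, hp⟩ := h
  obtain ⟨ω, σ, rfl⟩ := hz
  obtain ⟨ω', rfl⟩ := fib_epi HdR p hp ω
  obtain ⟨s, hs⟩ := LinearMap.exists_leftInverse_of_injective (HB.map i).hom
    (LinearMap.ker_eq_bot.2 (fib_mono HB i hi))
  have hσ : (σ ∘ₗ (HB.map p).hom ∘ₗ s) ∘ₗ (HB.map i).hom = σ ∘ₗ (HB.map p).hom := by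
    rw [LinearMap.comp_assoc, LinearMap.comp_assoc, hs, LinearMap.comp_id]
  refine ⟨(HdR.map i).hom ω', σ ∘ₗ (HB.map p).hom ∘ₗ s, ?_⟩
  show c.per W ((HdR.map i).hom ω') (σ ∘ₗ (HB.map p).hom ∘ₗ s) = c.per N ((HdR.map p).hom ω') σ
  rw [c.per_nat, c.per_nat, hσ]

/-- Products of periods. -/
theorem per_tens {N P : A} {z w : ℂ} (hz : z ∈ c.Per N) (hw : w ∈ c.Per P) :
    z * w ∈ c.Per (N ⊗ P) := by
  obtain ⟨ω, σ, rfl⟩ := hz
  obtain ⟨η, τ, rfl⟩ := hw
  let E := LinearEquiv.ofBijective _ (FibreFunctor.bij (H := HB) N P)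
  let φ0 : TensorProduct ℚ (HB.obj N) (HB.obj P) →ₗ[ℚ] ℚ :=
    TensorProduct.lift ((LinearMap.mul ℚ ℚ).compl₁₂ σ τ)
  refine ⟨FibreFunctor.mul N P ω η, φ0 ∘ₗ E.symm.toLinearMap, ?_⟩
  refine c.per_mul N P ω η σ τ _ fun x y => ?_
  have h1 : E (x ⊗ₜ[ℚ] y) = FibreFunctor.mul N P x y := TensorProduct.lift.tmul _ _
  show φ0 (E.symm (FibreFunctor.mul N P x y)) = _
  rw [← h1, E.symm_apply_apply]
  exact TensorProduct.lift.tmul _ _

/-- `1` is a period of the unit object. -/
theorem per_unit : (1 : ℂ) ∈ c.Per (𝟙_ A) := by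
  let E := LinearEquiv.ofBijective (LinearMap.toSpanSingleton ℚ (HB.obj (𝟙_ A))
    FibreFunctor.one) FibreFunctor.one_bij
  refine ⟨FibreFunctor.one, E.symm.toLinearMap, c.per_one _ ?_⟩
  have h1 : E 1 = FibreFunctor.one := one_smul _ _
  show E.symm FibreFunctor.one = 1
  rw [← h1, E.symm_apply_apply]

/-- An invertible object has a nonzero period. -/
theorem per_inv {L L' : A} (hL : L ⊗ L' ≅ 𝟙_ A) : ∃ lam ∈ c.Per L, lam ≠ 0 := by
  by_contra hcon
  push Not at hcon
  have h0 : c.per L = 0 := by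
    ext ω σ
    exact hcon _ ⟨ω, σ, rfl⟩
  have hb := (c.bij L)
  rw [h0] at hb
  have hsub : Subsingleton (BDual HB L →ₗ[ℚ] ℂ) := by
    refine ⟨fun f g => ?_⟩
    obtain ⟨x, rfl⟩ := hb.2 f
    obtain ⟨y, rfl⟩ := hb.2 g
    have hz : ∀ x, LinearMap.liftBaseChange ℂ (0 : PairingAt HdR HB L) x = 0 := by
      intro x
      induction x with
      | zero => simp
      | tmul a b => simp
      | add a b ha hb => rw [map_add, ha, hb, add_zero]
    rw [hz, hz]
  have hdual : ∀ σ : Module.Dual ℚ (HB.obj L), σ = 0 := by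
    intro σ
    have h1 : (Algebra.linearMap ℚ ℂ) ∘ₗ (LinearMap.id : Module.Dual ℚ (HB.obj L) →ₗ[ℚ] _).flip
        (0 : HB.obj L) = 0 := by simp
    by_contra hσ
    obtain ⟨f, hf⟩ : ∃ f : Module.Dual ℚ (HB.obj L) →ₗ[ℚ] ℚ, f σ ≠ 0 := by
      by_contra hall
      push Not at hall
      exact hσ ((Module.forall_dual_apply_eq_zero_iff ℚ σ).1 hall)
    have h2 : (Algebra.linearMap ℚ ℂ) ∘ₗ f = 0 := Subsingleton.elim _ _
    have h3 := LinearMap.congr_fun h2 σ
    exact hf (by simpa using h3)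
  have hz : ∀ x : HB.obj L, x = 0 := fun x =>
    (Module.forall_dual_apply_eq_zero_iff ℚ x).1 fun σ => by rw [hdual σ]; rfl
  have hone : (FibreFunctor.one : HB.obj (𝟙_ A)) = 0 := by
    have h1 : ∀ y : HB.obj (L ⊗ L'), y = 0 := by
      intro y
      obtain ⟨t, rfl⟩ := (FibreFunctor.bij (H := HB) L L').2 y
      induction t with
      | zero => simp
      | tmul a b => rw [hz a, TensorProduct.zero_tmul, map_zero]
      | add a b ha hb => rw [map_add, ha, hb, add_zero]
    have h2 : (HB.map hL.hom).hom ((HB.map hL.inv).hom (FibreFunctor.one : HB.obj (𝟙_ A))) =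
        FibreFunctor.one := by
      rw [← LinearMap.comp_apply, ← ModuleCat.hom_comp, ← HB.map_comp, hL.inv_hom_id, HB.map_id]
      rfl
    rw [← h2, h1 ((HB.map hL.inv).hom _), map_zero]
  have h3 := FibreFunctor.one_bij (H := HB) |>.1
  have h4 : (1 : ℚ) = 0 := h3 (by simp [hone])
  exact one_ne_zero h4

/-- Periods of twists. -/
theorem per_twist {L : A} {lam : ℂ} (h : lam ∈ c.Per L) (e : ℕ) : lam ^ e ∈ c.Per (tpow L e) := by
  induction e with
  | zero => simpa [tpow] using per_unit c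
  | succ e ih => rw [pow_succ]; exact per_tens c ih h

/-- If `N ⊗ L^e` is a subquotient of `W` then `λ^e z` is a period of `W` for each period `z` of
`N` and each period `λ` of `L`. -/
theorem per_main {L N W : A} {lam : ℂ} (h : lam ∈ c.Per L) (e : ℕ)
    (hs : IsSubquot (N ⊗ tpow L e) W) {z : ℂ} (hz : z ∈ c.Per N) : lam ^ e * z ∈ c.Per W := by
  rw [mul_comm]
  exact per_subquot c hs (per_tens c hz (per_twist c h e))

end

end Pool.Agent.Lib.MP_ae0f86_nt.F
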